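import Pool.Agent.Work.MP_bf98aa_gt.Cp.BTor

/-!
The blow-up of the ball: topology.
PLAN. `loc`: the lifts are `id`, `piB k` (to the chart `none`), `(z₁, z₂ / z₁)`, `(z₂, z₁ / z₂)` (from `none`), `(z₁ z₂, 1 / z₂)` (between `some false` and `some true`). The relation on one chart is equality.
`clo`: the two equations are closed conditions. `trans`: the vectors `lnB` are not zero. `Bl_conn`: `conn_of` with `s = univ`; the punctured ball is the continuous image of `{z ≠ 0}` (`isConnected_compl_singleton_of_one_lt_rank`) under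
`z ↦ (2 / √(1 + rr z)) • z`, or of sphere times interval; `WB (some b)` contracts by `z₁ ↦ τ z₁`. `Bl_cpt`: `K none = {1 ≤ rr ≤ c}`, `K (some b) = {‖z₂‖ ≤ 1, rr (piB) ≤ min c 2}`.
-/

set_option autoImplicit false

open scoped ContDiff Topology
open Set Filter MeasureTheory

namespace Pool.Agent.Work.MP_bf98aa_gt.Cp

open Pool.Agent.Work.MP_bf98aa_gt.Th

theorem contDiff_piB (k : Option Bool) : ContDiff ℝ ∞ (piB k) := by
  rcases k with _ | _ | _
  · exact contDiff_id
  · exact contDiff_fst.prodMk (contDiff_fst.mul contDiff_snd)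
  · exact (contDiff_fst.mul contDiff_snd).prodMk contDiff_fst

theorem piB_mem {k : Option Bool} {z : F2} (hz : z ∈ WB k) : rr (piB k z) < 4 := by
  rcases k with _ | b
  · exact hz.2
  · exact lt_trans hz (by norm_num)

theorem BBl_cr (k : Option Bool) : Continuous fun z => rr (piB k z) :=
  contDiff_rr.continuous.comp (contDiff_piB k).continuous

theorem BBl_cl (k : Option Bool) : Continuous (lnB k) := by
  rcases k with _ | _ | _
  · exact continuous_id
  · exact continuous_const.prodMk continuous_snd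
  · exact continuous_snd.prodMk continuous_const

theorem BBl_opn (k : Option Bool) : IsOpen (WB k) := by
  rcases k with _ | b
  · exact (isOpen_lt continuous_const (BBl_cr none)).inter (isOpen_lt (BBl_cr none) continuous_const)
  · exact isOpen_lt (BBl_cr _) continuous_const

theorem BBl_fst {k : Option Bool} {z : F2} (h : rr (piB k z) = 0) : z.1 = 0 := by
  have e := rr_eq_zero.1 h
  rcases k with _ | _ | _
  exacts [congrArg Prod.fst e, congrArg Prod.fst e, congrArg Prod.snd e]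

theorem BBl_zero {b : Bool} {z : F2} (h : z.1 = 0) : rr (piB (some b) z) = 0 := by
  cases b <;> simp [piB, rr, h]

theorem BBl_refl {k : Option Bool} {z : F2} (hz : z ∈ WB k) : Bl.r k z k z :=
  ⟨hz, hz, rfl, mul_comm _ _⟩

theorem BBl_symm {k k' : Option Bool} {z z' : F2} (h : Bl.r k z k' z') : Bl.r k' z' k z :=
  ⟨h.2.1, h.1, h.2.2.1.symm, by linear_combination -h.2.2.2⟩

theorem BBl_eq {k : Option Bool} {y z : F2} (h : Bl.r k y k z) : y = z := by
  obtain ⟨-, -, e, e'⟩ := h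
  rcases k with _ | _ | _
  · exact e
  · exact Prod.ext (congrArg Prod.fst e :) (by simpa [lnB] using e'.symm)
  · exact Prod.ext (congrArg Prod.snd e :) (by simpa [lnB] using e')

theorem BBl_swap {b : Bool} {y z : F2} (h : Bl.r (some b) y (some !b) z) :
    y.2 ≠ 0 ∧ z = (y.1 * y.2, y.2⁻¹) := by
  obtain ⟨-, -, e, e'⟩ := h
  have k : y.2 * z.2 = 1 := by cases b <;> [simpa [lnB] using e'.symm; simpa [lnB] using e']
  refine ⟨left_ne_zero_of_mul_eq_one k, Prod.ext ?_ (eq_inv_of_mul_eq_one_right k)⟩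
  cases b
  exacts [(congrArg Prod.snd e).symm, (congrArg Prod.fst e).symm]

theorem BBl_swap' {b : Bool} {y : F2} (hy : y ∈ WB (some b)) (h : y.2 ≠ 0) :
    Bl.r (some b) y (some !b) (y.1 * y.2, y.2⁻¹) := by
  have e : piB (some b) y = piB (some !b) (y.1 * y.2, y.2⁻¹) := by cases b <;> simp [piB, h]
  refine ⟨hy, show rr _ < 3 from e ▸ hy, e, ?_⟩
  cases b <;> simp [lnB, h]

theorem BBl_inj {k k' : Option Bool} {z z' : F2} (hz : z ∈ WB k) (hz' : z' ∈ WB k')
    (e : piB k z = piB k' z') (h0 : rr (piB k z) ≠ 0) : Bl.r k z k' z' := by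
  have mu : ∀ k z, ∃ μ : ℂ, piB k z = μ • lnB k z := fun k z => by
    rcases k with _ | _ | _
    exacts [⟨1, (one_smul _ _).symm⟩, ⟨z.1, by simp [piB, lnB]⟩, ⟨z.1, by simp [piB, lnB]⟩]
  obtain ⟨μ, h⟩ := mu k z
  obtain ⟨μ', h'⟩ := mu k' z'
  have hμ : μ ≠ 0 := fun c => h0 (rr_eq_zero.2 (by rw [h, c, zero_smul]))
  have e' := h.symm.trans (e.trans h')
  have e1 : μ * _ = μ' * _ := congrArg Prod.fst e'
  have e2 : μ * _ = μ' * _ := congrArg Prod.snd e'
  exact ⟨hz, hz', e, mul_left_cancel₀ hμ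
    (by linear_combination (lnB k' z').2 * e1 - (lnB k' z').1 * e2)⟩

theorem BBl_back {k : Option Bool} {n : F2} (hn : n ∈ WB k) (h0 : rr (piB k n) ≠ 0) :
    ∃ γ, γ (piB k n) = n ∧ Lift (fun x x' => x' ∈ WB k ∧ piB k x' = x) (piB k n) γ := by
  rcases k with _ | b
  · exact ⟨id, rfl, contDiffAt_id, mem_of_superset ((BBl_opn none).mem_nhds hn) fun _ h => ⟨h, rfl⟩⟩
  have h1 : n.1 ≠ 0 := fun c => h0 (BBl_zero c)
  have h3 : ∀ᶠ x in 𝓝 (piB (some b) n), rr x < 3 :=
    contDiff_rr.continuous.continuousAt.eventually_lt continuousAt_const hn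
  cases b
  · refine ⟨fun x => (x.1, x.1⁻¹ * x.2), by simp [piB, h1],
      contDiffAt_fst.prodMk ((contDiffAt_fst.inv (by exact h1)).mul contDiffAt_snd), ?_⟩
    filter_upwards [h3, continuous_fst.continuousAt.eventually_ne
      (show (piB (some false) n).1 ≠ 0 from h1)] with x a b
    have e : piB (some false) (x.1, x.1⁻¹ * x.2) = x := by simp [piB, b]
    exact ⟨show rr _ < 3 by rwa [e], e⟩
  · refine ⟨fun x => (x.2, x.2⁻¹ * x.1), by simp [piB, h1],
      contDiffAt_snd.prodMk ((contDiffAt_snd.inv h1).mul contDiffAt_fst), ?_⟩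
    filter_upwards [h3, continuous_snd.continuousAt.eventually_ne h1] with x a b
    have e : piB (some true) (x.2, x.2⁻¹ * x.1) = x := by simp [piB, b]
    exact ⟨show rr _ < 3 by rwa [e], e⟩

theorem BBl_smul (c : ℝ) (z : F2) : rr (c • z) = c ^ 2 * rr z := by
  simp only [rr, Prod.smul_fst, Prod.smul_snd, Complex.real_smul, map_mul, Complex.normSq_ofReal]
  ring

theorem BBl_pre (k : Option Bool) : IsPreconnected (WB k) := by
  rcases k with _ | b
  · have c := ((isConnected_compl_singleton_of_one_lt_rank (E := F2)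
      (Module.one_lt_rank_of_one_lt_finrank (by simp)) 0).isPreconnected.prod
      (isPreconnected_Ioo (a := (0 : ℝ)) (b := 2))).image (fun p => (p.2 / √(rr p.1)) • p.1) (by
        have := contDiff_rr.continuous
        exact (continuousOn_snd.div (this.comp continuous_fst).sqrt.continuousOn fun p hp c => hp.1
          (rr_eq_zero.1 ((Real.sqrt_eq_zero (rr_nonneg _)).1 c))).smul continuousOn_fst)
    refine (congrArg IsPreconnected (Set.Subset.antisymm ?_ fun z hz => ?_)).mp c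
    · rintro _ ⟨⟨z, t⟩, ⟨h1, h2, h3⟩, rfl⟩
      have e : rr ((t / √(rr z)) • z) = t ^ 2 := by
        rw [BBl_smul, div_pow, Real.sq_sqrt (rr_nonneg z),
          div_mul_cancel₀ _ fun c => h1 (rr_eq_zero.1 c)]
      exact ⟨e ▸ pow_pos h2 2, e ▸ by nlinarith⟩
    · have h := Real.sqrt_pos.2 hz.1
      refine ⟨(z, √(rr z)), ⟨fun c => hz.1.ne' (rr_eq_zero.2 c), h, ?_⟩, by simp [h.ne']⟩
      exact (Real.sqrt_lt' two_pos).2 (by linarith [hz.2])
  have z0 : ∀ w, ((0, w) : F2) ∈ WB (some b) := fun w =>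
    (BBl_zero (z := (0, w)) rfl).trans_lt three_pos
  refine (IsPathConnected.isConnected ⟨(0, 0), z0 0, fun {y} hy => ?_⟩).isPreconnected
  refine (JoinedIn.of_segment_subset (y := (0, y.2)) ?_).trans (JoinedIn.of_segment_subset ?_)
  · rintro _ ⟨s, t, -, -, -, rfl⟩
    simpa using z0 (t • y.2)
  · rintro _ ⟨s, t, hs, ht, e, rfl⟩
    have e1 : s • ((0, y.2) : F2) + t • y = (t • y.1, y.2) :=
      Prod.ext (by simp) (by simp only [Prod.snd_add, Prod.smul_snd, ← add_smul, e, one_smul])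
    have e2 : piB (some b) (t • y.1, y.2) = t • piB (some b) y := by
      cases b <;> simp [piB, mul_assoc]
    have := rr_nonneg (piB (some b) y)
    have : t ^ 2 ≤ 1 := pow_le_one₀ ht (by linarith)
    have : rr (piB (some b) y) < 3 := hy
    show rr _ < 3
    rw [e1, e2, BBl_smul]
    nlinarith

theorem Bl_good : Bl.Good := by
  refine ⟨inferInstanceAs (Finite (Option Bool)), BBl_opn, fun h => h.1, BBl_refl, BBl_symm,
    ?_, ?_, fun _ => .of_forall fun _ => BBl_eq, ?_⟩
  · rintro k y k' z k'' x ⟨h1, h2, h3, h4⟩ ⟨-, h5, h6, h7⟩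
    refine ⟨h1, h5, h3.trans h6, ?_⟩
    have : (lnB k' z).1 ≠ 0 ∨ (lnB k' z).2 ≠ 0 := by
      rcases k' with _ | _ | _
      · exact not_and_or.1 fun c => h2.1.ne' (rr_eq_zero.2 (Prod.ext c.1 c.2))
      · exact Or.inl one_ne_zero
      · exact Or.inr one_ne_zero
    rcases this with c | c
    · exact mul_left_cancel₀ c (by linear_combination (lnB k y).1 * h7 + (lnB k'' x).1 * h4)
    · exact mul_left_cancel₀ c (by linear_combination (lnB k y).2 * h7 + (lnB k'' x).2 * h4)
  · intro k y k' z h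
    by_cases h0 : rr (piB k y) = 0
    · have h0' : rr (piB k' z) = 0 := h.2.2.1 ▸ h0
      rcases k with _ | b
      · exact absurd h0 h.1.1.ne'
      rcases k' with _ | b'
      · exact absurd h0' h.2.1.1.ne'
      by_cases e : b' = b
      · subst e
        exact ⟨id, BBl_eq h, contDiffAt_id,
          mem_of_superset ((BBl_opn _).mem_nhds h.1) fun _ => BBl_refl⟩
      obtain rfl := Bool.eq_not_iff.2 e
      obtain ⟨h2, rfl⟩ := BBl_swap h
      refine ⟨fun x => (x.1 * x.2, x.2⁻¹), rfl,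
        (contDiffAt_fst.mul contDiffAt_snd).prodMk (contDiffAt_snd.inv h2), ?_⟩
      filter_upwards [(BBl_opn _).mem_nhds h.1, continuous_snd.continuousAt.eventually_ne h2]
        with x h1 h2 using BBl_swap' h1 h2
    · obtain ⟨γ, e, hc, hl⟩ := BBl_back h.2.1 (h.2.2.1 ▸ h0)
      rw [← h.2.2.1] at e hc hl
      refine ⟨fun x => γ (piB k x), e, hc.comp y (contDiff_piB k).contDiffAt, ?_⟩
      filter_upwards [(BBl_opn _).mem_nhds h.1,
        (contDiff_piB k).continuous.continuousAt.eventually hl,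
        (BBl_cr k).continuousAt.eventually_ne h0] with x h1 h2 h3 using BBl_inj h1 h2.1 h2.2.symm h3
  · intro k y k' z hy hz h
    have := (contDiff_piB k).continuous
    have := (contDiff_piB k').continuous
    have := BBl_cl k
    have := BBl_cl k'
    have c : IsClosed {p : F2 × F2 | piB k p.1 = piB k' p.2 ∧
        (lnB k p.1).1 * (lnB k' p.2).2 = (lnB k p.1).2 * (lnB k' p.2).1} :=
      (isClosed_eq (by fun_prop) (by fun_prop)).inter (isClosed_eq (by fun_prop) (by fun_prop))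
    exact mem_of_superset (c.isOpen_compl.mem_nhds fun e => h ⟨hy, hz, e⟩) fun p hp e => hp e.2.2

theorem Bl_conn : Bl.Conn := by
  have m : ∀ k, ((1, 0) : F2) ∈ WB k ∧ rr (piB k (1, 0)) = 1 := fun k => by
    rcases k with _ | _ | _ <;> simp [WB, piB, rr]
  refine conn_of Bl_good univ (i₀ := none) ⟨_, (m none).1⟩ (fun k _ => BBl_pre k)
    (fun k z hz => ⟨k, trivial, z, BBl_refl hz⟩) fun k _ => .single ⟨trivial, trivial, _, _,
      BBl_inj (z := piB k (1, 0)) ⟨?_, piB_mem (m k).1⟩ (m k).1 rfl ?_⟩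
  · exact one_pos.trans_eq (m k).2.symm
  · exact (one_pos.trans_eq (m k).2.symm).ne'

theorem Bl_inj {k k' : Option Bool} {z z' : F2} (hz : z ∈ WB k) (hz' : z' ∈ WB k')
    (e : piB k z = piB k' z') (h0 : rr (piB k z) ≠ 0) : Bl.r k z k' z' :=
  BBl_inj hz hz' e h0

theorem Bl_none {k : Option Bool} {z : F2} (hz : z ∈ WB k) (h0 : rr (piB k z) ≠ 0) :
    Bl.r k z none (piB k z) :=
  BBl_inj hz ⟨(rr_nonneg _).lt_of_ne' h0, piB_mem hz⟩ rfl h0

theorem piB_surj {z : F2} (hz : rr z < 4) : ∃ k, ∃ n ∈ WB k, piB k n = z := by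
  by_cases h : rr z = 0
  · obtain rfl := rr_eq_zero.1 h
    exact ⟨some false, 0, by simp [WB, piB, rr], by simp [piB]⟩
  · exact ⟨none, z, ⟨(rr_nonneg _).lt_of_ne' h, hz⟩, rfl⟩

theorem piB_back {k : Option Bool} {n : F2} (hn : n ∈ WB k) (h0 : rr (piB k n) ≠ 0) :
    ∃ γ, γ (piB k n) = n ∧ Lift (fun x x' => x' ∈ WB k ∧ piB k x' = x) (piB k n) γ :=
  BBl_back hn h0

theorem Bl_cpt {c : ℝ} (hc : c < 4) : ∃ K : Option Bool → Set F2,
    (∀ k, IsCompact (K k) ∧ K k ⊆ WB k ∧ ∀ n ∈ K k, rr (piB k n) ≤ c) ∧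
      ∀ k, ∀ n ∈ WB k, rr (piB k n) ≤ c → ∃ k', ∃ n' ∈ K k', Bl.r k n k' n' := by
  let K : Option Bool → Set F2 := fun k => k.elim {z | 1 ≤ rr z ∧ rr z ≤ c} fun b =>
    {z | Complex.normSq z.2 ≤ 1 ∧ rr (piB (some b) z) ≤ min c 2}
  have S : ∀ b, ∀ n ∈ WB (some b), rr (piB (some b) n) ≤ min c 2 →
      ∃ k', ∃ n' ∈ K k', Bl.r (some b) n k' n' := fun b n hn h => by
    rcases le_total (Complex.normSq n.2) 1 with a | a
    · exact ⟨some b, n, ⟨a, h⟩, BBl_refl hn⟩
    · have r := BBl_swap' hn fun c => by norm_num [c] at a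
      exact ⟨some !b, _, ⟨(map_inv₀ _ _).trans_le (inv_le_one_of_one_le₀ a), r.2.2.1 ▸ h⟩, r⟩
  refine ⟨K, fun k => ?_, fun k n hn h => ?_⟩
  · rcases k with _ | b
    · exact ⟨(isCompact_rr c).of_isClosed_subset ((isClosed_le continuous_const (BBl_cr none)).inter
        (isClosed_le (BBl_cr none) continuous_const)) fun _ h => h.2,
        fun _ h => ⟨one_pos.trans_le h.1, h.2.trans_lt hc⟩, fun _ h => h.2⟩
    refine ⟨(isCompact_rr 3).of_isClosed_subset ((isClosed_le
      (Complex.continuous_normSq.comp continuous_snd) continuous_const).inter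
      (isClosed_le (BBl_cr _) continuous_const)) fun z h => ?_,
      fun _ h => (h.2.trans (min_le_right _ _)).trans_lt (by norm_num),
      fun _ h => h.2.trans (min_le_left _ _)⟩
    have h1 := h.1
    have h2 := h.2.trans (min_le_right _ _)
    have := Complex.normSq_nonneg (z.1 * z.2)
    show rr z ≤ 3
    cases b <;> simp only [rr, piB] at h2 ⊢ <;> linarith
  rcases le_total 1 (rr (piB k n)) with a | a
  · exact ⟨none, _, ⟨a, h⟩, Bl_none hn (one_pos.trans_le a).ne'⟩
  have h' := le_min h (a.trans one_le_two)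
  rcases k with _ | b
  · obtain ⟨b, m, rfl⟩ : ∃ b m, piB (some b) m = n := by
      by_cases h1 : n.1 = 0
      · have h2 : n.2 ≠ 0 := fun c => hn.1.ne' (rr_eq_zero.2 (Prod.ext h1 c))
        exact ⟨true, (n.2, 0), Prod.ext (by simp [piB, h1]) rfl⟩
      · exact ⟨false, (n.1, n.1⁻¹ * n.2), by simp [piB, h1]⟩
    have hm : m ∈ WB (some b) := a.trans_lt (by norm_num)
    obtain ⟨k', n', h1, h2⟩ := S b m hm h'
    exact ⟨k', n', h1, Bl_good.trans (Bl_inj hn hm rfl hn.1.ne') h2⟩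
  · exact S b n hn h'

theorem piB_null (k : Option Bool) : volume {n | rr (piB k n) = 0} = 0 := by
  refine measure_mono_null (t := ({0} : Set ℂ) ×ˢ (univ : Set ℂ))
    (fun n h => ⟨BBl_fst h, trivial⟩) ?_
  rw [Measure.volume_eq_prod, Measure.prod_prod, measure_singleton, zero_mul]

/-- The lifts of the gluing relation. -/
theorem Bl_lift {k k' : Option Bool} {y : F2} {γ : F2 → F2} (h : Lift (sl Bl.r k k') y γ) :
    (k = k' ∧ γ =ᶠ[𝓝 y] fun x => x) ∨ (k' = none ∧ y.1 ≠ 0 ∧ k ≠ none ∧ γ =ᶠ[𝓝 y] piB k) ∨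
      (k = none ∧ k' ≠ none) ∨
      (k ≠ k' ∧ k ≠ none ∧ k' ≠ none ∧ y.2 ≠ 0 ∧ γ =ᶠ[𝓝 y] fun x => (x.1 * x.2, x.2⁻¹)) := by
  by_cases e : k = k'
  · subst e
    exact Or.inl ⟨rfl, h.2.mono fun _ a => (BBl_eq a).symm⟩
  rcases k with _ | b
  · exact Or.inr (Or.inr (Or.inl ⟨rfl, Ne.symm e⟩))
  rcases k' with _ | b'
  · refine Or.inr (Or.inl ⟨rfl, fun c => ?_, e, h.2.mono fun _ a => a.2.2.1.symm⟩)
    have a := h.self
    exact a.2.1.1.ne' ((congrArg rr a.2.2.1).symm.trans (BBl_zero c))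
  obtain rfl : b' = !b := Bool.eq_not_iff.2 fun c => e (by rw [c])
  exact Or.inr (Or.inr (Or.inr ⟨e, by simp, by simp, (BBl_swap h.self).1,
    h.2.mono fun _ a => (BBl_swap a).2⟩))

end Pool.Agent.Work.MP_bf98aa_gt.Cp
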