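import Pool.Agent.Work.MP_bf98aa_gt.Cp.SDef

/-!
Working definitions: the torus, the ball and its blow-up at the origin.
See the team-store file `h8_bf98aa_c1pos.md`, section 3.
-/

set_option autoImplicit false

open scoped ContDiff Topology
open Set Filter MeasureTheory

namespace Pool.Agent.Work.MP_bf98aa_gt.Cp

open Pool.Agent.Work.MP_bf98aa_gt.Th

/-- Lattice points. -/
def Lat (x : ℂ) : Prop := (∃ a : ℤ, x.re = a) ∧ ∃ b : ℤ, x.im = b

/-- The torus. -/
def T2 : Pres ℂ where
  ι := Unit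
  W _ := univ
  r _ y _ z := Lat (z - y)

def sqK : Set ℂ := {z | z.re ∈ Icc (0 : ℝ) 1 ∧ z.im ∈ Icc (0 : ℝ) 1}

def sqD : Set ℂ := {z | z.re ∈ Ioo (0 : ℝ) 1 ∧ z.im ∈ Ioo (0 : ℝ) 1}

/-- The square of the euclidean norm. -/
def rr (z : F2) : ℝ := Complex.normSq z.1 + Complex.normSq z.2

/-- The ball of radius two. -/
def Bp : Pres F2 where
  ι := Unit
  W _ := {z | rr z < 4}
  r _ y _ z := rr y < 4 ∧ z = y

/-- The projection from the charts of the blow-up. -/
def piB : Option Bool → F2 → F2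
  | none, z => z
  | some false, z => (z.1, z.1 * z.2)
  | some true, z => (z.1 * z.2, z.1)

/-- A vector spanning the line of a point of the blow-up. -/
def lnB : Option Bool → F2 → F2
  | none, z => z
  | some false, z => (1, z.2)
  | some true, z => (z.2, 1)

def WB : Option Bool → Set F2
  | none => {z | 0 < rr z ∧ rr z < 4}
  | some b => {z | rr (piB (some b) z) < 3}

/-- The blow-up of the ball. -/
def Bl : Pres F2 where
  ι := Option Bool
  W := WB
  r k z k' z' := z ∈ WB k ∧ z' ∈ WB k' ∧ piB k z = piB k' z' ∧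
    (lnB k z).1 * (lnB k' z').2 = (lnB k z).2 * (lnB k' z').1

/-- The standard symplectic form. -/
noncomputable def std : Alt F2 2 := plus ar ar

/-- The form `v ↦ Im (conj z * v)`. -/
noncomputable def lam1 (z : ℂ) : Alt ℂ 1 := alt1 (z.re • Complex.imCLM - z.im • Complex.reCLM)

noncomputable def lam (z : F2) : Alt F2 1 := plus (lam1 z.1) (lam1 z.2)

noncomputable def av (z : F2) : Alt F2 1 := (1 + Complex.normSq z.2)⁻¹ • plus 0 (lam1 z.2)

/-- The radial profiles. -/
structure Rad (x φ : ℝ → ℝ) : Prop where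
  smx : ContDiff ℝ ∞ x
  smφ : ContDiff ℝ ∞ φ
  x1 : ∀ r, r ≤ 3 → x r = 1
  x0 : ∀ r, 16 / 5 ≤ r → x r = 0
  φ1 : ∀ r, r ≤ 3 → φ r = 57 / 20 + r / 20
  φ0 : ∀ r, 16 / 5 ≤ r → φ r = r
  dφ : ∀ r, 0 < deriv φ r

/-- Local primitives of the symplectic form of the blow-up. -/
noncomputable def thB (φ : ℝ → ℝ) : Option Bool → Fm F2 1
  | none => fun z => (φ (rr z) / (2 * rr z)) • lam z
  | some b => fun z => (57 / 40 : ℝ) • av z + (1 / 40 : ℝ) • pb (piB (some b)) lam z

/-- The symplectic form of the blow-up. -/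
noncomputable def wB (φ : ℝ → ℝ) (k : Option Bool) : Fm F2 2 := extDeriv (thB φ k)

/-- The connection forms of the blow-up. -/
noncomputable def AB (x : ℝ → ℝ) : Option Bool → Fm F2 1
  | none => fun z => (x (rr z) / rr z) • lam z
  | some _ => av

/-- The Chern form of the blow-up. -/
noncomputable def rB (x : ℝ → ℝ) (k : Option Bool) : Fm F2 2 :=
  fun z => (2 * Real.pi)⁻¹ • extDeriv (AB x k) z

end Pool.Agent.Work.MP_bf98aa_gt.Cp
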