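import Pool.Agent.Work.MP_bf98aa_gt.Cp.BBl

/-!
The blow-up of the ball: pointwise formulas.
PLAN. `d (f (r) lam) = f' dr ∧ lam + 2 f std` (`extDeriv_one_apply`). With `h = ∑ conj z v` one has `dr v = 2 Re h`, `lam v = Im h`, so for `w = d (f lam)`:
`w (v, i v) = 2 f' |h|² + 2 f rr v`, `|h|² ≤ rr z * rr v`, `2 (f' r + f) = φ'` for `f = φ / (2 r)`, and `φ r > 0` for `r ≥ 0` (monotone). `pf2 (dr ∧ lam) std = 2 r`, `pf2 (dr ∧ lam) (dr ∧ lam) = 0`.
On the charts `some b`: `w = (57 / 40) d av + (1 / 20) π^* std` (`extDeriv_pb`).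
-/

set_option autoImplicit false

open scoped ContDiff Topology
open Set Filter MeasureTheory

namespace Pool.Agent.Work.MP_bf98aa_gt.Cp

open Pool.Agent.Work.MP_bf98aa_gt.Th

variable {x φ : ℝ → ℝ}

theorem extDeriv_rad {f : ℝ → ℝ} {z : F2} (hf : DifferentiableAt ℝ f (rr z)) (u v : F2) :
    extDeriv (fun y => f (rr y) • lam y) z ![u, v] =
      deriv f (rr z) * (fderiv ℝ rr z u * lam z ![v] - fderiv ℝ rr z v * lam z ![u]) +
        2 * f (rr z) * std ![u, v] := by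
  sorry

theorem fderiv_rr (z v : F2) : fderiv ℝ rr z v =
    2 * (z.1.re * v.1.re + z.1.im * v.1.im + z.2.re * v.2.re + z.2.im * v.2.im) := by
  sorry

theorem Rad.sm_thB (h : Rad x φ) (k : Option Bool) : Sm (thB φ k) (WB k) := by
  sorry

theorem Rad.sm_AB (h : Rad x φ) (k : Option Bool) : Sm (AB x k) (WB k) := by
  sorry

theorem wB_some (φ : ℝ → ℝ) (b : Bool) (z : F2) : wB φ (some b) z =
    (57 / 20 / (1 + Complex.normSq z.2) ^ 2) • plus (0 : Alt ℂ 2) ar +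
      (1 / 20 : ℝ) • pb (piB (some b)) (fun _ => std) z := by
  sorry

theorem Rad.far (h : Rad x φ) {z : F2} (hz : 16 / 5 < rr z) :
    wB φ none z = std ∧ AB x none z = 0 ∧ rB x none z = 0 := by
  sorry

theorem Rad.tame (h : Rad x φ) {k : Option Bool} {z : F2} (hz : z ∈ WB k) {v : F2} (hv : v ≠ 0) :
    0 < wB φ k z ![v, Complex.I • v] := by
  sorry

theorem Rad.pf2_w (h : Rad x φ) {z : F2} (hz : rr z ≠ 0) :
    pf2 (wB φ none z) (wB φ none z) = 2 * φ (rr z) * deriv φ (rr z) / rr z := by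
  sorry

theorem Rad.pf2_r (h : Rad x φ) {z : F2} (hz : rr z ≠ 0) : pf2 (rB x none z) (wB φ none z) =
    (deriv φ (rr z) * x (rr z) + φ (rr z) * deriv x (rr z)) / (Real.pi * rr z) := by
  sorry

theorem Rad.pf2_pos (h : Rad x φ) {k : Option Bool} {z : F2} (hz : z ∈ WB k) :
    0 < pf2 (wB φ k z) (wB φ k z) := by
  sorry

end Pool.Agent.Work.MP_bf98aa_gt.Cp
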