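import Pool.Agent.Work.MP_bf98aa_gt.Cp.BFm1

/-!
The blow-up of the ball: invariance of the forms, frames.
PLAN. Use `Bl_lift`, with `cmp_symm`, `pb_symm` for the third case. For `γ = piB (some b)` at a point with `z₁ ≠ 0` (there `r < 3`): the derivative is complex linear with determinant `l = ± z₁`,
`π^* (lam / r) = Im (d z₁ / z₁) + av`. For `γ = (z₁ z₂, 1 / z₂)`: `l = - 1 / z₂`, `γ^* av = av - Im (d z₂ / z₂)`. `gc_r` follows from `cmp` and `Cmp.d`.
`gc_w`: near the point `thB k = (57 / 40) AB k + (1 / 40) π^* lam` on all charts where `r < 3`, so `wB k = (57 / 40) (2 π) rB k + (1 / 20) π^* std` there, and `π ∘ γ = π`.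
-/

set_option autoImplicit false

open scoped ContDiff Topology
open Set Filter MeasureTheory

namespace Pool.Agent.Work.MP_bf98aa_gt.Cp

open Pool.Agent.Work.MP_bf98aa_gt.Th

variable {x φ : ℝ → ℝ}

theorem Rad.cmp (h : Rad x φ) {k k' : Option Bool} {y : F2} {γ : F2 → F2}
    (hγ : Lift (sl Bl.r k k') y γ) : Cmp γ (fun _ => ContinuousLinearMap.id ℝ F2) (AB x k)
      (fun _ => ContinuousLinearMap.id ℝ F2) (AB x k') y := by
  sorry

theorem Rad.gc_r (h : Rad x φ) : Bl.GC (rB x) := by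
  sorry

theorem Rad.gc_w (h : Rad x φ) : Bl.GC (wB φ) := by
  sorry

theorem Rad.ok (h : Rad x φ) :
    (Fam.whole Bl (fun _ _ => ContinuousLinearMap.id ℝ F2) (AB x)).Ok (wB φ) (rB x) := by
  sorry

end Pool.Agent.Work.MP_bf98aa_gt.Cp
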