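import Pool.Agent.Work.MP_bf98aa_gt.Cp.BFm1

/-!
The blow-up of the ball: integrals.
PLAN. `radial`: `WithLp.volume_preserving_toLp` (or `ofLp`) to pass to the inner product space `WithLp 2 (ℂ × ℂ)` of dimension 4, `integral_fun_norm_addHaar`, `integrable_fun_norm_addHaar`,
`InnerProductSpace.volume_ball` (unit ball `π² / 2`), then the substitution `r = t²`. It may be simpler to state everything with `G (t²) t` directly: `∫ = 2 π² ∫₀² G (t²) t dt`.
Then the fundamental theorem of calculus for `φ² - r²` and `φ x` on `[0, 4]`.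
-/

set_option autoImplicit false

open scoped ContDiff Topology
open Set Filter MeasureTheory

namespace Pool.Agent.Work.MP_bf98aa_gt.Cp

open Pool.Agent.Work.MP_bf98aa_gt.Th

variable {x φ : ℝ → ℝ}

theorem BInt_meas : MeasurableSet (WB none) := by
  have c : Continuous rr := by
    unfold rr
    fun_prop
  exact ((isOpen_lt continuous_const c).inter (isOpen_lt c continuous_const)).measurableSet

theorem BInt_rr (z : F2) : rr z = ‖WithLp.toLp 2 z‖ ^ 2 := by
  rw [WithLp.prod_norm_sq_eq_of_L2, rr, Complex.normSq_eq_norm_sq, Complex.normSq_eq_norm_sq]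
  rfl

theorem BInt_ind (G : ℝ → ℝ) (z : F2) : (WB none).indicator (fun z => G (rr z) / rr z) z =
    (Ioo (0 : ℝ) 2).indicator (fun t => G (t ^ 2) / t ^ 2) ‖WithLp.toLp 2 z‖ := by
  have e := BInt_rr z
  have h0 := norm_nonneg (WithLp.toLp 2 z)
  have k : z ∈ WB none ↔ ‖WithLp.toLp 2 z‖ ∈ Ioo (0 : ℝ) 2 := by
    change 0 < rr z ∧ rr z < 4 ↔ _
    rw [e]
    generalize ‖WithLp.toLp 2 z‖ = t at h0
    constructor
    · rintro ⟨h1, h2⟩
      refine ⟨lt_of_le_of_ne h0 ?_, by nlinarith⟩
      rintro rfl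
      simp at h1
    · rintro ⟨h1, h2⟩
      exact ⟨by positivity, by nlinarith⟩
  by_cases h : z ∈ WB none
  · rw [indicator_of_mem h, indicator_of_mem (k.1 h), e]
  · rw [indicator_of_notMem h, indicator_of_notMem (mt k.2 h)]

theorem BInt_pow (G : ℝ → ℝ) (t : ℝ) :
    t ^ (4 - 1) • (Ioo (0 : ℝ) 2).indicator (fun t => G (t ^ 2) / t ^ 2) t =
      (Ioo (0 : ℝ) 2).indicator (fun t => G (t ^ 2) * t) t := by
  by_cases h : t ∈ Ioo (0 : ℝ) 2
  · rw [indicator_of_mem h, indicator_of_mem h, smul_eq_mul]
    have := h.1.ne'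
    field_simp
  · rw [indicator_of_notMem h, indicator_of_notMem h, smul_zero]

theorem BInt_rank : Module.finrank ℝ (WithLp 2 F2) = 4 := by
  rw [(WithLp.linearEquiv 2 ℝ F2).finrank_eq, Module.finrank_prod, Complex.finrank_real_complex]

theorem BInt_ball : volume.real (Metric.ball (0 : WithLp 2 F2) 1) = Real.pi ^ 2 / 2 := by
  have : Nontrivial (WithLp 2 F2) := Module.nontrivial_of_finrank_pos (R := ℝ) (by
    rw [BInt_rank]; norm_num)
  rw [Measure.real, InnerProductSpace.volume_ball_of_dim_even (k := 2) BInt_rank,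
    ENNReal.ofReal_one, one_pow, one_mul, ENNReal.toReal_ofReal (by positivity)]
  norm_num [Nat.factorial]

theorem BInt_sub {G : ℝ → ℝ} (hG : Continuous G) :
    ∫ t in (0 : ℝ)..2, G (t ^ 2) * t = (∫ r in (0 : ℝ)..4, G r) / 2 := by
  have h := intervalIntegral.integral_comp_mul_deriv (a := 0) (b := 2) (f := fun t : ℝ => t ^ 2)
    (f' := fun t => t * 2) (g := G) (fun t _ => by
      have := hasDerivAt_pow 2 t
      simpa [mul_comm] using this) (by fun_prop) hG
  have e1 : (0 : ℝ) ^ 2 = 0 := by norm_num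
  have e2 : (2 : ℝ) ^ 2 = 4 := by norm_num
  simp only [Function.comp, e1, e2, ← mul_assoc] at h
  rw [intervalIntegral.integral_mul_const] at h
  linarith

theorem radial {G : ℝ → ℝ} (hG : Continuous G) :
    IntegrableOn (fun z => G (rr z) / rr z) (WB none) ∧
      ∫ z in WB none, G (rr z) / rr z = Real.pi ^ 2 * ∫ r in (0 : ℝ)..4, G r := by
  have : Nontrivial (WithLp 2 F2) := Module.nontrivial_of_finrank_pos (R := ℝ) (by
    rw [BInt_rank]; norm_num)
  have mp := WithLp.volume_preserving_toLp ℂ ℂ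
  have me : MeasurableEmbedding (WithLp.toLp 2 : F2 → WithLp 2 F2) :=
    (MeasurableEquiv.toLp 2 F2).measurableEmbedding
  have c : Continuous fun t : ℝ => G (t ^ 2) * t := by fun_prop
  constructor
  · rw [← integrable_indicator_iff BInt_meas, funext (BInt_ind G)]
    refine (mp.integrable_comp_emb me (g := fun y : WithLp 2 F2 =>
      (Ioo (0 : ℝ) 2).indicator (fun t => G (t ^ 2) / t ^ 2) ‖y‖)).2 ?_
    rw [integrable_fun_norm_addHaar, BInt_rank, funext (BInt_pow G)]
    exact ((integrable_indicator_iff measurableSet_Ioo).2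
      ((c.continuousOn.integrableOn_compact isCompact_Icc).mono_set
        Ioo_subset_Icc_self)).integrableOn
  · rw [← integral_indicator BInt_meas, funext (BInt_ind G),
      mp.integral_comp me fun y : WithLp 2 F2 =>
        (Ioo (0 : ℝ) 2).indicator (fun t => G (t ^ 2) / t ^ 2) ‖y‖,
      integral_fun_norm_addHaar, BInt_rank, BInt_ball, funext (BInt_pow G),
      setIntegral_indicator measurableSet_Ioo, inter_eq_self_of_subset_right Ioo_subset_Ioi_self,
      ← integral_Ioc_eq_integral_Ioo, ← intervalIntegral.integral_of_le zero_le_two, BInt_sub hG,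
      smul_eq_mul, nsmul_eq_mul]
    push_cast
    ring

theorem BInt_of {G : ℝ → ℝ} (hG : Continuous G) {F : F2 → ℝ}
    (e : ∀ z, rr z ≠ 0 → F z = G (rr z) / rr z) :
    IntegrableOn F (WB none) ∧ ∫ z in WB none, F z = Real.pi ^ 2 * ∫ r in (0 : ℝ)..4, G r := by
  have k : EqOn F (fun z => G (rr z) / rr z) (WB none) := fun z hz => e z hz.1.ne'
  rw [integrableOn_congr_fun k BInt_meas, setIntegral_congr_fun BInt_meas k]
  exact radial hG

theorem Rad.int_w (h : Rad x φ) :
    IntegrableOn (fun z => pf2 (wB φ none z) (wB φ none z) - 2) (WB none) ∧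
      ∫ z in WB none, (pf2 (wB φ none z) (wB φ none z) - 2) = -(Real.pi ^ 2 * (57 / 20) ^ 2) := by
  have c1 : Continuous φ := h.smφ.continuous
  have c2 : Continuous (deriv φ) := h.smφ.continuous_deriv (by simp)
  have d1 : Differentiable ℝ φ := h.smφ.differentiable (by simp)
  have c : Continuous fun r => 2 * φ r * deriv φ r - 2 * r := by fun_prop
  have k := BInt_of c (F := fun z => pf2 (wB φ none z) (wB φ none z) - 2) fun z hz => by
    rw [h.pf2_w hz]
    field_simp
  refine ⟨k.1, k.2.trans ?_⟩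
  rw [intervalIntegral.integral_eq_sub_of_hasDerivAt (f := fun r => φ r * φ r - r * r)
    (fun r _ => (((d1 r).hasDerivAt.mul (d1 r).hasDerivAt).sub
      ((hasDerivAt_id' r).mul (hasDerivAt_id' r))).congr_deriv (by ring))
    (c.intervalIntegrable _ _), h.φ1 0 (by norm_num), h.φ0 4 (by norm_num)]
  ring

theorem Rad.int_r (h : Rad x φ) :
    IntegrableOn (fun z => pf2 (rB x none z) (wB φ none z)) (WB none) ∧
      ∫ z in WB none, pf2 (rB x none z) (wB φ none z) = -(Real.pi * (57 / 20)) := by
  have c1 : Continuous φ := h.smφ.continuous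
  have c2 : Continuous (deriv φ) := h.smφ.continuous_deriv (by simp)
  have d1 : Differentiable ℝ φ := h.smφ.differentiable (by simp)
  have c3 : Continuous x := h.smx.continuous
  have c4 : Continuous (deriv x) := h.smx.continuous_deriv (by simp)
  have d2 : Differentiable ℝ x := h.smx.differentiable (by simp)
  have c : Continuous fun r => (deriv φ r * x r + φ r * deriv x r) / Real.pi := by fun_prop
  have p := Real.pi_ne_zero
  have k := BInt_of c (F := fun z => pf2 (rB x none z) (wB φ none z)) fun z hz => by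
    rw [h.pf2_r hz, div_div]
  refine ⟨k.1, k.2.trans ?_⟩
  rw [intervalIntegral.integral_eq_sub_of_hasDerivAt (f := fun r => φ r * x r / Real.pi)
    (fun r _ => ((d1 r).hasDerivAt.mul (d2 r).hasDerivAt).div_const _)
    (c.intervalIntegrable _ _), h.φ1 0 (by norm_num), h.x1 0 (by norm_num), h.x0 4 (by norm_num)]
  field_simp
  ring

end Pool.Agent.Work.MP_bf98aa_gt.Cp
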