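import Pool.Agent.Work.MP_bf98aa_gt.Cp.BDef

/-!
The torus and the ball.
PLAN. The lifts of `T2.r` are translations near every point, those of `Bp.r` are the identity (`Pulls.of_exists`, `cmp_of_exists`; for a translation `U = id`, `l = 1`). `Jof_id`, `ar_apply`, `plus_apply`.
-/

set_option autoImplicit false

open scoped ContDiff Topology
open Set Filter MeasureTheory

namespace Pool.Agent.Work.MP_bf98aa_gt.Cp

open Pool.Agent.Work.MP_bf98aa_gt.Th

theorem BTor_lat_zero : Lat 0 := ⟨⟨0, by simp⟩, ⟨0, by simp⟩⟩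

theorem BTor_lat_neg {x : ℂ} (h : Lat x) : Lat (-x) := by
  obtain ⟨⟨a, ha⟩, ⟨b, hb⟩⟩ := h
  exact ⟨⟨-a, by simp [ha]⟩, ⟨-b, by simp [hb]⟩⟩

theorem BTor_lat_add {x y : ℂ} (h : Lat x) (h' : Lat y) : Lat (x + y) := by
  obtain ⟨⟨a, ha⟩, ⟨b, hb⟩⟩ := h
  obtain ⟨⟨a', ha'⟩, ⟨b', hb'⟩⟩ := h'
  exact ⟨⟨a + a', by simp [ha, ha']⟩, ⟨b + b', by simp [hb, hb']⟩⟩

theorem BTor_int_small {a : ℤ} (h : |(a : ℝ)| < 1) : (a : ℝ) = 0 := by
  have h1 : |a| < 1 := by exact_mod_cast h
  have h2 : a = 0 := Int.abs_lt_one_iff.1 h1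
  simp [h2]

theorem BTor_lat_small {x : ℂ} (h : Lat x) (h1 : |x.re| < 1) (h2 : |x.im| < 1) : x = 0 := by
  obtain ⟨⟨a, ha⟩, ⟨b, hb⟩⟩ := h
  rw [ha] at h1
  rw [hb] at h2
  exact Complex.ext (ha.trans (BTor_int_small h1)) (hb.trans (BTor_int_small h2))

theorem BTor_lat_closed : IsClosed {x | Lat x} := by
  have h := Int.isClosedEmbedding_coe_real.isClosed_range
  have e : {x | Lat x} = Complex.re ⁻¹' range ((↑) : ℤ → ℝ) ∩ Complex.im ⁻¹' range ((↑) : ℤ → ℝ) := by
    ext x
    simp only [Lat, mem_ofPred_eq, mem_inter_iff, mem_preimage, mem_range, eq_comm]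
  rw [e]
  exact (h.preimage Complex.continuous_re).inter (h.preimage Complex.continuous_im)

theorem BTor_lift {i j : T2.ι} {y z : ℂ} (h : T2.r i y j z) :
    Lift (sl T2.r i j) y fun x => x + (z - y) := by
  refine ⟨contDiffAt_id.add contDiffAt_const, Eventually.of_forall fun x => ?_⟩
  change Lat (x + (z - y) - x)
  rw [add_sub_cancel_left]
  exact h

theorem BTor_vol (s t : Set ℝ) (hs : MeasurableSet s) (ht : MeasurableSet t) :
    volume {z : ℂ | z.re ∈ s ∧ z.im ∈ t} = volume s * volume t := by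
  have h := Complex.volume_preserving_equiv_real_prod.measure_preimage
    (hs.prod ht).nullMeasurableSet
  rw [Measure.volume_eq_prod, Measure.prod_prod] at h
  exact h

theorem BTor_pb_tr {V : Type} [NormedAddCommGroup V] [NormedSpace ℝ V] {k : ℕ} (c : Alt V k)
    (d y : V) : c = pb (fun x => x + d) (fun _ => c) y := by
  ext v
  simp [pb]

theorem BTor_cmp_tr {V : Type} [NormedAddCommGroup V] [NormedSpace ℝ V] [NormedSpace ℂ V]
    [IsScalarTower ℝ ℂ V] (d y : V) :
    Cmp (fun x => x + d) (fun _ => ContinuousLinearMap.id ℝ V) (fun _ => 0)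
      (fun _ => ContinuousLinearMap.id ℝ V) (fun _ => 0) y := by
  refine ⟨fun _ => 1, contDiffAt_const, Eventually.of_forall fun x =>
    ⟨⟨ContinuousLinearMap.id ℂ V, fun v => by simp, LinearMap.det_id⟩, one_ne_zero, fun v => ?_⟩⟩
  simp

theorem BTor_isD_zero {V : Type} [NormedAddCommGroup V] [NormedSpace ℝ V] (U : Set V) :
    IsD (fun _ : V => (0 : Alt V 1)) (fun _ => (2 * Real.pi) • (0 : Alt V 2)) U :=
  ⟨contDiffOn_const, fun x _ => (extDeriv_const 0 x).trans (smul_zero _).symm⟩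

theorem BTor_ar_I (v : ℂ) : ar ![v, Complex.I • v] = Complex.normSq v := by
  rw [ar_apply, Complex.normSq_apply]
  simp

theorem BTor_re {n : WithTop ℕ∞} : ContDiff ℝ n Complex.re := Complex.reCLM.contDiff

theorem BTor_im {n : WithTop ℕ∞} : ContDiff ℝ n Complex.im := Complex.imCLM.contDiff

theorem BTor_nsq : ContDiff ℝ ∞ fun z : ℂ => Complex.normSq z := by
  simp only [Complex.normSq_apply]
  exact (BTor_re.mul BTor_re).add (BTor_im.mul BTor_im)

theorem BTor_lam1 : ContDiff ℝ ∞ lam1 :=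
  contDiff_alt1.comp ((BTor_re.smul contDiff_const).sub (BTor_im.smul contDiff_const))

theorem BTor_fd {V : Type} [NormedAddCommGroup V] [NormedSpace ℝ V] {α : Fm V 1} {x : V}
    (h : DifferentiableAt ℝ α x) (v : V) {L : V →L[ℝ] ℝ}
    (hL : HasFDerivAt (fun y => α y ![v]) L x) (u : V) : fderiv ℝ α x u ![v] = L u := by
  have h2 := (ContinuousAlternatingMap.apply ℝ V ℝ ![v]).hasFDerivAt.comp x h.hasFDerivAt
  exact congrArg (fun A : V →L[ℝ] ℝ => A u) (h2.unique hL)

theorem BTor_pos (z : ℂ) : 0 < 1 + Complex.normSq z :=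
  add_pos_of_pos_of_nonneg one_pos (Complex.normSq_nonneg z)

theorem BTor_g : ContDiff ℝ ∞ fun z : ℂ => (1 + Complex.normSq z)⁻¹ :=
  (contDiff_const.add BTor_nsq).inv fun z => (BTor_pos z).ne'

theorem T2_good : T2.Good := by
  refine ⟨inferInstanceAs (Finite Unit), fun _ => isOpen_univ, fun _ => mem_univ _,
    fun {i y} _ => ?_, fun {i y j z} h => ?_, fun {i y j z l x} h h' => ?_,
    fun {i y j z} h => ⟨_, add_sub_cancel y z, BTor_lift h⟩, fun {i y} _ => ?_,
    fun {i y j z} _ _ h => ?_⟩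
  · change Lat (y - y)
    rw [sub_self]
    exact BTor_lat_zero
  · change Lat (y - z)
    rw [← neg_sub]
    exact BTor_lat_neg h
  · change Lat (x - y)
    rw [← sub_add_sub_cancel x z y]
    exact BTor_lat_add h' h
  · have hc : Continuous fun p : ℂ × ℂ => ‖p.2 - p.1‖ := by fun_prop
    have h1 : ∀ᶠ p : ℂ × ℂ in 𝓝 (y, y), ‖p.2 - p.1‖ < 1 :=
      hc.continuousAt.eventually_lt continuousAt_const (by simp)
    filter_upwards [h1] with p hp h
    exact (sub_eq_zero.1 (BTor_lat_small h ((Complex.abs_re_le_norm _).trans_lt hp)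
      ((Complex.abs_im_le_norm _).trans_lt hp))).symm
  · have hc : Continuous fun p : ℂ × ℂ => p.2 - p.1 := by fun_prop
    exact (BTor_lat_closed.isOpen_compl.preimage hc).mem_nhds h

theorem T2_conn : T2.Conn := by
  exact conn_of T2_good univ (i₀ := ()) ⟨0, mem_univ _⟩ (fun _ _ => isPreconnected_univ)
    (fun j z hz => ⟨j, mem_univ _, z, T2_good.refl hz⟩) fun _ _ => Relation.ReflTransGen.refl

theorem T2_fd : FD T2 (fun _ => sqK) fun _ => sqD := by
  have hD : IsOpen sqD := (isOpen_Ioo.preimage Complex.continuous_re).inter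
    (isOpen_Ioo.preimage Complex.continuous_im)
  have hs : sqD ⊆ sqK := fun z hz => ⟨Ioo_subset_Icc_self hz.1, Ioo_subset_Icc_self hz.2⟩
  have v1 : volume sqD = 1 := by
    rw [sqD, BTor_vol _ _ measurableSet_Ioo measurableSet_Ioo]
    simp
  have v2 : volume sqK = 1 := by
    rw [sqK, BTor_vol _ _ measurableSet_Icc measurableSet_Icc]
    simp
  refine ⟨⟨fun _ => ⟨isCompact_Icc.reProdIm isCompact_Icc, subset_univ _⟩, fun i y _ =>
    ⟨i, ⟨Int.fract y.re, Int.fract y.im⟩, ⟨⟨Int.fract_nonneg _, (Int.fract_lt_one _).le⟩,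
      Int.fract_nonneg _, (Int.fract_lt_one _).le⟩, ⟨-⌊y.re⌋, ?_⟩, ⟨-⌊y.im⌋, ?_⟩⟩⟩,
    fun _ => hD, fun _ => hs, fun i j y hy z hz h => ⟨rfl, ?_⟩, fun _ => ?_⟩
  · rw [Complex.sub_re, Int.cast_neg]
    exact sub_sub_cancel_left _ _
  · rw [Complex.sub_im, Int.cast_neg]
    exact sub_sub_cancel_left _ _
  · obtain ⟨⟨a1, a2⟩, a3, a4⟩ := hy
    obtain ⟨⟨b1, b2⟩, b3, b4⟩ := hz
    refine (sub_eq_zero.1 (BTor_lat_small h ?_ ?_)).symm
    · rw [Complex.sub_re, abs_lt]
      constructor <;> linarith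
    · rw [Complex.sub_im, abs_lt]
      constructor <;> linarith
  · rw [measure_sdiff hs hD.measurableSet.nullMeasurableSet (by simp [v1]), v1, v2, tsub_self]

theorem volume_sqD : volume sqD = 1 := by
  rw [sqD, BTor_vol _ _ measurableSet_Ioo measurableSet_Ioo]
  simp

theorem T2_gc {k : ℕ} (c : Alt ℂ k) : T2.GC fun _ _ => c := by
  exact ⟨fun _ => ⟨contDiffOn_const, fun x _ => extDeriv_const c x⟩,
    Pulls.of_exists T2_good.smap T2_good fun i y j z h =>
      ⟨_, add_sub_cancel y z, BTor_lift h, BTor_pb_tr c _ y⟩⟩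

theorem T2_ok {c : ℝ} (hc : 0 < c) :
    (Fam.whole T2 (fun _ _ => ContinuousLinearMap.id ℝ ℂ) fun _ _ => 0).Ok (fun _ _ => c • ar)
      fun _ _ => 0 := by
  refine ⟨fun _ => isOpen_univ, fun _ => subset_rfl, fun j z hz => ⟨j, z, hz, T2_good.refl hz⟩,
    fun _ => contDiffOn_const, fun _ _ _ => ⟨ContinuousLinearEquiv.refl ℝ ℂ, rfl⟩,
    fun _ => BTor_isD_zero _, fun _ _ _ v hv => ?_, fun k l y _ γ _ h => ?_⟩
  · change 0 < c • ar ![v, Jof (ContinuousLinearMap.id ℝ ℂ) v]
    rw [Jof_id, BTor_ar_I]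
    exact mul_pos hc (Complex.normSq_pos.2 hv)
  · exact cmp_of_exists T2_good (BTor_lift h.self) h (add_sub_cancel y (γ y)) (BTor_cmp_tr _ y)

theorem contDiff_rr : ContDiff ℝ ∞ rr := by
  exact (BTor_nsq.comp contDiff_fst).add (BTor_nsq.comp contDiff_snd)

theorem rr_nonneg (z : F2) : 0 ≤ rr z := by
  exact add_nonneg (Complex.normSq_nonneg _) (Complex.normSq_nonneg _)

theorem rr_eq_zero {z : F2} : rr z = 0 ↔ z = 0 := by
  rw [rr, add_eq_zero_iff_of_nonneg (Complex.normSq_nonneg _) (Complex.normSq_nonneg _),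
    Complex.normSq_eq_zero, Complex.normSq_eq_zero, Prod.ext_iff]
  rfl

theorem isCompact_rr (c : ℝ) : IsCompact {z | rr z ≤ c} := by
  refine Metric.isCompact_of_isClosed_isBounded (isClosed_le contDiff_rr.continuous continuous_const)
    ((Metric.isBounded_closedBall (x := (0 : F2)) (r := √c)).subset fun z hz => ?_)
  have h : Complex.normSq z.1 + Complex.normSq z.2 ≤ c := hz
  have h1 := Complex.normSq_nonneg z.1
  have h2 := Complex.normSq_nonneg z.2
  rw [mem_closedBall_zero_iff, Prod.norm_def, max_le_iff]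
  exact ⟨Real.le_sqrt_of_sq_le (by rw [Complex.sq_norm]; linarith),
    Real.le_sqrt_of_sq_le (by rw [Complex.sq_norm]; linarith)⟩

theorem Bp_good : Bp.Good := by
  have ho : IsOpen {z | rr z < 4} := isOpen_lt contDiff_rr.continuous continuous_const
  refine ⟨inferInstanceAs (Finite Unit), fun _ => ho, fun h => h.1, fun h => ⟨h, rfl⟩,
    fun h => ⟨h.2 ▸ h.1, h.2.symm⟩, fun h h' => ⟨h.1, h'.2.trans h.2⟩,
    fun {i y j z} h => ⟨fun x => x, h.2.symm, contDiffAt_id, ?_⟩,
    fun _ => Eventually.of_forall fun p h => h.2.symm, fun {i y j z} hy _ h => ?_⟩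
  · filter_upwards [ho.mem_nhds h.1] with x hx using ⟨hx, rfl⟩
  · have h1 : (y, z) ∈ {p : F2 × F2 | p.2 = p.1}ᶜ := fun e => h ⟨hy, e⟩
    filter_upwards [(isClosed_eq continuous_snd continuous_fst).isOpen_compl.mem_nhds h1]
      with p hp h' using hp h'.2

theorem Bp_gc {k : ℕ} (c : Alt F2 k) : Bp.GC fun _ _ => c := by
  exact ⟨fun _ => ⟨contDiffOn_const, fun x _ => extDeriv_const c x⟩,
    Pulls.of_exists Bp_good.smap Bp_good fun i y j z h =>
      ⟨fun x => x, h.2.symm, Bp_good.lift_id (i := i) h.1, (congrFun (pb_id fun _ => c) y).symm⟩⟩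

theorem Bp_ok : (Fam.whole Bp (fun _ _ => ContinuousLinearMap.id ℝ F2) fun _ _ => 0).Ok
    (fun _ _ => std) fun _ _ => 0 := by
  refine ⟨fun k => Bp_good.opn k, fun _ => subset_rfl, fun j z hz => ⟨j, z, hz, Bp_good.refl hz⟩,
    fun _ => contDiffOn_const, fun _ _ _ => ⟨ContinuousLinearEquiv.refl ℝ F2, rfl⟩,
    fun _ => BTor_isD_zero _, fun _ _ _ v hv => ?_, fun k l y hy γ _ h => ?_⟩
  · change 0 < plus ar ar ![v, Jof (ContinuousLinearMap.id ℝ F2) v]
    rw [Jof_id, plus_apply, Prod.smul_fst, Prod.smul_snd, BTor_ar_I, BTor_ar_I]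
    exact lt_of_le_of_ne (rr_nonneg v) fun e => hv (rr_eq_zero.1 e.symm)
  · exact cmp_of_exists Bp_good (Bp_good.lift_id (i := k) hy) h h.self.2.symm Cmp.refl

theorem std_apply (u v : F2) : std ![u, v] = ar ![u.1, v.1] + ar ![u.2, v.2] := by
  exact plus_apply ar ar u v

theorem std_I (u v : F2) : std ![Complex.I • u, Complex.I • v] = std ![u, v] := by
  simp only [std_apply, ar_apply, Prod.smul_fst, Prod.smul_snd, smul_eq_mul, Complex.mul_re,
    Complex.mul_im, Complex.I_re, Complex.I_im]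
  ring

theorem pf2_std : pf2 std std = 2 := by
  simp only [pf2, std_apply, ar_apply]
  norm_num

theorem lam1_apply (z v : ℂ) : lam1 z ![v] = z.re * v.im - z.im * v.re := by
  rw [lam1, alt1_apply]
  simp

theorem lam_apply (z v : F2) : lam z ![v] = lam1 z.1 ![v.1] + lam1 z.2 ![v.2] := by
  exact plus_apply_one _ _ v

theorem av_apply (z v : F2) : av z ![v] = (1 + Complex.normSq z.2)⁻¹ * lam1 z.2 ![v.2] := by
  rw [av, ContinuousAlternatingMap.smul_apply, plus_apply_one]
  simp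

theorem contDiff_lam : ContDiff ℝ ∞ lam := by
  have h := PProd_sm (a := lam1) (b := lam1) isOpen_univ isOpen_univ BTor_lam1.contDiffOn
    BTor_lam1.contDiffOn
  rw [univ_prod_univ] at h
  exact contDiffOn_univ.1 h

theorem contDiff_av : ContDiff ℝ ∞ av := by
  have h := PProd_sm (a := fun _ : ℂ => (0 : Alt ℂ 1)) (b := lam1) isOpen_univ isOpen_univ
    contDiffOn_const BTor_lam1.contDiffOn
  rw [univ_prod_univ] at h
  exact (BTor_g.comp contDiff_snd).smul (contDiffOn_univ.1 h)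

theorem BTor_hd (z v : ℂ) : HasFDerivAt (fun y => lam1 y ![v])
    (v.im • Complex.reCLM - v.re • Complex.imCLM) z := by
  have e : (fun y => lam1 y ![v]) = ⇑(v.im • Complex.reCLM - v.re • Complex.imCLM) :=
    funext fun y => by
      rw [lam1_apply]
      simp [mul_comm]
  rw [e]
  exact ContinuousLinearMap.hasFDerivAt _

theorem BTor_d_lam1 (z : ℂ) : extDeriv lam1 z = (2 : ℝ) • ar := by
  have d := BTor_lam1.differentiable (by simp) z
  refine alt_ext_two fun u v => ?_
  rw [extDeriv_one_apply d, BTor_fd d v (BTor_hd z v), BTor_fd d u (BTor_hd z u),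
    ContinuousAlternatingMap.smul_apply, ar_apply]
  simp
  ring

theorem BTor_hg (z : ℂ) : HasFDerivAt (fun w : ℂ => (1 + Complex.normSq w)⁻¹)
    ((-((1 + Complex.normSq z) ^ 2)⁻¹) • ((2 * z.re) • Complex.reCLM + (2 * z.im) • Complex.imCLM))
    z := by
  have h1 := Complex.reCLM.hasFDerivAt (x := z)
  have h2 := Complex.imCLM.hasFDerivAt (x := z)
  have h3 : HasFDerivAt (fun w : ℂ => 1 + Complex.normSq w)
      ((2 * z.re) • Complex.reCLM + (2 * z.im) • Complex.imCLM) z := by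
    refine (((h1.fun_mul h1).fun_add (h2.fun_mul h2)).const_add 1).congr_fderiv ?_
    ext v
    simp
    ring
  exact (hasDerivAt_inv (BTor_pos z).ne').comp_hasFDerivAt z h3

theorem BTor_d_av (z : ℂ) : extDeriv (fun w : ℂ => (1 + Complex.normSq w)⁻¹ • lam1 w) z =
    (2 / (1 + Complex.normSq z) ^ 2) • ar := by
  have d := (BTor_g.smul BTor_lam1).differentiable (by simp) z
  refine alt_ext_two fun u v => ?_
  have h := (BTor_pos z).ne'
  refine (extDeriv_one_apply d u v).trans ?_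
  have k := fun w : ℂ => (BTor_hg z).fun_mul (BTor_hd z w)
  simp only [lam1_apply z] at k
  rw [BTor_fd d v (k v), BTor_fd d u (k u), ContinuousAlternatingMap.smul_apply, ar_apply]
  simp only [add_apply, smul_apply, sub_apply, Complex.reCLM_apply, Complex.imCLM_apply,
    smul_eq_mul]
  rw [Complex.normSq_apply] at h ⊢
  field_simp
  ring

theorem extDeriv_lam (z : F2) : extDeriv lam z = (2 : ℝ) • std := by
  have d := BTor_lam1.differentiable (by simp)
  refine (extDeriv_plus (a := lam1) (b := lam1) (d z.1) (d z.2)).trans ?_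
  rw [BTor_d_lam1, BTor_d_lam1, plus_smul, std]

theorem extDeriv_av (z : F2) :
    extDeriv av z = (2 / (1 + Complex.normSq z.2) ^ 2) • plus (0 : Alt ℂ 2) ar := by
  have e : av = fun x : F2 => plus ((fun _ : ℂ => (0 : Alt ℂ 1)) x.1)
      ((fun w : ℂ => (1 + Complex.normSq w)⁻¹ • lam1 w) x.2) := funext fun x => by
    rw [av, ← plus_smul, smul_zero]
  have d := (BTor_g.smul BTor_lam1).differentiable (by simp)
  rw [e]
  refine (extDeriv_plus (a := fun _ : ℂ => (0 : Alt ℂ 1))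
    (b := fun w : ℂ => (1 + Complex.normSq w)⁻¹ • lam1 w) (differentiableAt_const _)
    (d z.2)).trans ?_
  rw [extDeriv_const, BTor_d_av, ← plus_smul, smul_zero]

/-- A smooth cut-off function. -/
theorem exists_cut {a b : ℝ} (h : a < b) : ∃ χ : ℝ → ℝ, ContDiff ℝ ∞ χ ∧ (∀ r, χ r ∈ Icc (0 : ℝ) 1) ∧
    (∀ r, r ≤ a → χ r = 1) ∧ ∀ r, b ≤ r → χ r = 0 := by
  have hp : 0 < b - a := sub_pos.2 h
  refine ⟨fun r => Real.smoothTransition ((b - r) / (b - a)), ?_,
    fun r => ⟨Real.smoothTransition.nonneg _, Real.smoothTransition.le_one _⟩,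
    fun r hr => Real.smoothTransition.one_of_one_le ?_,
    fun r hr => Real.smoothTransition.zero_of_nonpos ?_⟩
  · exact Real.smoothTransition.contDiff.comp ((contDiff_const.sub contDiff_id).div_const _)
  · rw [one_le_div hp]
    linarith
  · exact div_nonpos_of_nonpos_of_nonneg (sub_nonpos.2 hr) hp.le

/-- Take `φ = (1 - s) (57 / 20 + r / 20) + s r` with a monotone step `s` from `3` to `16 / 5`. -/
theorem exists_rad : ∃ x φ, Rad x φ := by
  obtain ⟨x, hx, -, x1, x0⟩ := exists_cut (a := 3) (b := 16 / 5) (by norm_num)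
  obtain ⟨s, hs, hm, s0, s1, z0, z1⟩ : ∃ s : ℝ → ℝ, ContDiff ℝ ∞ s ∧ Monotone s ∧ (∀ r, 0 ≤ s r) ∧
      (∀ r, s r ≤ 1) ∧ (∀ r, r ≤ 3 → s r = 0) ∧ ∀ r, 16 / 5 ≤ r → s r = 1 := by
    refine ⟨fun r => Real.smoothTransition ((r - 3) * 5),
      Real.smoothTransition.contDiff.comp ((contDiff_id.sub contDiff_const).mul contDiff_const),
      fun a b hab => Real.smoothTransition.monotone (by linarith),
      fun r => Real.smoothTransition.nonneg _, fun r => Real.smoothTransition.le_one _,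
      fun r hr => Real.smoothTransition.zero_of_nonpos (by linarith),
      fun r hr => Real.smoothTransition.one_of_one_le (by linarith)⟩
  refine ⟨x, fun r => 57 / 20 + r / 20 + s r * (19 / 20 * (r - 3)), hx, ?_, x1, x0,
    fun r hr => ?_, fun r hr => ?_, fun r => ?_⟩
  · exact (contDiff_const.add (contDiff_id.div_const _)).add
      (hs.mul (contDiff_const.mul (contDiff_id.sub contDiff_const)))
  · simp only [z0 r hr]
    ring
  · simp only [z1 r hr]
    ring
  · have d1 : HasDerivAt s (deriv s r) r := (hs.differentiable (by simp) r).hasDerivAt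
    have d2 := (((hasDerivAt_id' r).div_const 20).const_add (57 / 20)).fun_add
      (d1.fun_mul (((hasDerivAt_id' r).sub_const 3).const_mul (19 / 20)))
    rw [d2.deriv]
    have h1 : 0 ≤ deriv s r * (19 / 20 * (r - 3)) := by
      rcases le_or_gt 3 r with h3 | h3
      · exact mul_nonneg hm.deriv_nonneg (by linarith)
      · have e : s =ᶠ[𝓝 r] fun _ => 0 :=
          (eventually_lt_nhds h3).mono fun t ht => z0 t ht.le
        rw [e.deriv_eq, deriv_const, zero_mul]
    have h2 := s0 r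
    linarith

end Pool.Agent.Work.MP_bf98aa_gt.Cp
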