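import Pool.Agent.Work.MP_bf98aa_gt.Cp.CCmp

/-!
Operations on families of frames: pull-back, twist, difference of connections.

PLAN. `exists_pullFam`: members `(i, j, γ)` with `O = {y ∈ P.W i | Lift (sl R i j) y γ}` (open by `lift_ev`), frame `F j (γ y) ∘ fderiv γ y`, form `pb γ (A j)`; `SMap.factor`, `Cmp.pull`, `Cmp.trans`, `Cmp.symm`
(for two members and a lift `δ` of `P.r`, the map `γ' ∘ δ` is a lift of `R`; the required `Cmp δ` has the same `U`, `l` as `Cmp (γ' ∘ δ)` by the chain rule).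
`exists_twist`: `G = (2 - t) J₀ + t J₁`, `F' = F ∘ G⁻¹`; `tame_twist` is the pointwise algebra: `w (G v, G J₀ v) = a² w (v, J₀ v) + a b w (J₀ v, J₁ J₀ v) + a b w (v, J₁ v) + b² w (v, J₀ v)`,
`J₁ (J₀ + J₁) = (J₀ + J₁) J₀`; `Cmp.right` with `Cmp.J` for both families; where `t = 0` we have `F' = (2 i)⁻¹ • F`, `Cmp.scal`.
`exists_eta`: `exists_cmp` on `T.O k ∩ Z`, the forms `χ • η k` (extended by zero) are compatible by `Cmp.uniq`, `descent`; `Cmp.d` for the last claim.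
-/

set_option autoImplicit false

open scoped ContDiff Topology
open Set Filter MeasureTheory

namespace Pool.Agent.Work.MP_bf98aa_gt.Cp

open Pool.Agent.Work.MP_bf98aa_gt.Th

variable {V : Type} [NormedAddCommGroup V] [NormedSpace ℝ V] [NormedSpace ℂ V]
  [IsScalarTower ℝ ℂ V] [FiniteDimensional ℝ V] [FiniteDimensional ℂ V] {P Q : Pres V}

theorem CFam_pb1 {E E' : Type} [NormedAddCommGroup E] [NormedSpace ℝ E] [NormedAddCommGroup E']
    [NormedSpace ℝ E'] (γ : E → E') (A : Fm E' 1) (x v : E) :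
    pb γ A x ![v] = A (γ x) ![fderiv ℝ γ x v] :=
  congrArg (A (γ x)) (funext fun i => by fin_cases i; rfl)

theorem CFam_pb2 {E E' : Type} [NormedAddCommGroup E] [NormedSpace ℝ E] [NormedAddCommGroup E']
    [NormedSpace ℝ E'] (γ : E → E') (A : Fm E' 2) (x u v : E) :
    pb γ A x ![u, v] = A (γ x) ![fderiv ℝ γ x u, fderiv ℝ γ x v] :=
  congrArg (A (γ x)) (funext fun i => by fin_cases i <;> rfl)

theorem exists_pullFam {R : P.ι → V → Q.ι → V → Prop} (h : SMap P Q R) (hP : P.Good) (hQ : Q.Good)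
    (hinv : ∀ i j y γ, Lift (sl R i j) y γ → (fderiv ℝ γ y).IsInvertible)
    {F : Q.ι → V → V →L[ℝ] V} {A : Q.ι → Fm V 1} {w ρ : Q.ι → Fm V 2}
    (hF : (Fam.whole Q F A).Ok w ρ) {w' ρ' : P.ι → Fm V 2} (hw : Pulls R w' w) (hρ : Pulls R ρ' ρ) :
    ∃ T : Fam P, T.Ok w' ρ' ∧ ∀ k, ∀ y ∈ T.O k, ∀ j γ, Lift (sl R (T.i k) j) y γ →
      Cmp γ (T.F k) (T.A k) (F j) (A j) y := by
  have key : ∀ i j₀ γ₀ y, Lift (sl R i j₀) y γ₀ → ∀ j γ, Lift (sl R i j) y γ →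
      Cmp γ (fun x => (F j₀ (γ₀ x)).comp (fderiv ℝ γ₀ x)) (pb γ₀ (A j₀)) (F j) (A j) y := by
    intro i j₀ γ₀ y h0 j γ h1
    obtain ⟨δ, h2, e⟩ := h.factor hQ h0 h1
    exact (Cmp.pull.trans (hF.cmp j₀ j _ (h.mem h0.self).2 δ (hQ.mem' h2.self) h2) h0.1
      h2.1).congr_map e.symm
  have op : ∀ i j γ, IsOpen {y | Lift (sl R i j) y γ} := fun i j γ =>
    isOpen_iff_mem_nhds.2 fun y hy => h.lift_ev hQ hy
  refine ⟨⟨P.ι × Q.ι × (V → V), fun k => k.1, fun k => {y | Lift (sl R k.1 k.2.1) y k.2.2},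
    fun k x => (F k.2.1 (k.2.2 x)).comp (fderiv ℝ k.2.2 x), fun k => pb k.2.2 (A k.2.1)⟩,
    ⟨fun k => op _ _ _, fun k y hy => (h.mem hy.self).1, fun j z hz => ?_, ?_, ?_, ?_, ?_, ?_⟩,
    fun k y hy => key _ _ _ y hy⟩
  · obtain ⟨j', z', hr⟩ := h.tot hz
    obtain ⟨γ, -, hγ⟩ := h.loc hr
    exact ⟨(j, j', γ), z, hγ, hP.refl hz⟩
  · rintro ⟨i, j, γ⟩ y hy
    exact ((((hF.smF j).contDiffAt ((hQ.opn j).mem_nhds (h.mem hy.self).2)).comp y hy.1).clm_comp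
      (hy.1.fderiv_right (m := ∞) le_rfl)).contDiffWithinAt
  · rintro ⟨i, j, γ⟩ y hy
    exact (hF.inv j _ (h.mem hy.self).2).comp (hinv i j y γ hy)
  · rintro ⟨i, j, γ⟩
    have := (hF.dA j).pb (op i j γ) (hQ.opn j) (fun y hy => hy.1.contDiffWithinAt)
      fun y hy => (h.mem hy.self).2
    exact ⟨this.1, fun x hx => (this.2 x hx).trans ((pb_fun_smul γ (fun _ => 2 * Real.pi) (ρ j)
      x).trans (congrArg _ (hρ i j x γ hx).symm))⟩
  · rintro ⟨i, j, γ⟩ y hy v hv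
    have a := hF.inv j _ (h.mem hy.self).2
    have b := hinv i j y γ hy
    have c := (Cmp.pull (γ := γ) (F' := F j) (A' := A j) (y := y)).J.self_of_nhds (a.comp b) a v
    refine (hF.tame j _ (h.mem hy.self).2 (fderiv ℝ γ y v)
      ((map_ne_zero_iff _ b.bijective.1).2 hv)).trans_eq ?_
    exact ((congrArg (fun u : Alt V 2 => u _) (hw i j y γ hy)).trans
      ((CFam_pb2 γ (w j) y _ _).trans (by rw [c]; rfl))).symm
  · rintro ⟨i, j, γ⟩ ⟨i', j', γ'⟩ y hy δ hy' hδ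
    obtain ⟨l, hl, ev⟩ := key i j γ y hy j' _ (hδ.comp hy' fun _ _ _ => h.left)
    refine ⟨l, hl, ?_⟩
    filter_upwards [ev, hδ.diff, hδ.1.continuousAt.eventually (Lift.diff hy')] with x e d1 d2
    rw [fderiv_fun_comp x d2 d1] at e
    exact ⟨e.1, e.2.1, fun v => (congrArg (· - _) (CFam_pb1 γ' (A j') _ _)).trans (e.2.2 v)⟩

theorem tame_twist {w : Alt V 2} {J₀ J₁ : V →L[ℝ] V} (h0 : ∀ v, J₀ (J₀ v) = -v)
    (h1 : ∀ v, J₁ (J₁ v) = -v) (t0 : ∀ v, v ≠ 0 → 0 < w ![v, J₀ v])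
    (t1 : ∀ v, v ≠ 0 → 0 < w ![v, J₁ v]) (c1 : ∀ u v, w ![J₁ u, J₁ v] = w ![u, v]) {t : ℝ}
    (ht : t ∈ Icc (0 : ℝ) 1) : ((2 - t) • J₀ + t • J₁).IsInvertible ∧
      ∀ v, v ≠ 0 → 0 < w ![((2 - t) • J₀ + t • J₁) v, ((2 - t) • J₀ + t • J₁) (J₀ v)] := by
  obtain ⟨B, hB⟩ := exists_bilin w
  have sw : ∀ u v, B u v = -B v u := fun u v => by rw [← hB, ← hB, alt2_swap]
  have key : ∀ v, v ≠ 0 →
      0 < w ![((2 - t) • J₀ + t • J₁) v, ((2 - t) • J₀ + t • J₁) (J₀ v)] := fun v hv => by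
    have n : J₀ v ≠ 0 := fun e => hv (neg_eq_zero.1 (by rw [← h0, e, map_zero]))
    have a := t0 v hv
    have b := t1 v hv
    have c := t1 _ n
    have d := c1 v (J₀ v)
    have p : 0 < 2 - t := by linarith [ht.2]
    simp only [hB, add_apply, smul_apply, h0, map_add,
      map_smul, map_neg, smul_eq_mul] at a b c d ⊢
    rw [d, sw (J₀ v) v, sw (J₁ v) v]
    nlinarith [mul_pos (mul_pos p p) a, mul_nonneg (mul_nonneg p.le ht.1) b.le,
      mul_nonneg (mul_nonneg p.le ht.1) c.le, mul_nonneg (mul_nonneg ht.1 ht.1) a.le]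
  have inj : Function.Injective ((2 - t) • J₀ + t • J₁) :=
    (injective_iff_map_eq_zero _).2 fun v e => by_contra fun hv => by
      have := key v hv
      rw [e, hB, map_zero] at this
      exact lt_irrefl _ this
  exact ⟨⟨(LinearEquiv.ofInjectiveEndo ((2 - t) • J₀ + t • J₁).toLinearMap
    inj).toContinuousLinearEquiv, ContinuousLinearMap.ext fun _ => rfl⟩, key⟩

theorem exists_twist (hP : P.Good) {w ρ ρ₁ : P.ι → Fm V 2} (T : Fam P) (hT : T.Ok w ρ)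
    {F₁ : P.ι → V → V →L[ℝ] V} {A₁ : P.ι → Fm V 1} (h1 : (Fam.whole P F₁ A₁).Ok w ρ₁)
    (hc : ∀ i, ∀ y ∈ P.W i, ∀ u v, w i y ![Jof (F₁ i y) u, Jof (F₁ i y) v] = w i y ![u, v])
    {t : P.ι → V → ℝ} (ht : P.InvF t) (hs : ∀ i, ContDiffOn ℝ ∞ (t i) (P.W i))
    (h01 : ∀ i y, t i y ∈ Icc (0 : ℝ) 1) :
    ∃ F' : T.κ → V → V →L[ℝ] V, (Fam.mk T.κ T.i T.O F' T.A : Fam P).Ok w ρ ∧
      (∀ k, ∀ y ∈ T.O k, (∀ᶠ x in 𝓝 y, t (T.i k) x = 0) →
        Cmp (fun x => x) (F' k) (T.A k) (T.F k) (T.A k) y) ∧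
      ∀ k, ∀ y ∈ T.O k, t (T.i k) y = 1 → Jof (F' k y) = Jof (F₁ (T.i k) y) := by
  let G : T.κ → V → V →L[ℝ] V := fun k x =>
    (2 - t (T.i k) x) • Jof (T.F k x) + t (T.i k) x • Jof (F₁ (T.i k) x)
  have i1 : ∀ k, ∀ y ∈ T.O k, (F₁ (T.i k) y).IsInvertible := fun k y hy =>
    h1.inv (T.i k) y (hT.sub k hy)
  have tw := fun k y (hy : y ∈ T.O k) => tame_twist (Jof_sq (hT.inv k y hy)) (Jof_sq (i1 k y hy))
    (hT.tame k y hy) (h1.tame (T.i k) y (hT.sub k hy)) (hc _ y (hT.sub k hy)) (h01 (T.i k) y)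
  have iG : ∀ k, ∀ y ∈ T.O k, (G k y).IsInvertible := fun k y hy => (tw k y hy).1
  have iF : ∀ k, ∀ y ∈ T.O k, ((T.F k y).comp (G k y).inverse).IsInvertible := fun k y hy =>
    (hT.inv k y hy).comp (iG k y hy).inverse
  have eJ : ∀ k, ∀ y ∈ T.O k, Jof ((T.F k y).comp (G k y).inverse) =
      (G k y).comp ((Jof (T.F k y)).comp (G k y).inverse) := fun k y hy =>
    Jof_eq (iF k y hy) fun v => by
      simp only [ContinuousLinearMap.comp_apply, (iG k y hy).inverse_apply_self,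
        Jof_spec (hT.inv k y hy)]
  refine ⟨fun k x => (T.F k x).comp (G k x).inverse,
    ⟨hT.opn, hT.sub, hT.cov, fun k y hy => ?_, iF, hT.dA, fun k y hy v hv => ?_,
      fun k l y hy γ hγ hL => ?_⟩, fun k y hy h0 => ?_, fun k y hy e => ?_⟩
  · have : CompleteSpace V := FiniteDimensional.complete ℝ V
    have w1 := (hP.opn _).mem_nhds (hT.sub k hy)
    have a1 := (hT.smF k).contDiffAt ((hT.opn k).mem_nhds hy)
    have a2 := (hs (T.i k)).contDiffAt w1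
    have a3 : ContDiffAt ℝ ∞ (G k) y :=
      ((contDiffAt_const.sub a2).smul (contDiffAt_Jof a1 (hT.inv k y hy))).add
        (a2.smul (contDiffAt_Jof ((h1.smF (T.i k)).contDiffAt w1) (i1 k y hy)))
    exact (a1.clm_comp ((iG k y hy).contDiffAt_map_inverse.comp y a3)).contDiffWithinAt
  · have e := (iG k y hy).self_apply_inverse v
    have := (tw k y hy).2 ((G k y).inverse v) fun h => hv (by rw [← e, h, map_zero])
    change 0 < w (T.i k) y ![G k y ((G k y).inverse v), G k y (Jof (T.F k y) ((G k y).inverse v))]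
      at this
    rw [e] at this
    change 0 < w (T.i k) y ![v, Jof ((T.F k y).comp (G k y).inverse) v]
    rw [eJ k y hy]
    exact this
  · have c0 := hT.cmp k l y hy γ hγ hL
    refine c0.right ?_
    filter_upwards [c0.J, (h1.cmp (T.i k) (T.i l) y (hT.sub k hy) γ (hT.sub l hγ) hL).J,
      (hT.opn k).mem_nhds hy, hL.1.continuousAt.eventually ((hT.opn l).mem_nhds hγ), hL.2]
      with x j0 j1 hx hx' hr v
    have e : ∀ u, fderiv ℝ γ x (G k x u) = G l (γ x) (fderiv ℝ γ x u) := fun u => by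
      simp only [G, _root_.add_apply, _root_.smul_apply, map_add,
        map_smul, ht _ _ _ _ hr]
      rw [j0 (hT.inv k x hx) (hT.inv l _ hx') u]
      exact congrArg _ (congrArg _ (j1 (i1 k x hx) (i1 l _ hx') u))
    rw [← (iG l _ hx').inverse_apply_self (fderiv ℝ γ x ((G k x).inverse v)), ← e,
      (iG k x hx).self_apply_inverse]
  · refine Cmp.scal (c := 2 * Complex.I) (mul_ne_zero two_ne_zero Complex.I_ne_zero) ?_
    filter_upwards [h0, (hT.opn k).mem_nhds hy] with x e hx v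
    obtain ⟨u, rfl⟩ := (iG k x hx).surjective v
    rw [ContinuousLinearMap.comp_apply, (iG k x hx).inverse_apply_self]
    simp only [G, e, sub_zero, zero_smul, add_zero, _root_.smul_apply, map_smul,
      Jof_spec (hT.inv k x hx)]
    rw [mul_smul, two_smul, two_smul]
  · rw [eJ k y hy]
    ext v
    obtain ⟨u, rfl⟩ := (iG k y hy).surjective v
    rw [ContinuousLinearMap.comp_apply, ContinuousLinearMap.comp_apply,
      (iG k y hy).inverse_apply_self]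
    simp only [G, e, _root_.add_apply, _root_.smul_apply, map_add,
      map_smul, Jof_sq (hT.inv k y hy), Jof_sq (i1 k y hy)]
    module

theorem exists_eta (hP : P.Good) {w ρ ρ₁ : P.ι → Fm V 2} (hρ : P.GS ρ) (hρ₁ : P.GS ρ₁) (T : Fam P)
    (hT : T.Ok w ρ) {F₁ : P.ι → V → V →L[ℝ] V} {A₁ : P.ι → Fm V 1}
    (h1 : (Fam.whole P F₁ A₁).Ok w ρ₁) {Z : P.ι → Set V} (hZ : ∀ i, IsOpen (Z i))
    (hZ' : ∀ i y j z, P.r i y j z → y ∈ Z i → z ∈ Z j)
    (hJ : ∀ k, ∀ y ∈ T.O k, y ∈ Z (T.i k) → Jof (T.F k y) = Jof (F₁ (T.i k) y))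
    {χ : P.ι → V → ℝ} (hχ : P.InvF χ) (hs : ∀ i, ContDiffOn ℝ ∞ (χ i) (P.W i))
    (h0 : ∀ i, ∀ y ∈ P.W i, y ∉ Z i → ∀ᶠ x in 𝓝 y, χ i x = 0) :
    ∃ ξ : P.ι → Fm V 1, P.GS ξ ∧ (∀ i, ∀ y ∈ P.W i, χ i y = 0 → ξ i y = 0) ∧
      (∀ k, ∀ y ∈ T.O k, (∀ᶠ x in 𝓝 y, χ (T.i k) x = 1) →
        Cmp (fun x => x) (T.F k) (fun x => T.A k x + ξ (T.i k) x) (F₁ (T.i k)) (A₁ (T.i k)) y) ∧
      ∀ i, ∀ y ∈ P.W i, (∀ᶠ x in 𝓝 y, χ i x = 1) →
        (2 * Real.pi) • ρ i y + extDeriv (ξ i) y = (2 * Real.pi) • ρ₁ i y := by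
  have oo : ∀ k, IsOpen (T.O k ∩ Z (T.i k)) := fun k => (hT.opn k).inter (hZ _)
  choose η sη cη using fun k => exists_cmp (F := T.F k) (F' := F₁ (T.i k)) (A := T.A k)
    (A' := A₁ (T.i k)) (oo k) ((hT.smF k).mono inter_subset_left)
    ((h1.smF (T.i k)).mono (inter_subset_left.trans (hT.sub k)))
    (fun x hx => ⟨hT.inv k x hx.1, h1.inv (T.i k) x (hT.sub k hx.1), hJ k x hx.1 hx.2⟩)
    (ContDiffOn.mono (hT.dA k).1 inter_subset_left)
    (ContDiffOn.mono (h1.dA (T.i k)).1 (inter_subset_left.trans (hT.sub k)))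
  obtain ⟨ξ, gξ, eξ⟩ := descent hP T.i T.O (fun k x => χ (T.i k) x • η k x) hT.opn hT.sub hT.cov
    (fun k y hy => by
      by_cases hz : y ∈ Z (T.i k)
      · exact (((hs _).contDiffAt ((hP.opn _).mem_nhds (hT.sub k hy))).smul
          ((sη k).at (oo k) ⟨hy, hz⟩)).contDiffWithinAt
      · refine ((contDiffAt_const (c := (0 : Alt V 1))).congr_of_eventuallyEq ?_).contDiffWithinAt
        filter_upwards [h0 _ y (hT.sub k hy) hz] with x hx
        rw [hx, zero_smul])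
    (fun k l y hy γ hγ hL => by
      rw [pb_fun_smul, ← hχ _ _ _ _ hL.self]
      by_cases hz : y ∈ Z (T.i k)
      · have a := (cη k y ⟨hy, hz⟩).trans
          (h1.cmp (T.i k) (T.i l) y (hT.sub k hy) γ (hT.sub l hγ) hL) contDiffAt_id hL.1
        have b := ((hT.cmp k l y hy γ hγ hL).add (ξ := pb γ (η l)) (ξ' := η l) .rfl).trans
          (cη l (γ y) ⟨hγ, hZ' _ _ _ _ hL.self hz⟩) hL.1 contDiffAt_id
        rw [add_left_cancel (a.uniq b (mem_of_superset ((hT.opn k).mem_nhds hy) (hT.inv k)))]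
      · rw [(h0 _ y (hT.sub k hy) hz).self_of_nhds, zero_smul, zero_smul])
  have c3 : ∀ k, ∀ y ∈ T.O k, (∀ᶠ x in 𝓝 y, χ (T.i k) x = 1) →
      Cmp (fun x => x) (T.F k) (fun x => T.A k x + ξ (T.i k) x) (F₁ (T.i k)) (A₁ (T.i k)) y := by
    intro k y hy e
    have hz : y ∈ Z (T.i k) := by
      by_contra hz
      exact zero_ne_one ((h0 _ y (hT.sub k hy) hz).self_of_nhds.symm.trans e.self_of_nhds)
    refine (cη k y ⟨hy, hz⟩).congr continuousAt_id .rfl ?_ .rfl .rfl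
    filter_upwards [e, (hT.opn k).mem_nhds hy] with x e hx
    rw [eξ k x hx, e, one_smul]
  refine ⟨ξ, gξ, fun i y hy e => ?_, c3, fun i y hy e => ?_⟩
  · obtain ⟨k, z, hz, hr⟩ := hT.cov i y hy
    refine Pulls.eq_at hP gξ.2 (Pres.GS.zero (P := P)).2 hr ?_
    rw [eξ k z hz, ← hχ _ _ _ _ hr, e, zero_smul]
    rfl
  · obtain ⟨k, z, hz, hr⟩ := hT.cov i y hy
    refine Pulls.eq_at hP ((hρ.smul _).add (gξ.d hP).gs).2 (hρ₁.smul _).2 hr ?_
    obtain ⟨δ, rfl, hL⟩ := hP.loc (hP.symm hr)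
    have e' : ∀ᶠ x in 𝓝 z, χ (T.i k) x = 1 := by
      filter_upwards [hL.2, hL.1.continuousAt.eventually e] with x a b
      exact (hχ _ _ _ _ a).trans b
    have hw := hT.sub k hz
    have d := (c3 k z hz e').d contDiffAt_id ((h1.dA (T.i k)).1.at (hP.opn _) hw)
    rw [pb_id, extDeriv_fun_add ((hT.dA k).1.diffAt (hT.opn k) hz)
      ((gξ.1 _).diffAt (hP.opn _) hw), (hT.dA k).2 z hz] at d
    exact d.trans ((h1.dA (T.i k)).2 z hw)

end Pool.Agent.Work.MP_bf98aa_gt.Cp
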