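import Pool.Agent.Work.MP_bf98aa_gt.Kg.Res

/-!
Algebra of the top degree coefficients.

PLAN. `Th/IPf`: `pf_comp`, `exists_pfM`, `pf_perm`, `contDiff_pf`, `pf_block`, `pf_area`; `LinearMap.det_conj`. `Pf_plus`: expand by multilinearity in the three slots; a product of two forms
coming from the first factor and a product of three forms coming from the second factor vanish (`Pf_comp` with a map of determinant `2` or `4` which fixes or scales the forms),
the remaining terms by `pf_perm`, `pf_block` and the expansion of `pf` over the 24 permutations of `Fin 2 × Fin 2` (or: both sides are multilinear in `b, c`, check on a basis).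
`Dt_split`: block triangular determinant, or `Dt_comp` after writing the family as the pull-back of the coordinate forms.
-/

set_option autoImplicit false

open scoped ContDiff Topology
open Set Filter MeasureTheory

namespace Pool.Agent.Work.MP_bf98aa_gt.Cp

open Pool.Agent.Work.MP_bf98aa_gt.Th

theorem ar_apply (a b : ℂ) : ar ![a, b] = a.re * b.im - b.re * a.im := by
  rw [ar, wedge_apply]
  rfl

theorem plus_apply {V V' : Type} [NormedAddCommGroup V] [NormedSpace ℝ V] [NormedAddCommGroup V']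
    [NormedSpace ℝ V'] (a : Alt V 2) (b : Alt V' 2) (u v : V × V') :
    plus a b ![u, v] = a ![u.1, v.1] + b ![u.2, v.2] := by
  rw [plus, ContinuousAlternatingMap.add_apply, IPf_comp, IPf_comp]
  rfl

theorem plus_apply_one {V V' : Type} [NormedAddCommGroup V] [NormedSpace ℝ V]
    [NormedAddCommGroup V'] [NormedSpace ℝ V'] (a : Alt V 1) (b : Alt V' 1) (u : V × V') :
    plus a b ![u] = a ![u.1] + b ![u.2] := by
  exact congrArg₂ (· + ·) (congrArg a (funext fun i => by fin_cases i; rfl))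
    (congrArg b (funext fun i => by fin_cases i; rfl))

theorem PPf_det (A : E3 →L[ℝ] E3) : ((LL : E3 →L[ℝ] Sp (Fin 3)).comp
    (A.comp (LL.symm : Sp (Fin 3) →L[ℝ] E3))).det = A.det :=
  LinearMap.det_conj (A : E3 →ₗ[ℝ] E3) LL.toLinearEquiv

theorem PPf_eq (a b c : Alt E3 2) : Pf a b c =
    (∑ σ : Equiv.Perm (Fin 3 × Fin 2), ((Equiv.Perm.sign σ : ℤ) : ℝ) *
      (a ![LL.symm (Pi.single (σ (0, 0)) 1), LL.symm (Pi.single (σ (0, 1)) 1)] *
        b ![LL.symm (Pi.single (σ (1, 0)) 1), LL.symm (Pi.single (σ (1, 1)) 1)] *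
        c ![LL.symm (Pi.single (σ (2, 0)) 1), LL.symm (Pi.single (σ (2, 1)) 1)])) / 8 := by
  simp only [Pf, pf, Fin.prod_univ_three, IPf_comp]
  rfl

theorem Pf_comp (a b c : Alt E3 2) (A : E3 →L[ℝ] E3) :
    Pf (a.compContinuousLinearMap A) (b.compContinuousLinearMap A) (c.compContinuousLinearMap A) =
      A.det * Pf a b c := by
  have e : ∀ d : Alt E3 2, (d.compContinuousLinearMap A).compContinuousLinearMap
      (LL.symm : Sp (Fin 3) →L[ℝ] E3) = (d.compContinuousLinearMap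
        (LL.symm : Sp (Fin 3) →L[ℝ] E3)).compContinuousLinearMap ((LL : E3 →L[ℝ] Sp (Fin 3)).comp
          (A.comp (LL.symm : Sp (Fin 3) →L[ℝ] E3))) := fun d => alt_ext_two fun u v => by
    simp only [IPf_comp, ContinuousLinearMap.comp_apply, ContinuousLinearEquiv.coe_coe,
      ContinuousLinearEquiv.symm_apply_apply]
  rw [Pf, Pf, ← mul_div_assoc, ← PPf_det A, ← pf_comp]
  refine congrArg (fun w => pf w / 8) (funext fun s => ?_)
  fin_cases s
  exacts [e a, e b, e c]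

theorem Pf_add (a a' b c : Alt E3 2) : Pf (a + a') b c = Pf a b c + Pf a' b c := by
  simp only [PPf_eq, ContinuousAlternatingMap.add_apply, add_mul, mul_add, Finset.sum_add_distrib,
    add_div]

theorem Pf_smul (t : ℝ) (a b c : Alt E3 2) : Pf (t • a) b c = t * Pf a b c := by
  simp only [PPf_eq, ContinuousAlternatingMap.smul_apply, smul_eq_mul]
  rw [← mul_div_assoc, Finset.mul_sum]
  exact congrArg (· / 8) (Finset.sum_congr rfl fun σ _ => by ring)

theorem Pf_zero (b c : Alt E3 2) : Pf 0 b c = 0 := by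
  simpa using Pf_smul 0 0 b c

theorem continuous_Pf : Continuous fun p : Alt E3 2 × Alt E3 2 × Alt E3 2 => Pf p.1 p.2.1 p.2.2 := by
  simp only [PPf_eq]
  refine (continuous_finsetSum _ fun σ _ => continuous_const.mul ?_).div_const _
  exact ((continuous_fst.eval_const _).mul (continuous_snd.fst.eval_const _)).mul
    (continuous_snd.snd.eval_const _)

theorem PPf_sw1 (a b c : Alt E3 2) : Pf a b c = Pf b a c := by
  rw [Pf, Pf, ← pf_perm _ (Equiv.swap 0 1)]
  exact congrArg (fun w => pf w / 8) (funext fun s => by fin_cases s <;> rfl)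

theorem PPf_sw2 (a b c : Alt E3 2) : Pf a b c = Pf c b a := by
  rw [Pf, Pf, ← pf_perm _ (Equiv.swap 0 2)]
  exact congrArg (fun w => pf w / 8) (funext fun s => by fin_cases s <;> rfl)

theorem PPf_u1 : (Finset.univ : Finset (Equiv.Perm (Fin 1 × Fin 2))).val.map
    (fun σ => ((Equiv.Perm.sign σ : ℤ), σ (0, 0), σ (0, 1))) =
    (([(1, (0, 0), (0, 1)), (-1, (0, 1), (0, 0))] :
      List (ℤ × (Fin 1 × Fin 2) × (Fin 1 × Fin 2))) : Multiset _) := by
  decide +kernel

theorem PPf_u2 : (Finset.univ : Finset (Equiv.Perm (Fin 2 × Fin 2))).val.map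
    (fun σ => ((Equiv.Perm.sign σ : ℤ), σ (0, 0), σ (0, 1), σ (1, 0), σ (1, 1))) =
    (([
      (1, (0, 0), (0, 1), (1, 0), (1, 1)), (-1, (0, 0), (0, 1), (1, 1), (1, 0)),
      (-1, (0, 0), (1, 0), (0, 1), (1, 1)), (1, (0, 0), (1, 0), (1, 1), (0, 1)),
      (1, (0, 0), (1, 1), (0, 1), (1, 0)), (-1, (0, 0), (1, 1), (1, 0), (0, 1)),
      (-1, (0, 1), (0, 0), (1, 0), (1, 1)), (1, (0, 1), (0, 0), (1, 1), (1, 0)),
      (1, (0, 1), (1, 0), (0, 0), (1, 1)), (-1, (0, 1), (1, 0), (1, 1), (0, 0)),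
      (-1, (0, 1), (1, 1), (0, 0), (1, 0)), (1, (0, 1), (1, 1), (1, 0), (0, 0)),
      (1, (1, 0), (0, 0), (0, 1), (1, 1)), (-1, (1, 0), (0, 0), (1, 1), (0, 1)),
      (-1, (1, 0), (0, 1), (0, 0), (1, 1)), (1, (1, 0), (0, 1), (1, 1), (0, 0)),
      (1, (1, 0), (1, 1), (0, 0), (0, 1)), (-1, (1, 0), (1, 1), (0, 1), (0, 0)),
      (-1, (1, 1), (0, 0), (0, 1), (1, 0)), (1, (1, 1), (0, 0), (1, 0), (0, 1)),
      (1, (1, 1), (0, 1), (0, 0), (1, 0)), (-1, (1, 1), (0, 1), (1, 0), (0, 0)),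
      (-1, (1, 1), (1, 0), (0, 0), (0, 1)), (1, (1, 1), (1, 0), (0, 1), (0, 0))] :
      List (ℤ × (Fin 2 × Fin 2) × (Fin 2 × Fin 2) × (Fin 2 × Fin 2) × (Fin 2 × Fin 2))) :
      Multiset _) := by
  decide +kernel

theorem PPf_one (w : Fin 1 → Alt (Sp (Fin 1)) 2) :
    pf w = 2 * w 0 ![Pi.single (0, 0) 1, Pi.single (0, 1) 1] := by
  have h := congrArg (fun m => (m.map fun t : ℤ × (Fin 1 × Fin 2) × (Fin 1 × Fin 2) =>
    (t.1 : ℝ) * w 0 ![Pi.single t.2.1 1, Pi.single t.2.2 1]).sum) PPf_u1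
  simp only [Multiset.map_map] at h
  simp only [pf, Fin.prod_univ_one]
  refine Eq.trans h ?_
  simp only [Multiset.map_coe, Multiset.sum_coe, List.map_cons, List.map_nil, List.sum_cons,
    List.sum_nil]
  rw [alt2_swap _ (Pi.single (0, 1) 1) (Pi.single (0, 0) 1)]
  push_cast
  ring

theorem PPf_two (w : Fin 2 → Alt (Sp (Fin 2)) 2) (g h : Fin 2 × Fin 2 → Fin 2 × Fin 2 → ℝ)
    (hg : ∀ p q, w 0 ![Pi.single p 1, Pi.single q 1] = g p q)
    (hh : ∀ p q, w 1 ![Pi.single p 1, Pi.single q 1] = h p q) :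
    pf w = 4 * (g (0, 0) (0, 1) * h (1, 0) (1, 1) - g (0, 0) (1, 0) * h (0, 1) (1, 1) +
      g (0, 0) (1, 1) * h (0, 1) (1, 0) + (h (0, 0) (0, 1) * g (1, 0) (1, 1) -
      h (0, 0) (1, 0) * g (0, 1) (1, 1) + h (0, 0) (1, 1) * g (0, 1) (1, 0))) := by
  have k := congrArg (fun m => (m.map fun t : ℤ × (Fin 2 × Fin 2) × (Fin 2 × Fin 2) ×
    (Fin 2 × Fin 2) × (Fin 2 × Fin 2) =>
      (t.1 : ℝ) * (g t.2.1 t.2.2.1 * h t.2.2.2.1 t.2.2.2.2)).sum) PPf_u2
  have sg : ∀ p q, g p q = -g q p := fun p q => by rw [← hg, ← hg, alt2_swap]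
  have sh : ∀ p q, h p q = -h q p := fun p q => by rw [← hh, ← hh, alt2_swap]
  simp only [Multiset.map_map] at k
  simp only [pf, Fin.prod_univ_two, hg, hh]
  refine Eq.trans k ?_
  simp only [Multiset.map_coe, Multiset.sum_coe, List.map_cons, List.map_nil, List.sum_cons,
    List.sum_nil]
  rw [sg (0, 1) (0, 0), sg (1, 0) (0, 0), sg (1, 1) (0, 0), sg (1, 0) (0, 1), sg (1, 1) (0, 1),
    sg (1, 1) (1, 0), sh (0, 1) (0, 0), sh (1, 0) (0, 0), sh (1, 1) (0, 0), sh (1, 0) (0, 1),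
    sh (1, 1) (0, 1), sh (1, 1) (1, 0)]
  push_cast
  ring

/-- The first slot and the two other slots. -/
def PPf_e : Fin 1 ⊕ Fin 2 ≃ Fin 3 where
  toFun := Sum.elim (fun _ => 0) Fin.succ
  invFun := ![Sum.inl 0, Sum.inr 0, Sum.inr 1]
  left_inv := by decide
  right_inv := by decide

theorem PPf_blk (a b c : Alt E3 2) (h : (∀ u v, a ![(0, u), v] = 0) ∨
    (∀ u v, b ![(u, 0), v] = 0) ∧ ∀ u v, c ![(u, 0), v] = 0) :
    Pf a b c = a ![(1, 0), (Complex.I, 0)] *
      pf2 (b.compContinuousLinearMap (ContinuousLinearMap.inr ℝ ℂ F2))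
        (c.compContinuousLinearMap (ContinuousLinearMap.inr ℝ ℂ F2)) := by
  rw [Pf, IPf_block PPf_e _ (h.imp (fun h j u v => ?_) fun h l u v => ?_), PPf_one,
    PPf_two _ _ _ (fun _ _ => rfl) fun _ _ => rfl]
  · have r : ∀ x y : ℝ, 2 * x * (4 * y) / 8 = x * y := fun x y => by ring
    simp only [pf2, IPf_comp, r]
    rfl
  · rw [IPf_comp]
    exact h _ _
  · rw [IPf_comp]
    fin_cases l
    exacts [h.1 _ _, h.2 _ _]

theorem PPf_inr (r : Alt ℂ 2) (d : Alt F2 2) :
    (plus r d).compContinuousLinearMap (ContinuousLinearMap.inr ℝ ℂ F2) = d :=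
  alt_ext_two fun u v => by
    rw [IPf_comp, plus_apply]
    exact (congrArg (· + _) (IPf_zero r (Or.inl rfl))).trans (zero_add _)

theorem PPf_kill (d : Alt F2 2) (u : ℂ) (v : E3) : plus 0 d ![(u, 0), v] = 0 := by
  rw [plus_apply]
  exact (zero_add _).trans (IPf_zero d (Or.inl rfl))

theorem PPf_split (x : ℝ) (a : Alt F2 2) (β γ : Alt E3 2) : Pf (plus (x • ar) a) β γ =
    x * pf2 (β.compContinuousLinearMap (ContinuousLinearMap.inr ℝ ℂ F2))
      (γ.compContinuousLinearMap (ContinuousLinearMap.inr ℝ ℂ F2)) + Pf (plus 0 a) β γ := by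
  have e : plus (x • ar) a = x • plus ar (0 : Alt F2 2) + plus 0 a := alt_ext_two fun u v => by
    simp [plus_apply]
  rw [e, Pf_add, Pf_smul, PPf_blk _ _ _ (Or.inl fun u v => by simp [plus_apply, ar_apply])]
  simp [plus_apply, ar_apply]

theorem Pf_plus (x y z : ℝ) (a b c : Alt F2 2) :
    Pf (plus (x • ar) a) (plus (y • ar) b) (plus (z • ar) c) =
      x * pf2 b c + y * pf2 a c + z * pf2 a b := by
  rw [PPf_split, PPf_sw1, PPf_split, PPf_sw2, PPf_split,
    PPf_blk _ _ _ (Or.inr ⟨fun u v => PPf_kill _ u v, fun u v => PPf_kill _ u v⟩), PPf_kill]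
  simp only [PPf_inr]
  ring

theorem pf2_comp (a b : Alt F2 2) (A : F2 →L[ℝ] F2) :
    pf2 (a.compContinuousLinearMap A) (b.compContinuousLinearMap A) = A.det * pf2 a b := by
  have e : ∀ (r : Alt ℂ 2) (d : Alt F2 2), (plus r d).compContinuousLinearMap
      ((ContinuousLinearMap.id ℝ ℂ).prodMap A) = plus r (d.compContinuousLinearMap A) :=
    fun r d => alt_ext_two fun u v => by
      rw [IPf_comp, plus_apply, plus_apply, IPf_comp]
      rfl
  have d : ((ContinuousLinearMap.id ℝ ℂ).prodMap A).det = A.det :=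
    (LinearMap.det_prodMap (LinearMap.id : ℂ →ₗ[ℝ] ℂ) (A : F2 →ₗ[ℝ] F2)).trans
      (by rw [LinearMap.det_id, one_mul])
  have k := Pf_comp (plus ((1 : ℝ) • ar) a) (plus ((0 : ℝ) • ar) a) (plus ((0 : ℝ) • ar) b)
    ((ContinuousLinearMap.id ℝ ℂ).prodMap A)
  rw [e, e, e, Pf_plus, Pf_plus, d] at k
  simpa using k

theorem pf2_plus (x y x' y' : ℝ) :
    pf2 (plus (x • ar) (y • ar)) (plus (x' • ar) (y' • ar)) = x * y' + x' * y := by
  simp [pf2, plus_apply, ar_apply]

theorem pf2_zero (b : Alt F2 2) : pf2 0 b = 0 := by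
  simp [pf2]

theorem PPf_Dt (l : Fin 3 × Fin 2 → E3 →L[ℝ] ℝ) : Dt (fun s => alt1 (l s)) =
    ((ContinuousLinearMap.pi l).comp (LL.symm : Sp (Fin 3) →L[ℝ] E3)).det := by
  rw [Dt, ContinuousLinearMap.det, ← LinearMap.det_toMatrix']
  refine congrArg Matrix.det (Matrix.ext fun i j => ?_)
  rw [LinearMap.toMatrix'_apply]
  rfl

theorem Dt_comp (a : Fin 3 × Fin 2 → Alt E3 1) (A : E3 →L[ℝ] E3) :
    Dt (fun s => (a s).compContinuousLinearMap A) = A.det * Dt a := by
  choose l hl using fun s => exists_lin (a s)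
  obtain rfl : a = fun s => alt1 (l s) := funext hl
  rw [PPf_Dt, ← PPf_det A, mul_comm]
  refine (PPf_Dt fun s => (l s).comp A).trans (Eq.trans ?_ (LinearMap.det_comp _ _))
  refine congrArg LinearMap.det (LinearMap.ext fun u => funext fun s => ?_)
  simp

theorem continuous_Dt : Continuous Dt := by
  exact (continuous_matrix fun i j => (continuous_apply i).eval_const _).matrix_det

theorem Dt_split (a : Fin 3 × Fin 2 → Alt E3 1) (β : Fin 2 → Alt ℂ 1)
    (h0 : ∀ j v, a (0, j) ![v] = β j ![v.1]) (h1 : ∀ v, a (1, 0) ![v] = v.2.1.re)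
    (h2 : ∀ v, a (1, 1) ![v] = v.2.1.im) (h3 : ∀ v, a (2, 0) ![v] = v.2.2.re)
    (h4 : ∀ v, a (2, 1) ![v] = v.2.2.im) :
    Dt a = β 0 ![1] * β 1 ![Complex.I] - β 0 ![Complex.I] * β 1 ![1] := by
  have z : ∀ j, β j ![0] = 0 := fun j => (β j).map_coord_zero 0 rfl
  have e : (Matrix.of fun i j => a i ![LL.symm (Pi.single j 1)]) = (Matrix.blockDiagonal
      ![!![β 0 ![1], β 0 ![Complex.I]; β 1 ![1], β 1 ![Complex.I]], 1, 1]).submatrix
        (Equiv.prodComm _ _) (Equiv.prodComm _ _) := by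
    ext ⟨s, i⟩ ⟨t, j⟩
    fin_cases s <;> fin_cases i
    · refine (h0 _ _).trans ?_
      fin_cases t <;> fin_cases j
      exacts [rfl, rfl, z _, z _, z _, z _]
    · refine (h0 _ _).trans ?_
      fin_cases t <;> fin_cases j
      exacts [rfl, rfl, z _, z _, z _, z _]
    · refine (h1 _).trans ?_
      fin_cases t <;> fin_cases j <;> rfl
    · refine (h2 _).trans ?_
      fin_cases t <;> fin_cases j <;> rfl
    · refine (h3 _).trans ?_
      fin_cases t <;> fin_cases j <;> rfl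
    · refine (h4 _).trans ?_
      fin_cases t <;> fin_cases j <;> rfl
  rw [Dt, e, Matrix.det_submatrix_equiv_self, Matrix.det_blockDiagonal, Fin.prod_univ_three]
  simp [Matrix.det_fin_two]

variable {P : Pres E3}

theorem ori_of_pos (hP : P.Good) {w : P.ι → Fm E3 2} (hw : Pulls P.r w w)
    (hpos : ∀ i, ∀ y ∈ P.W i, 0 < Pf (w i y) (w i y) (w i y)) : P.Ori := by
  intro i j y γ h
  have k := hpos i y (hP.mem h.self)
  rw [hw i j y γ h, pb, Pf_comp] at k
  exact (mul_pos_iff_of_pos_right (hpos j _ (hP.mem' h.self))).1 k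

theorem dn_Pf (hO : P.Ori) {a b c : P.ι → Fm E3 2} (ha : P.GS a) (hb : P.GS b) (hc : P.GS c) :
    P.Dn fun i y => Pf (a i y) (b i y) (c i y) := by
  refine ⟨fun i => ?_, fun i j y γ h => ?_⟩
  · have k := continuous_Pf.comp_continuousOn ((ha.1 i).continuousOn.prodMk
      ((hb.1 i).continuousOn.prodMk (hc.1 i).continuousOn))
    simpa only [Function.comp_def] using k
  beta_reduce
  rw [ha.2 i j y γ h, hb.2 i j y γ h, hc.2 i j y γ h, abs_of_pos (hO i j y γ h)]
  exact Pf_comp _ _ _ _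

theorem dn_Dt (hO : P.Ori) {a : Fin 3 × Fin 2 → P.ι → Fm E3 1} (ha : ∀ s, P.GS (a s)) :
    P.Dn fun i y => Dt fun s => a s i y := by
  refine ⟨fun i => ?_, fun i j y γ h => ?_⟩
  · have k := continuous_Dt.comp_continuousOn (f := fun y s => a s i y)
      (continuousOn_pi.2 fun s => ((ha s).1 i).continuousOn)
    simpa only [Function.comp_def] using k
  beta_reduce
  rw [abs_of_pos (hO i j y γ h), ← Dt_comp]
  exact congrArg Dt (funext fun s => (ha s).2 i j y γ h)

theorem Pf_pos_at (hP : P.Good) {w w' : P.ι → Fm E3 2} (hw : Pulls P.r w w) (hw' : Pulls P.r w' w')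
    {i j : P.ι} {y z : E3} (hr : P.r i y j z) (h1 : 0 < Pf (w i y) (w i y) (w i y))
    (h2 : 0 < Pf (w j z) (w j z) (w j z)) (h3 : 0 < Pf (w' j z) (w' j z) (w' j z)) :
    0 < Pf (w' i y) (w' i y) (w' i y) := by
  obtain ⟨γ, rfl, h⟩ := hP.loc hr
  rw [hw i j y γ h, pb, Pf_comp] at h1
  rw [hw' i j y γ h, pb, Pf_comp]
  exact mul_pos ((mul_pos_iff_of_pos_right h2).1 h1) h3

end Pool.Agent.Work.MP_bf98aa_gt.Cp
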