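import Pool.Agent.Work.MP_bf98aa_gt.Cp.CCmp
import Pool.Agent.Work.MP_bf98aa_gt.Cp.PPf

/-!
Products of presentations.

PLAN. Lifts of the product relation are products of lifts (`Pulls.of_exists`, `cmp_of_exists`, `Cmp.prod`). `plus (a y.1) (b y.2) = pb fst a y + pb snd b y`, so `Sm.pb`, `extDeriv_pb` apply.
`Jof (F.prodMap H) = (Jof F).prodMap (Jof H)` by `Jof_eq`.
-/

set_option autoImplicit false
set_option linter.unusedSectionVars false

open scoped ContDiff Topology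
open Set Filter MeasureTheory

namespace Pool.Agent.Work.MP_bf98aa_gt.Cp

open Pool.Agent.Work.MP_bf98aa_gt.Th

section
variable {V V' : Type} [NormedAddCommGroup V] [NormedSpace ℝ V] [FiniteDimensional ℝ V]
  [NormedAddCommGroup V'] [NormedSpace ℝ V'] [FiniteDimensional ℝ V'] {k : ℕ}
  {P : Pres V} {Q : Pres V'}

theorem Lift.prod {i j : P.ι} {i' j' : Q.ι} {y : V} {z : V'} {γ : V → V} {ε : V' → V'}
    (h : Lift (sl P.r i j) y γ) (h' : Lift (sl Q.r i' j') z ε) :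
    Lift (sl (P.prod Q).r (i, i') (j, j')) (y, z) fun x => (γ x.1, ε x.2) :=
  ⟨(h.1.comp (y, z) contDiffAt_fst).prodMk (h'.1.comp (y, z) contDiffAt_snd),
    ((continuous_fst.tendsto (y, z)).eventually h.2).and
      ((continuous_snd.tendsto (y, z)).eventually h'.2)⟩

theorem Pres.Good.prod (hP : P.Good) (hQ : Q.Good) : (P.prod Q).Good := by
  have := hP.fin
  have := hQ.fin
  have t1 : ∀ y z : V × V', Tendsto (fun p : (V × V') × V × V' => (p.1.1, p.2.1)) (𝓝 (y, z))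
      (𝓝 (y.1, z.1)) := fun y z => Continuous.tendsto (by fun_prop) (y, z)
  have t2 : ∀ y z : V × V', Tendsto (fun p : (V × V') × V × V' => (p.1.2, p.2.2)) (𝓝 (y, z))
      (𝓝 (y.2, z.2)) := fun y z => Continuous.tendsto (by fun_prop) (y, z)
  refine ⟨inferInstanceAs (Finite (P.ι × Q.ι)), fun i => (hP.opn i.1).prod (hQ.opn i.2),
    fun h => ⟨hP.mem h.1, hQ.mem h.2⟩, fun h => ⟨hP.refl h.1, hQ.refl h.2⟩,
    fun h => ⟨hP.symm h.1, hQ.symm h.2⟩, fun h h' => ⟨hP.trans h.1 h'.1, hQ.trans h.2 h'.2⟩,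
    fun h => ?_, fun {i y} h => ?_, fun {i y j z} h h' n => ?_⟩
  · obtain ⟨γ, e, l⟩ := hP.loc h.1
    obtain ⟨ε, e', l'⟩ := hQ.loc h.2
    exact ⟨_, Prod.ext e e', l.prod l'⟩
  · filter_upwards [(t1 y y).eventually (hP.inj h.1), (t2 y y).eventually (hQ.inj h.2)] with p a b c
    exact Prod.ext (a c.1) (b c.2)
  · rcases not_and_or.1 n with n | n
    · exact ((t1 y z).eventually (hP.clo h.1 h'.1 n)).mono fun p a c => a c.1
    · exact ((t2 y z).eventually (hQ.clo h.2 h'.2 n)).mono fun p a c => a c.2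

theorem Pres.CptBy.prod {K : P.ι → Set V} {K' : Q.ι → Set V'} (h : P.CptBy K) (h' : Q.CptBy K') :
    (P.prod Q).CptBy fun i => K i.1 ×ˢ K' i.2 := by
  refine ⟨fun i => ⟨(h.1 i.1).1.prod (h'.1 i.2).1, prod_mono (h.1 i.1).2 (h'.1 i.2).2⟩,
    fun i y hy => ?_⟩
  obtain ⟨j, z, hz, r⟩ := h.2 i.1 y.1 hy.1
  obtain ⟨j', z', hz', r'⟩ := h'.2 i.2 y.2 hy.2
  exact ⟨(j, j'), (z, z'), ⟨hz, hz'⟩, r, r'⟩

theorem plus_eq_pb (a : Fm V k) (b : Fm V' k) (y : V × V') :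
    plus (a y.1) (b y.2) = pb Prod.fst a y + pb Prod.snd b y := by
  rw [pb, pb, fderiv_fst, fderiv_snd]
  rfl

theorem pb_plus {γ : V → V} {ε : V' → V'} {y : V × V'} (hγ : DifferentiableAt ℝ γ y.1)
    (hε : DifferentiableAt ℝ ε y.2) (a : Fm V k) (b : Fm V' k) :
    pb (fun x : V × V' => (γ x.1, ε x.2)) (fun x => plus (a x.1) (b x.2)) y =
      plus (pb γ a y.1) (pb ε b y.2) := by
  have e : fderiv ℝ (fun x : V × V' => (γ x.1, ε x.2)) y =
      (fderiv ℝ γ y.1).prodMap (fderiv ℝ ε y.2) :=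
    (hγ.hasFDerivAt.prodMap y hε.hasFDerivAt).fderiv
  rw [pb, e]
  rfl

theorem PProd_diff (A : V →L[ℝ] V') {a : Fm V' k} {y : V} (ha : DifferentiableAt ℝ a (A y)) :
    DifferentiableAt ℝ (pb A a) y := by
  have e : pb A a = fun x => ContinuousAlternatingMap.compContinuousLinearMapCLM A (a (A x)) :=
    funext fun x => by
      rw [pb, A.fderiv]
      rfl
  rw [e]
  exact (ContinuousLinearMap.differentiableAt _).comp y (ha.comp y A.differentiableAt)

theorem extDeriv_plus {a : Fm V k} {b : Fm V' k} {y : V × V'} (ha : DifferentiableAt ℝ a y.1)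
    (hb : DifferentiableAt ℝ b y.2) : extDeriv (fun x : V × V' => plus (a x.1) (b x.2)) y =
      plus (extDeriv a y.1) (extDeriv b y.2) := by
  have e : (fun x : V × V' => plus (a x.1) (b x.2)) = pb Prod.fst a + pb Prod.snd b :=
    funext (plus_eq_pb a b)
  rw [e, plus_eq_pb]
  exact (extDeriv_add (PProd_diff (ContinuousLinearMap.fst ℝ V V') ha)
    (PProd_diff (ContinuousLinearMap.snd ℝ V V') hb)).trans
    (congrArg₂ (· + ·) (extDeriv_pb ha contDiffAt_fst) (extDeriv_pb hb contDiffAt_snd))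

theorem plus_add (a a' : Alt V k) (b b' : Alt V' k) :
    plus (a + a') (b + b') = plus a b + plus a' b' :=
  ContinuousAlternatingMap.ext fun v => by
    simp only [plus, ContinuousAlternatingMap.add_apply,
      ContinuousAlternatingMap.compContinuousLinearMap_apply]
    ring

theorem plus_smul (c : ℝ) (a : Alt V k) (b : Alt V' k) : plus (c • a) (c • b) = c • plus a b :=
  ContinuousAlternatingMap.ext fun v => by
    simp only [plus, ContinuousAlternatingMap.add_apply, ContinuousAlternatingMap.smul_apply,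
      ContinuousAlternatingMap.compContinuousLinearMap_apply, smul_add]

theorem plus_zero : plus (0 : Alt V k) (0 : Alt V' k) = 0 :=
  ContinuousAlternatingMap.ext fun v => by simp [plus]

theorem PProd_sm {a : Fm V k} {b : Fm V' k} {U : Set V} {W : Set V'} (hU : IsOpen U) (hW : IsOpen W)
    (ha : Sm a U) (hb : Sm b W) : Sm (fun x : V × V' => plus (a x.1) (b x.2)) (U ×ˢ W) := by
  rw [funext (plus_eq_pb a b)]
  exact ContDiffOn.add (ha.pb (hU.prod hW) hU contDiffOn_fst fun _ h => h.1)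
    (hb.pb (hU.prod hW) hW contDiffOn_snd fun _ h => h.2)

theorem Pres.GS.plus (hP : P.Good) (hQ : Q.Good) {a : P.ι → Fm V k} {b : Q.ι → Fm V' k}
    (ha : P.GS a) (hb : Q.GS b) :
    (P.prod Q).GS fun i y => plus (a i.1 y.1) (b i.2 y.2) := by
  refine ⟨fun i => PProd_sm (hP.opn i.1) (hQ.opn i.2) (ha.1 i.1) (hb.1 i.2),
    Pulls.of_exists (hP.prod hQ).smap (hP.prod hQ) fun i y j z h => ?_⟩
  obtain ⟨γ, e, l⟩ := hP.loc h.1
  obtain ⟨ε, e', l'⟩ := hQ.loc h.2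
  refine ⟨_, Prod.ext e e', l.prod l', ?_⟩
  rw [pb_plus l.diff.self_of_nhds l'.diff.self_of_nhds, ← ha.2 _ _ _ _ l, ← hb.2 _ _ _ _ l']

theorem Pres.GC.plus (hP : P.Good) (hQ : Q.Good) {a : P.ι → Fm V k} {b : Q.ι → Fm V' k}
    (ha : P.GC a) (hb : Q.GC b) :
    (P.prod Q).GC fun i y => plus (a i.1 y.1) (b i.2 y.2) := by
  have h := ha.gs.plus hP hQ hb.gs
  refine ⟨fun i => ⟨h.1 i, fun y hy => ?_⟩, h.2⟩
  rw [extDeriv_plus ((ha.1 i.1).1.diffAt (hP.opn _) hy.1) ((hb.1 i.2).1.diffAt (hQ.opn _) hy.2),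
    (ha.1 i.1).2 _ hy.1, (hb.1 i.2).2 _ hy.2, plus_zero]

theorem Pres.GC.zero : P.GC fun _ => (0 : Fm V k) :=
  ⟨fun i => ⟨Pres.GS.zero.1 i, fun x _ => extDeriv_const 0 x⟩, Pres.GS.zero.2⟩

end

variable {V V' : Type} [NormedAddCommGroup V] [NormedSpace ℝ V] [NormedSpace ℂ V]
  [IsScalarTower ℝ ℂ V] [FiniteDimensional ℝ V] [FiniteDimensional ℂ V] [NormedAddCommGroup V']
  [NormedSpace ℝ V'] [NormedSpace ℂ V'] [IsScalarTower ℝ ℂ V'] [FiniteDimensional ℝ V']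
  [FiniteDimensional ℂ V'] {P : Pres V} {Q : Pres V'}

theorem Jof_prodMap {F : V →L[ℝ] V} {H : V' →L[ℝ] V'} (hF : F.IsInvertible) (hH : H.IsInvertible) :
    (F.prodMap H).IsInvertible ∧ ∀ v, Jof (F.prodMap H) v = (Jof F v.1, Jof H v.2) := by
  have h : (F.prodMap H).IsInvertible := by
    obtain ⟨e, rfl⟩ := hF
    obtain ⟨e', rfl⟩ := hH
    exact ⟨e.prodCongr e', rfl⟩
  refine ⟨h, fun v => ?_⟩
  rw [Jof_eq (J := (Jof F).prodMap (Jof H)) h fun v => Prod.ext (Jof_spec hF v.1) (Jof_spec hH v.2)]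
  rfl

theorem Jof_id (v : V) : Jof (ContinuousLinearMap.id ℝ V) v = Complex.I • v := by
  rw [Jof_eq (F := ContinuousLinearMap.id ℝ V) (J := mulI V) ⟨ContinuousLinearEquiv.refl ℝ V, rfl⟩
    fun v => mulI_apply v, mulI_apply]

theorem ok_prod (hP : P.Good) (hQ : Q.Good) {F : P.ι → V → V →L[ℝ] V} {A : P.ι → Fm V 1}
    {w ρ : P.ι → Fm V 2} (h : (Fam.whole P F A).Ok w ρ) {H : Q.ι → V' → V' →L[ℝ] V'}
    {C : Q.ι → Fm V' 1} {w' ρ' : Q.ι → Fm V' 2} (h' : (Fam.whole Q H C).Ok w' ρ') :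
    (Fam.whole (P.prod Q) (fun i y => (F i.1 y.1).prodMap (H i.2 y.2))
      fun i y => plus (A i.1 y.1) (C i.2 y.2)).Ok (fun i y => plus (w i.1 y.1) (w' i.2 y.2))
      fun i y => plus (ρ i.1 y.1) (ρ' i.2 y.2) := by
  have g := hP.prod hQ
  refine ⟨g.opn, fun _ => subset_rfl, fun j z hz => ⟨j, z, hz, g.refl hz⟩, fun i => ?_,
    fun i y hy => (Jof_prodMap (h.inv i.1 _ hy.1) (h'.inv i.2 _ hy.2)).1,
    fun i => ⟨PProd_sm (hP.opn i.1) (hQ.opn i.2) (h.dA i.1).1 (h'.dA i.2).1, fun y hy => ?_⟩,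
    fun i y hy v hv => ?_, fun i j y hy γ hγ l => ?_⟩
  · have e : (fun y : V × V' => (F i.1 y.1).prodMap (H i.2 y.2)) = fun y =>
        ContinuousLinearMap.prodMapL ℝ V V V' V' (F i.1 y.1, H i.2 y.2) := rfl
    change ContDiffOn ℝ ∞ (fun y : V × V' => (F i.1 y.1).prodMap (H i.2 y.2)) (P.W i.1 ×ˢ Q.W i.2)
    rw [e]
    exact (ContinuousLinearMap.prodMapL ℝ V V V' V').contDiff.comp_contDiffOn
      (((h.smF i.1).comp contDiffOn_fst fun _ k => k.1).prodMk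
        ((h'.smF i.2).comp contDiffOn_snd fun _ k => k.2))
  · refine (extDeriv_plus ((h.dA i.1).1.diffAt (hP.opn _) hy.1)
      ((h'.dA i.2).1.diffAt (hQ.opn _) hy.2)).trans ?_
    exact (congrArg₂ plus ((h.dA i.1).2 _ hy.1) ((h'.dA i.2).2 _ hy.2)).trans (plus_smul _ _ _)
  · obtain ⟨i, j⟩ := i
    have h0 : Jof ((F i y.1).prodMap (H j y.2)) v = (Jof (F i y.1) v.1, Jof (H j y.2) v.2) :=
      (Jof_prodMap (h.inv i _ hy.1) (h'.inv j _ hy.2)).2 v
    have h1 := h.tame i _ hy.1 v.1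
    have h2 := h'.tame j _ hy.2 v.2
    change 0 < plus (w i y.1) (w' j y.2) ![v, Jof ((F i y.1).prodMap (H j y.2)) v]
    rw [h0, plus_apply]
    by_cases e1 : v.1 = 0
    · rw [(w i y.1).map_coord_zero (m := ![v.1, _]) 0 e1, zero_add]
      exact h2 fun e2 => hv (Prod.ext e1 e2)
    · by_cases e2 : v.2 = 0
      · rw [(w' j y.2).map_coord_zero (m := ![v.2, _]) 0 e2, add_zero]
        exact h1 e1
      · exact add_pos (h1 e1) (h2 e2)
  · obtain ⟨δ, e, k⟩ := hP.loc l.self.1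
    obtain ⟨ε, e', k'⟩ := hQ.loc l.self.2
    exact cmp_of_exists g (k.prod k') l (Prod.ext e e')
      ((h.cmp i.1 j.1 _ hy.1 δ (e ▸ hγ.1) k).prod (h'.cmp i.2 j.2 _ hy.2 ε (e' ▸ hγ.2) k') k.1 k'.1)

end Pool.Agent.Work.MP_bf98aa_gt.Cp
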