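import Pool.Agent.Work.MP_bf98aa_gt.Cp.PForm
import Pool.Agent.Work.MP_bf98aa_gt.Cp.PInt2

/-!
Surgery along a tube.

PLAN. `isOpen_outer`: `Tube.cpt` and `SMap.closed_im` (finitely many charts). `good`: case by case; `clo` for a point `n` of `N` and `y` of `A`: take a lift `γ` at `n`; `γ n` is not related to `y`
(if it were, `R n ≠ 0` gives the relation, `R n = 0` contradicts `y ∈ outer 0`), use `Good.clo` of `A`. `cpt`: the compact sets of `A` minus the open tube of radius `1` (`Tube.opn`), and those of `Tube.cpt 1`.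
`conn`: given `Z`, the points of `N` are all in `Z` or all outside; in the first case apply `A.Conn` to `Z ∪ tube`, in the second to `Z minus tube`.
`exists_form`: `descent` for the cover by the sets `outer c i` and `N.W k`, `pb_symm`.
-/

set_option autoImplicit false

open scoped ContDiff Topology
open Set Filter MeasureTheory

namespace Pool.Agent.Work.MP_bf98aa_gt.Cp

open Pool.Agent.Work.MP_bf98aa_gt.Th

variable {V : Type} [NormedAddCommGroup V] [NormedSpace ℝ V] [FiniteDimensional ℝ V] {k : ℕ}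
  {A N : Pres V} {Ψ : N.ι → V → A.ι → V → Prop} {R : N.ι → V → ℝ}

theorem Tube.isOpen_outer (h : Tube A N Ψ R) (hA : A.Good) (hN : N.Good) {c : ℝ} (hc : c < 4)
    (i : A.ι) : IsOpen (outer A N Ψ R c i) := by
  obtain ⟨K, hK, hc'⟩ := h.cpt c hc
  have := hN.fin
  refine isOpen_iff_mem_nhds.2 fun y hy => ?_
  have e : ∀ᶠ x in 𝓝 y, ∀ l, ∀ n ∈ K l, ¬ Ψ l n i x := eventually_all.2 fun l =>
    h.map.closed_im hA (hK l).1 (hK l).2.1 hy.1 fun n hn q =>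
      (hy.2 l n q).not_ge ((hK l).2.2 n hn)
  filter_upwards [e, (hA.opn i).mem_nhds hy.1] with x hx hw
  refine ⟨hw, fun l n q => lt_of_not_ge fun r => ?_⟩
  obtain ⟨l', n', a, b⟩ := hc' l n (h.map.mem q).1 r
  exact hx l' n' a (h.map.left (hN.symm b) q)

theorem outer_mono {c c' : ℝ} (hc : c ≤ c') (i : A.ι) : outer A N Ψ R c' i ⊆ outer A N Ψ R c i := by
  exact fun y hy => ⟨hy.1, fun l n q => hc.trans_lt (hy.2 l n q)⟩

theorem Tube.outer_inv (h : Tube A N Ψ R) (hA : A.Good) {c : ℝ} {i j : A.ι} {y z : V}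
    (hy : y ∈ outer A N Ψ R c i) (hr : A.r i y j z) : z ∈ outer A N Ψ R c j := by
  exact ⟨hA.mem' hr, fun l n q => hy.2 l n (h.map.right q (hA.symm hr))⟩

theorem Tube.PSurg_out (h : Tube A N Ψ R) {l : N.ι} {i : A.ι} {n y : V} (q : Ψ l n i y)
    (r : R l n ≠ 0) : y ∈ outer A N Ψ R 0 i :=
  ⟨(h.map.mem q).2, fun _ _ q' => (h.rinv q q') ▸ (h.nonneg l n (h.map.mem q).1).lt_of_ne r.symm⟩

theorem Tube.PSurg_ne (h : Tube A N Ψ R) (hN : N.Good) {l : N.ι} {n : V} (hn : n ∈ N.W l)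
    (r : R l n ≠ 0) : ∀ᶠ x in 𝓝 n, R l x ≠ 0 :=
  ((h.cont l).continuousAt ((hN.opn l).mem_nhds hn)).eventually_ne r

theorem Tube.PSurg_clo (h : Tube A N Ψ R) (hA : A.Good) {l : N.ι} {j : A.ι} {n z : V}
    (hn : n ∈ N.W l) (hz : z ∈ A.W j) (q : ¬ Ψ l n j z) :
    ∀ᶠ p in 𝓝 (n, z), ¬ Ψ l p.1 j p.2 := by
  obtain ⟨i, y, r⟩ := h.map.tot hn
  obtain ⟨γ, rfl, b⟩ := h.map.loc r
  have t : Tendsto (fun p : V × V => (γ p.1, p.2)) (𝓝 (n, z)) (𝓝 (γ n, z)) :=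
    (b.1.continuousAt.tendsto.comp (continuous_fst.tendsto (n, z))).prodMk_nhds
      (continuous_snd.tendsto (n, z))
  filter_upwards [t.eventually (hA.clo (h.map.mem r).2 hz fun a => q (h.map.right r a)),
    (continuous_fst.tendsto (n, z)).eventually b.2] with p c d e
  exact c (h.map.uniq d e)

theorem Tube.good (h : Tube A N Ψ R) (hA : A.Good) (hN : N.Good) : (surg A N Ψ R).Good := by
  have := hA.fin
  have := hN.fin
  refine ⟨inferInstanceAs (Finite (A.ι ⊕ N.ι)), ?_, ?_, ?_, ?_, ?_, ?_, ?_, ?_⟩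
  · rintro (i | l)
    exacts [h.isOpen_outer hA hN (by norm_num) i, hN.opn l]
  · rintro (i | l) y (j | l') z q
    exacts [q.1, h.PSurg_out q.1 q.2, (h.map.mem q.1).1, hN.mem q]
  · rintro (i | l) y q
    exacts [⟨q, hA.refl q.1⟩, hN.refl q]
  · rintro (i | l) y (j | l') z q
    exacts [⟨h.outer_inv hA q.1 q.2, hA.symm q.2⟩, q, q, hN.symm q]
  · rintro (i | l) y (j | l') z (m | l'') x q q'
    · exact ⟨q.1, hA.trans q.2 q'.2⟩
    · exact ⟨h.map.right q'.1 (hA.symm q.2), q'.2⟩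
    · exact ⟨h.PSurg_out q.1 q.2, h.map.uniq q.1 q'.1⟩
    · have a := h.map.left (hN.symm q') q.1
      exact ⟨a, (h.rinv a q.1).trans_ne q.2⟩
    · exact ⟨h.map.right q.1 q'.2, q.2⟩
    · exact h.inj q.1 q'.1 q.2
    · have a := h.map.left q q'.1
      exact ⟨a, (h.rinv a q'.1).trans_ne q'.2⟩
    · exact hN.trans q q'
  · rintro (i | l) y (j | l') z q
    · obtain ⟨γ, a, b⟩ := hA.loc q.2
      refine ⟨γ, a, b.1, ?_⟩
      filter_upwards [b.2, (h.isOpen_outer hA hN (by norm_num) i).mem_nhds q.1] with x c d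
      exact ⟨d, c⟩
    · obtain ⟨γ, rfl, b⟩ := h.back q.1 q.2
      refine ⟨γ, rfl, b.1, ?_⟩
      filter_upwards [b.2, b.1.continuousAt.eventually
        (h.PSurg_ne hN (h.map.mem q.1).1 q.2)] with x c d
      exact ⟨c, d⟩
    · obtain ⟨γ, a, b⟩ := h.map.loc q.1
      refine ⟨γ, a, b.1, ?_⟩
      filter_upwards [b.2, h.PSurg_ne hN (h.map.mem q.1).1 q.2] with x c d
      exact ⟨c, d⟩
    · exact hN.loc q
  · rintro (i | l) y q
    exacts [(hA.inj q.1).mono fun p a b => a b.2, hN.inj q]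
  · rintro (i | l) y (j | l') z a b q
    · exact (hA.clo a.1 b.1 fun r => q ⟨a, r⟩).mono fun p c d => c d.2
    · exact ((continuous_swap.tendsto (y, z)).eventually
        (h.PSurg_clo hA b a.1 fun r => q ⟨r, (a.2 _ _ r).ne'⟩)).mono fun p c d => c d.1
    · exact (h.PSurg_clo hA a b.1 fun r => q ⟨r, (b.2 _ _ r).ne'⟩).mono fun p c d => c d.1
    · exact hN.clo a b q

theorem Tube.PSurg_open (h : Tube A N Ψ R) (c : ℝ) (i : A.ι) :
    IsOpen {y | ∃ l n, Ψ l n i y ∧ R l n < c} :=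
  isOpen_iff_mem_nhds.2 fun _ ⟨_, _, a, b⟩ => h.opn a b

theorem Tube.cpt' (h : Tube A N Ψ R) (hA : A.Good) (hN : N.Good) (hK : A.Cpt) :
    (surg A N Ψ R).Cpt := by
  obtain ⟨K, hK, cK⟩ := hK
  obtain ⟨K', hK', cK'⟩ := h.cpt 1 (by norm_num)
  refine ⟨Sum.elim (fun i => K i \ {y | ∃ l n, Ψ l n i y ∧ R l n < 1}) K', ?_, ?_⟩
  · rintro (i | l)
    · exact ⟨(hK i).1.diff (h.PSurg_open 1 i), fun y hy => ⟨(hK i).2 hy.1, fun l n q =>
        one_pos.trans_le (le_of_not_gt fun r => hy.2 ⟨l, n, q, r⟩)⟩⟩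
    · exact ⟨(hK' l).1, (hK' l).2.1⟩
  · rintro (i | l) y hy
    · obtain ⟨j, z, hz, r⟩ := cK i y hy.1
      by_cases q : ∃ l n, Ψ l n j z ∧ R l n < 1
      · obtain ⟨l, n, a, b⟩ := q
        obtain ⟨l', n', c, d⟩ := cK' l n (h.map.mem a).1 b.le
        have e := h.map.right (h.map.left (hN.symm d) a) (hA.symm r)
        exact ⟨.inr l', n', c, e, (hy.2 _ _ e).ne'⟩
      · exact ⟨.inl j, z, ⟨hz, q⟩, hy, r⟩
    · rcases le_or_gt (R l y) 1 with q | q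
      · obtain ⟨l', n', c, d⟩ := cK' l y hy q
        exact ⟨.inr l', n', c, d⟩
      · obtain ⟨i, x, a⟩ := h.map.tot hy
        obtain ⟨j, z, hz, r⟩ := cK i x (h.map.mem a).2
        have e := h.map.right a r
        exact ⟨.inl j, z, ⟨hz, fun ⟨_, _, b, c⟩ => (h.rinv b e ▸ c).not_gt q⟩, e,
          (one_pos.trans q).ne'⟩

theorem Tube.PSurg_all (h : Tube A N Ψ R) (hA : A.Good) (hC : A.Conn) {l₀ : N.ι} {n₀ : V}
    (h₀ : n₀ ∈ N.W l₀) {Z : (surg A N Ψ R).ι → Set V}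
    (o : ∀ a, IsOpen ((surg A N Ψ R).W a ∩ Z a)) (o' : ∀ a, IsOpen ((surg A N Ψ R).W a \ Z a))
    (v : ∀ a y b z, (surg A N Ψ R).r a y b z → y ∈ Z a → z ∈ Z b)
    (all : ∀ l, ∀ n ∈ N.W l, n ∈ Z (.inr l)) : ∀ a, ∀ y ∈ (surg A N Ψ R).W a, y ∈ Z a := by
  have t : ∀ i, ∀ y ∈ outer A N Ψ R 0 i, (∃ l n, Ψ l n i y ∧ R l n < 4) → y ∈ Z (.inl i) :=
    fun i y hy ⟨l, n, a, _⟩ => v (.inr l) n (.inl i) y ⟨a, (hy.2 _ _ a).ne'⟩
      (all l n (h.map.mem a).1)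
  rintro (j | l) z hz
  swap
  · exact all l z hz
  obtain ⟨i₀, y₀, q⟩ := h.map.tot h₀
  refine (hC.2 (fun i => outer A N Ψ R 0 i ∩ Z (.inl i) ∪ {y | ∃ l n, Ψ l n i y ∧ R l n < 4})
    (fun i => (hA.opn i).inter ((o (.inl i)).union (h.PSurg_open 4 i))) (fun i => ?_)
    (fun i y i' y' r s => s.imp (fun s => ⟨h.outer_inv hA s.1 r, v (.inl i) y (.inl i') y'
      ⟨s.1, r⟩ s.2⟩) fun ⟨l, n, a, b⟩ => ⟨l, n, h.map.right a r, b⟩) i₀ j y₀ (h.map.mem q).2 z hz.1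
    (Or.inr ⟨l₀, n₀, q, h.lt _ _ h₀⟩)).elim (fun s => s.2) (t j z hz)
  convert o' (.inl i) using 1
  refine Set.ext fun y => ⟨fun s => ?_, fun s => ⟨s.1.1, fun r => s.2 (r.elim (·.2) (t i y s.1))⟩⟩
  have a : y ∈ outer A N Ψ R 0 i := ⟨s.1, fun l n b =>
    (s.2 (Or.inr ⟨l, n, b, h.lt _ _ (h.map.mem b).1⟩)).elim⟩
  exact ⟨a, fun r => s.2 (Or.inl ⟨a, r⟩)⟩

theorem Tube.conn (h : Tube A N Ψ R) (hA : A.Good) (hN : N.Good) (hC : A.Conn) (hC' : N.Conn) :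
    (surg A N Ψ R).Conn := by
  obtain ⟨l₀, n₀, h₀⟩ := hC'.1
  refine ⟨⟨.inr l₀, n₀, h₀⟩, fun Z o o' v a b y hy z hz q => ?_⟩
  have c := hC'.2 (fun l => Z (.inr l)) (fun l => o (.inr l)) (fun l => o' (.inr l))
    fun l n l' n' => v (.inr l) n (.inr l') n'
  by_cases e : n₀ ∈ Z (.inr l₀)
  · exact h.PSurg_all hA hC h₀ o o' v (fun l n hn => c l₀ l n₀ h₀ n hn e) b z hz
  · exact absurd q (h.PSurg_all hA hC h₀ (Z := fun a => (Z a)ᶜ) o'
      (fun a => by simpa only [diff_compl] using o a)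
      (fun a y b z r s t => s (v b z a y ((h.good hA hN).symm r) t))
      (fun l n hn s => e (c l l₀ n hn n₀ h₀ s)) a y hy)

/-- Every point is outside the tube of radius `c` or related to a point of `N`. -/
theorem Tube.cover (h : Tube A N Ψ R) (hN : N.Good) (c : ℝ) (a : (surg A N Ψ R).ι) {y : V}
    (hy : y ∈ (surg A N Ψ R).W a) : (∃ i, a = .inl i ∧ y ∈ outer A N Ψ R c i) ∨
      ∃ l n, (surg A N Ψ R).r a y (.inr l) n ∧ (R l n ≤ c ∨ a = .inr l) := by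
  cases a with
  | inr l => exact Or.inr ⟨l, y, hN.refl hy, Or.inr rfl⟩
  | inl i =>
    by_cases H : ∀ l n, Ψ l n i y → c < R l n
    · exact Or.inl ⟨i, rfl, hy.1, H⟩
    · simp only [not_forall, not_lt] at H
      obtain ⟨l, n, h1, h2⟩ := H
      exact Or.inr ⟨l, n, ⟨h1, (hy.2 l n h1).ne'⟩, Or.inl h2⟩

theorem Tube.lift_ll (h : Tube A N Ψ R) {i j : A.ι} {y : V} {γ : V → V}
    (h1 : Lift (sl (surg A N Ψ R).r (.inl i) (.inl j)) y γ) : Lift (sl A.r i j) y γ := by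
  exact h1.mono (Eventually.of_forall fun _ h => h.2)

theorem Tube.lift_rl (h : Tube A N Ψ R) {l : N.ι} {j : A.ι} {y : V} {γ : V → V}
    (h1 : Lift (sl (surg A N Ψ R).r (.inr l) (.inl j)) y γ) : Lift (sl Ψ l j) y γ := by
  exact h1.mono (Eventually.of_forall fun _ h => h.1)

theorem Tube.lift_rr (h : Tube A N Ψ R) {l l' : N.ι} {y : V} {γ : V → V}
    (h1 : Lift (sl (surg A N Ψ R).r (.inr l) (.inr l')) y γ) : Lift (sl N.r l l') y γ := by
  exact h1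

theorem Tube.gs (h : Tube A N Ψ R) (hA : A.Good) (hN : N.Good) {a : A.ι → Fm V k}
    {a' : N.ι → Fm V k} (ha : A.GS a) (ha' : N.GS a') (hp : Pulls Ψ a' a) :
    (surg A N Ψ R).GS (Sum.elim a a') := by
  refine ⟨?_, ?_⟩
  · rintro (i | l)
    · exact (ha.1 i).mono fun _ hy => hy.1
    · exact ha'.1 l
  · rintro (i | l) (j | l') y γ h1
    · exact ha.2 i j y γ (h.lift_ll h1)
    · exact pb_symm (h.good hA hN) (i := .inr l') (j := .inl i) (O := univ) (O' := univ)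
        (fun y _ γ _ h1 => hp l' i y γ (h.lift_rl h1)) y trivial γ trivial h1
    · exact hp l j y γ (h.lift_rl h1)
    · exact ha'.2 l l' y γ (h.lift_rr h1)

theorem Tube.gc (h : Tube A N Ψ R) (hA : A.Good) (hN : N.Good) {a : A.ι → Fm V k}
    {a' : N.ι → Fm V k} (ha : A.GC a) (ha' : N.GC a') (hp : Pulls Ψ a' a) :
    (surg A N Ψ R).GC (Sum.elim a a') := by
  have H := h.gs hA hN ha.gs ha'.gs hp
  refine ⟨fun b => ⟨H.1 b, ?_⟩, H.2⟩
  cases b with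
  | inl i => exact fun x hx => (ha.1 i).2 x hx.1
  | inr l => exact (ha'.1 l).2

theorem Tube.exists_form (h : Tube A N Ψ R) (hA : A.Good) (hN : N.Good) {c : ℝ} (h0 : 0 ≤ c)
    (hc : c < 4) {a : A.ι → Fm V k} {a' : N.ι → Fm V k} (ha : A.GS a) (ha' : N.GS a')
    (hp : ∀ l j y γ, c < R l y → Lift (sl Ψ l j) y γ → a' l y = pb γ (a j) y) :
    ∃ b : (surg A N Ψ R).ι → Fm V k, (surg A N Ψ R).GS b ∧
      (∀ i, ∀ y ∈ outer A N Ψ R c i, b (.inl i) y = a i y) ∧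
      (∀ l, ∀ y ∈ N.W l, b (.inr l) y = a' l y) ∧ (A.GC a → N.GC a' → (surg A N Ψ R).GC b) := by
  have hG := h.good hA hN
  have opn : ∀ l : A.ι ⊕ N.ι, IsOpen (Sum.elim (outer A N Ψ R c) N.W l) := by
    rintro (i | l)
    · exact h.isOpen_outer hA hN hc i
    · exact hN.opn l
  have cov : ∀ j, ∀ z ∈ (surg A N Ψ R).W j, ∃ l : A.ι ⊕ N.ι,
      ∃ y ∈ Sum.elim (outer A N Ψ R c) N.W l, (surg A N Ψ R).r j z l y := fun j z hz => by
    rcases h.cover hN c j hz with ⟨i, rfl, hy⟩ | ⟨l, n, hr, -⟩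
    · exact ⟨.inl i, z, hy, hG.refl hz⟩
    · exact ⟨.inr l, n, hG.mem' hr, hr⟩
  have rl : ∀ l j, ∀ y ∈ N.W l, ∀ γ, γ y ∈ outer A N Ψ R c j →
      Lift (sl (surg A N Ψ R).r (.inr l) (.inl j)) y γ → a' l y = pb γ (a j) y :=
    fun l j y _ γ hγ h1 => hp l j y γ (hγ.2 l y h1.self.1) (h.lift_rl h1)
  obtain ⟨b, hb, e⟩ := descent hG (κ := A.ι ⊕ N.ι) id (Sum.elim (outer A N Ψ R c) N.W)
    (Sum.elim a a') opn (by
      rintro (i | l)
      · exact outer_mono h0 i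
      · exact Subset.rfl) cov (by
      rintro (i | l)
      · exact (ha.1 i).mono fun _ hy => hy.1
      · exact ha'.1 l) (by
      rintro (i | l) (j | l') y hy γ hγ h1
      · exact ha.2 i j y γ (h.lift_ll h1)
      · exact pb_symm hG (i := .inr l') (j := .inl i) (rl l' i) y hy γ hγ h1
      · exact rl l j y hy γ hγ h1
      · exact ha'.2 l l' y γ (h.lift_rr h1))
  refine ⟨b, hb, fun i => e (.inl i), fun l => e (.inr l),
    fun h1 h2 => hb.gc_of_cover hG fun j z hz => ?_⟩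
  obtain ⟨l, y, hy, hr⟩ := cov j z hz
  have ev : b l =ᶠ[𝓝 y] Sum.elim a a' l := eventually_of_mem ((opn l).mem_nhds hy) (e l)
  refine ⟨l, y, hr, ev.extDeriv_eq.trans ?_⟩
  cases l with
  | inl i => exact (h1.1 i).2 y hy.1
  | inr l => exact (h2.1 l).2 y hy

theorem Tube.null_core [MeasureSpace V] [BorelSpace V] [(volume : Measure V).IsAddHaarMeasure]
    (h : Tube A N Ψ R) (hA : A.Good) (hN : N.Good)
    (h0 : ∀ l, volume {n | n ∈ N.W l ∧ R l n = 0} = 0) (i : A.ι) :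
    volume (A.W i \ outer A N Ψ R 0 i) = 0 := by
  refine measure_mono_null (fun z hz => ?_) (h.map.null_im hN hA h0 i)
  have H : ¬ ∀ l n, Ψ l n i z → 0 < R l n := fun H => hz.2 ⟨hz.1, H⟩
  simp only [not_forall, not_lt] at H
  obtain ⟨l, n, h1, h2⟩ := H
  exact ⟨l, n, ⟨(h.map.mem h1).1, h2.antisymm (h.nonneg l n (h.map.mem h1).1)⟩, h1⟩

end Pool.Agent.Work.MP_bf98aa_gt.Cp
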