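import Pool.Agent.Work.MP_bf98aa_gt.Cp.SGood

/-!
Surfaces: fundamental domain, connectedness, area. Generalities on fundamental domains.
PLAN. `cptBy`: first reduce `|P| ≤ p / 2` by `Sh` (if `k ≠ 0` then `|P| > e`, so `|Q'| ≤ 1 / |w| = |Q|`), then apply `G1` with `k = 0` if `|w| > √c1`, or `G0` with `k = 0` if `|Q| > √c0` (`exists_PQ`).
`null`: `K ∖ D` lies in finitely many curves, each the image of the null set `{im = 0}` under a map `ℂ → ℂ` differentiable on it (`addHaar_image_eq_zero_of_differentiableOn_of_addHaar_eq_zero`;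
the curve `|Q| = √c0` is `P ↦ (u, P / u)`, `u = ± √c0 n P`). `conn`: `conn_of`; `X` is star shaped in two steps (`u ↦ τ u` by `Nm.mono`, then `w ↦ τ w`), the points `(0, √c1)` are `G1` related.
`area`: if `e ≤ |P|` then `1 / √c0 < |w| < √c1`, `|u| < p √c0 / 2` (two rectangles); if `|P| < e` then `|u| < 2 e √c0`, `|w| < √c1` (`Complex.volume_preserving_equiv_real_prod`).
`hasI_fd'`: `hasI_fd` and `SMap.null_im` for `Good.smap`.
-/

set_option autoImplicit false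

open scoped ContDiff Topology
open Set Filter MeasureTheory

namespace Pool.Agent.Work.MP_bf98aa_gt.Cp

open Pool.Agent.Work.MP_bf98aa_gt.Th

section
variable {V V' : Type} [NormedAddCommGroup V] [NormedSpace ℝ V] [FiniteDimensional ℝ V]
  [MeasureSpace V] [BorelSpace V] [(volume : Measure V).IsAddHaarMeasure] [NormedAddCommGroup V']
  [NormedSpace ℝ V'] [FiniteDimensional ℝ V'] [MeasureSpace V'] [BorelSpace V']
  [(volume : Measure V').IsAddHaarMeasure] {P : Pres V} {Q : Pres V'}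

theorem FD.prod {K D : P.ι → Set V} {K' D' : Q.ι → Set V'} (h : FD P K D) (h' : FD Q K' D') :
    FD (P.prod Q) (fun i => K i.1 ×ˢ K' i.2) fun i => D i.1 ×ˢ D' i.2 := by
  refine ⟨h.cpt.prod h'.cpt, fun i => (h.opn _).prod (h'.opn _),
    fun i => prod_mono (h.sub _) (h'.sub _), fun i j y hy z hz r => ?_, fun i => ?_⟩
  · have a := h.inj _ _ _ hy.1 _ hz.1 r.1
    have b := h'.inj _ _ _ hy.2 _ hz.2 r.2
    exact ⟨Prod.ext a.1 b.1, Prod.ext a.2 b.2⟩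
  · refine measure_mono_null (t := (K i.1 \ D i.1) ×ˢ univ ∪ univ ×ˢ (K' i.2 \ D' i.2))
      (fun x hx => ?_) (measure_union_null ?_ ?_)
    · by_cases a : x.1 ∈ D i.1
      · exact .inr ⟨trivial, hx.1.2, fun b => hx.2 ⟨a, b⟩⟩
      · exact .inl ⟨⟨hx.1.1, a⟩, trivial⟩
    · rw [Measure.volume_eq_prod, Measure.prod_prod, h.null, zero_mul]
    · rw [Measure.volume_eq_prod, Measure.prod_prod, h'.null, mul_zero]

theorem hasI_fd' (hP : P.Good) {f : P.ι → V → ℝ} (hf : P.Dn f) {κ : Type} [Fintype κ]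
    (i : κ → P.ι) (D : κ → Set V) (opn : ∀ l, IsOpen (D l)) (sub : ∀ l, D l ⊆ P.W (i l))
    (inj : ∀ l l', ∀ y ∈ D l, ∀ y' ∈ D l', P.r (i l) y (i l') y' → l = l' ∧ y = y')
    (Z : P.ι → Set V) (hZ : ∀ j, volume (Z j) = 0)
    (cov : ∀ j, ∀ z ∈ P.W j, f j z ≠ 0 →
      (∃ j', ∃ y ∈ Z j', P.r j z j' y) ∨ ∃ l, ∃ y ∈ D l, P.r j z (i l) y) :
    P.HasI f (∑ l, ∫ y in D l, f (i l) y) := by
  refine hasI_fd hP hf i D opn sub inj fun j => ?_
  filter_upwards [measure_eq_zero_iff_ae_notMem.1 (hP.smap.null_im hP hP hZ j)] with z hz h1 h2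
  exact (cov j z h1 h2).resolve_left fun ⟨j', y, hy, r⟩ => hz ⟨j', y, hy, hP.symm r⟩

theorem SFd_opn {X Y : Type} [TopologicalSpace X] [TopologicalSpace Y] {φ : X → Y}
    (hφ : Continuous φ) {A : Set X} {B : Set Y} (hB : IsOpen B) (h : ∀ x, x ∈ A ↔ φ x ∈ B) :
    IsOpen A :=
  (Set.ext h : A = φ ⁻¹' B) ▸ hB.preimage hφ

omit [FiniteDimensional ℝ V] [MeasureSpace V] [BorelSpace V]
  [(volume : Measure V).IsAddHaarMeasure] [FiniteDimensional ℝ V'] [MeasureSpace V']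
  [BorelSpace V'] [(volume : Measure V').IsAddHaarMeasure] in
theorem Pres.Conn.prod (hP : P.Good) (hQ : Q.Good) (h : P.Conn) (h' : Q.Conn) :
    (P.prod Q).Conn := by
  obtain ⟨⟨i, y, hy⟩, h⟩ := h
  obtain ⟨⟨j, z, hz⟩, h'⟩ := h'
  refine ⟨⟨(i, j), (y, z), hy, hz⟩, fun Z o1 o2 st a b u hu v hv hZ => ?_⟩
  have s1 : (v.1, u.2) ∈ Z (b.1, a.2) := h (fun l => {x | (x, u.2) ∈ Z (l, a.2)})
    (fun l => SFd_opn (φ := fun x => (x, u.2)) (by fun_prop) (o1 (l, a.2))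
      fun x => ⟨fun k => ⟨⟨k.1, hu.2⟩, k.2⟩, fun k => ⟨k.1.1, k.2⟩⟩)
    (fun l => SFd_opn (φ := fun x => (x, u.2)) (by fun_prop) (o2 (l, a.2))
      fun x => ⟨fun k => ⟨⟨k.1, hu.2⟩, k.2⟩, fun k => ⟨k.1.1, k.2⟩⟩)
    (fun l x l' x' r => st (l, a.2) (x, u.2) (l', a.2) (x', u.2) ⟨r, hQ.refl hu.2⟩)
    a.1 b.1 u.1 hu.1 v.1 hv.1 hZ
  exact h' (fun l => {x | (v.1, x) ∈ Z (b.1, l)})
    (fun l => SFd_opn (φ := fun x => (v.1, x)) (by fun_prop) (o1 (b.1, l))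
      fun x => ⟨fun k => ⟨⟨hv.1, k.1⟩, k.2⟩, fun k => ⟨k.1.2, k.2⟩⟩)
    (fun l => SFd_opn (φ := fun x => (v.1, x)) (by fun_prop) (o2 (b.1, l))
      fun x => ⟨fun k => ⟨⟨hv.1, k.1⟩, k.2⟩, fun k => ⟨k.1.2, k.2⟩⟩)
    (fun l x l' x' r => st (b.1, l) (v.1, x) (b.1, l') (v.1, x') ⟨hP.refl hv.1, r⟩)
    a.2 b.2 u.2 hu.2 v.2 hv.2 s1

end

variable {q : Par}

theorem SFd_num (h : q.Ok) : 0 < √q.c0 ∧ 0 < √q.c1 ∧ √q.c0 * √q.c0 = q.c0 ∧
    √q.c1 * √q.c1 = q.c1 ∧ √q.c0 < q.V ∧ √q.c1 < q.W ∧ q.ws < √q.c1 ∧ 1 < √q.c0 * q.ws := by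
  obtain ⟨c0, c1, -⟩ := h.c0_pos
  have a0 := Real.sqrt_pos.2 c0
  have a1 := Real.sqrt_pos.2 c1
  have b0 := Real.mul_self_sqrt c0.le
  have b1 := Real.mul_self_sqrt c1.le
  have d0 := (Real.sqrt_lt' h.V0).2 h.h4
  have d1 := (Real.sqrt_lt' h.W0).2 h.h2
  refine ⟨a0, a1, b0, b1, d0, d1, ?_, ?_⟩
  · refine lt_of_mul_lt_mul_right ?_ h.W0.le
    linarith [h.h1, mul_lt_mul_of_pos_left d1 a1]
  · refine lt_of_mul_lt_mul_left ?_ a0.le
    rw [← mul_assoc, b0]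
    linarith [h.h3]

theorem SFd_sub (h : q.Ok) : q.K ⊆ q.X := fun z hz => by
  obtain ⟨-, -, -, -, d0, d1, -⟩ := SFd_num h
  exact ⟨hz.1.trans_lt d1, hz.2.1.trans_lt d0, Or.inl (hz.2.2.trans_lt (by linarith [h.ep]))⟩

theorem SFd_cpt (h : q.Ok) : IsCompact q.K := by
  have cQ := h.nm.contDiff_QQ.continuous
  have cP := contDiff_PP.continuous
  refine Metric.isCompact_of_isClosed_isBounded
    ((isClosed_le Complex.continuous_im.abs continuous_const).inter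
      ((isClosed_le cQ.abs continuous_const).inter (isClosed_le cP.abs continuous_const)))
    (isBounded_iff_forall_norm_le.2 ⟨√q.c0 * (2 * q.e + q.p / 2) + √q.c1, fun z hz => ?_⟩)
  refine (Complex.norm_le_abs_re_add_abs_im z).trans (add_le_add ?_ hz.1)
  rw [h.nm.re_eq z, abs_mul, abs_of_pos (h.nm.pos _)]
  refine mul_le_mul hz.2.1 ?_ (h.nm.pos _).le (Real.sqrt_nonneg _)
  rcases le_total |PP z| q.e with a | a
  · linarith [h.nm.le _ a, h.c0_pos.2.2]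
  · linarith [h.nm.eq_abs _ a, hz.2.2, h.e0]

theorem SFd_red (h : q.Ok) {y : ℂ} (hy : y ∈ q.X) :
    ∃ z ∈ q.X, Sh q.p y z ∧ |PP z| ≤ q.p / 2 := by
  by_cases a : |PP y| ≤ q.p / 2
  · exact ⟨y, hy, Sh.refl _ _, a⟩
  have p0 := h.c0_pos.2.2
  have b := h.nm.Qw_eq (z := y) (by linarith [h.ep])
  have w0 : y.im ≠ 0 := fun e => by simp [e] at b
  have hP : PP ⟨(PP y - round (PP y / q.p) * q.p) / y.im, y.im⟩
      = PP y - round (PP y / q.p) * q.p := div_mul_cancel₀ _ w0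
  have le : |PP y - round (PP y / q.p) * q.p| ≤ q.p / 2 := by
    have := mul_le_mul_of_nonneg_right (abs_sub_round (PP y / q.p)) p0.le
    rw [← abs_of_pos p0, ← abs_mul, abs_of_pos p0, sub_mul, div_mul_cancel₀ _ p0.ne'] at this
    linarith
  refine ⟨⟨(PP y - round (PP y / q.p) * q.p) / y.im, y.im⟩, ⟨hy.1, lt_of_le_of_lt ?_ hy.2.1,
    Or.inl (by rw [hP]; linarith [h.ep])⟩, ⟨rfl, ⟨-round (PP y / q.p), ?_⟩, fun e => absurd e w0⟩,
    by rw [hP]; exact le⟩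
  · exact le_of_mul_le_mul_right ((h.nm.Qw_le _).trans b.ge) (abs_pos.2 w0)
  · rw [hP]
    push_cast
    ring

theorem SFd_flip (h : q.Ok) {y : ℂ} (hy : y ∈ q.X) (hP : |PP y| ≤ q.p / 2) :
    y ∈ q.K ∨ ∃ z ∈ q.K, q.G1 y z ∨ q.G0 y z := by
  obtain ⟨a0, a1, b0, b1, d0, d1, e1, e2⟩ := SFd_num h
  obtain ⟨c0, c1, -⟩ := h.c0_pos
  rcases lt_or_ge (√q.c1) |y.im| with a | a
  · have w0 : 0 < |y.im| := a1.trans a
    have w1 : y.im ≠ 0 := abs_pos.1 w0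
    have w2 : q.c1 / y.im ≠ 0 := div_ne_zero c1.ne' w1
    have e : PP ⟨-PP y / (q.c1 / y.im), q.c1 / y.im⟩ = -PP y := div_mul_cancel₀ _ w2
    have m : |q.c1 / y.im| * |y.im| = q.c1 := by
      rw [← abs_mul, div_mul_cancel₀ _ w1, abs_of_pos c1]
    refine Or.inr ⟨⟨-PP y / (q.c1 / y.im), q.c1 / y.im⟩, ⟨?_, ?_, by rwa [e, abs_neg]⟩,
      Or.inl ⟨mul_div_cancel₀ _ w1, 0, by rw [e]; simp⟩⟩
    · refine le_of_mul_le_mul_right (m.le.trans ?_) w0
      linarith [mul_lt_mul_of_pos_left a a1]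
    · have t := h.nm.Qw_le (⟨-PP y / (q.c1 / y.im), q.c1 / y.im⟩ : ℂ)
      have t1 : q.ws ≤ |q.c1 / y.im| := by
        refine le_of_mul_le_mul_right (le_trans ?_ m.ge) w0
        linarith [h.h1, mul_lt_mul_of_pos_left hy.1 h.ws0]
      refine le_of_mul_le_mul_right (((mul_le_mul_of_nonneg_left t1 (abs_nonneg _)).trans t).trans
        e2.le) h.ws0
  rcases lt_or_ge (√q.c0) |QQ q.n y| with b | b
  · have w0 : 0 < |QQ q.n y| := a0.trans b
    have w1 : QQ q.n y ≠ 0 := abs_pos.1 w0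
    obtain ⟨z, z1, z2⟩ := h.nm.exists_PQ (-PP y) (div_ne_zero c0.ne' w1)
    have m : |QQ q.n z| * |QQ q.n y| = q.c0 := by
      rw [z2, ← abs_mul, div_mul_cancel₀ _ w1, abs_of_pos c0]
    refine Or.inr ⟨z, ⟨?_, ?_, by rwa [z1, abs_neg]⟩,
      Or.inr ⟨0, by rw [z1]; simp, by rw [z2, mul_div_cancel₀ _ w1]; simp⟩⟩
    · have t := mul_le_mul_of_nonneg_left (h.nm.Qw_le z) w0.le
      rw [← mul_assoc, mul_comm |QQ q.n y|, m] at t
      refine le_trans (le_of_mul_le_mul_left ?_ c0) e1.le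
      linarith [hy.2.1, h.h3]
    · refine le_of_mul_le_mul_right (m.le.trans ?_) w0
      linarith [mul_lt_mul_of_pos_left b a0]
  · exact Or.inl ⟨a, b, hP⟩

theorem Par.Ok.cptBy (h : q.Ok) : q.S.CptBy fun _ => q.K := by
  refine ⟨fun _ => ⟨SFd_cpt h, SFd_sub h⟩, fun i y hy => ?_⟩
  obtain ⟨y', m, s, le⟩ := SFd_red h hy
  have r1 : q.S.r i y i y' := ⟨hy, m, Or.inl ⟨rfl, s⟩⟩
  rcases SFd_flip h m le with k | ⟨z, k, g⟩
  · exact ⟨i, y', k, r1⟩
  · exact ⟨!(i : Bool), z, k, h.S_trans r1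
      ⟨m, SFd_sub h k, Or.inr ⟨(Bool.not_ne_self (i : Bool)).symm, g⟩⟩⟩

theorem SFd_curve {f g : ℝ → ℝ} {s : Set ℝ} (hf : DifferentiableOn ℝ f s)
    (hg : DifferentiableOn ℝ g s) : volume {z : ℂ | ∃ t ∈ s, z.re = f t ∧ z.im = g t} = 0 := by
  have n0 : volume {z : ℂ | z.re ∈ s ∧ z.im = 0} = 0 := by
    refine measure_mono_null (t := (LinearMap.ker Complex.imLm : Submodule ℝ ℂ)) (fun z hz => hz.2)
      (Measure.addHaar_submodule _ _ fun e => ?_)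
    have : Complex.I ∈ LinearMap.ker Complex.imLm := e ▸ Submodule.mem_top
    simp at this
  have c : ∀ {k : ℝ → ℝ}, DifferentiableOn ℝ k s →
      DifferentiableOn ℝ (fun z : ℂ => (k z.re : ℂ)) {z : ℂ | z.re ∈ s ∧ z.im = 0} := fun hk =>
    Complex.ofRealCLM.differentiable.comp_differentiableOn
      (hk.comp Complex.reCLM.differentiable.differentiableOn fun z hz => hz.1)
  refine measure_mono_null ?_ (addHaar_image_eq_zero_of_differentiableOn_of_addHaar_eq_zero volume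
    ((c hf).add ((c hg).mul_const Complex.I)) n0)
  rintro z ⟨t, ht, h1, h2⟩
  exact ⟨t, ⟨by simpa using ht, by simp⟩, Complex.ext (by simp [h1]) (by simp [h2])⟩

theorem Par.Ok.null (h : q.Ok) : volume (q.K \ q.D) = 0 := by
  obtain ⟨a0, -⟩ := SFd_num h
  have p0 := h.c0_pos.2.2
  have n1 : ∀ c : ℝ, volume {z : ℂ | z.im = c} = 0 := fun c => by
    refine measure_mono_null (fun z hz => ?_)
      (SFd_curve (s := univ) differentiableOn_id (differentiableOn_const c))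
    exact ⟨z.re, mem_univ _, rfl, hz⟩
  have n2 : ∀ c : ℝ, c ≠ 0 → volume {z : ℂ | QQ q.n z = c} = 0 := fun c hc => by
    have d : Differentiable ℝ fun t => c * q.n t :=
      (h.nm.sm.differentiable (by simp)).const_mul c
    have ne : ∀ t, c * q.n t ≠ 0 := fun t => mul_ne_zero hc (h.nm.pos t).ne'
    refine measure_mono_null (fun z hz => ?_) (SFd_curve (s := univ) d.differentiableOn
      (differentiable_id.div d ne).differentiableOn)
    have e : z.re = c * q.n (PP z) := by rw [← show QQ q.n z = c from hz]; exact h.nm.re_eq z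
    refine ⟨PP z, mem_univ _, e, ?_⟩
    change z.im = PP z / (c * q.n (PP z))
    rw [eq_div_iff (ne _), ← e, mul_comm, PP]
  have n3 : ∀ c : ℝ, c ≠ 0 → volume {z : ℂ | PP z = c} = 0 := fun c hc => by
    refine measure_mono_null (fun z hz => ?_) (SFd_curve (s := {t | t ≠ 0}) differentiableOn_id
      ((differentiableOn_const c).div differentiableOn_id fun t ht => ht))
    have e : z.re * z.im = c := hz
    have ne : z.re ≠ 0 := fun e0 => hc (by rw [← e, e0, zero_mul])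
    refine ⟨z.re, ne, rfl, ?_⟩
    change z.im = c / z.re
    rw [eq_div_iff ne, mul_comm, e]
  have p1 : q.p / 2 ≠ 0 := by positivity
  refine measure_mono_null (fun z hz => ?_) (measure_union_null (measure_union_null
    (measure_union_null (n1 √q.c1) (n1 (-√q.c1)))
    (measure_union_null (n2 _ a0.ne') (n2 _ (neg_ne_zero.2 a0.ne'))))
    (measure_union_null (n3 _ p1) (n3 _ (neg_ne_zero.2 p1))))
  obtain ⟨⟨k1, k2, k3⟩, hD⟩ := hz
  rcases k1.eq_or_lt with e | l1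
  · exact Or.inl (Or.inl (eq_or_eq_neg_of_abs_eq e))
  rcases k2.eq_or_lt with e | l2
  · exact Or.inl (Or.inr (eq_or_eq_neg_of_abs_eq e))
  rcases k3.eq_or_lt with e | l3
  · exact Or.inr (eq_or_eq_neg_of_abs_eq e)
  · exact absurd ⟨l1, l2, l3⟩ hD

theorem Par.Ok.fd (h : q.Ok) : FD q.S (fun _ => q.K) fun _ => q.D := by
  obtain ⟨a0, a1, b0, b1, -⟩ := SFd_num h
  refine ⟨h.cptBy, fun _ => (isOpen_lt Complex.continuous_im.abs continuous_const).inter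
    ((isOpen_lt h.nm.contDiff_QQ.continuous.abs continuous_const).inter
      (isOpen_lt contDiff_PP.continuous.abs continuous_const)),
    fun _ z hz => ⟨hz.1.le, hz.2.1.le, hz.2.2.le⟩, fun i j y hy z hz r => ?_, fun _ => h.null⟩
  rcases r.2.2 with ⟨e, s⟩ | ⟨-, g | ⟨k, -, g⟩⟩
  · exact ⟨e, (s.eq_of_lt (by linarith [abs_sub (PP z) (PP y), hy.2.2, hz.2.2])).symm⟩
  · have := mul_lt_mul'' hy.1 hz.1 (abs_nonneg _) (abs_nonneg _)
    rw [← abs_mul, g.1, b1] at this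
    exact absurd (le_abs_self _) (not_le.2 this)
  · have := mul_lt_mul'' hy.2.1 hz.2.1 (abs_nonneg _) (abs_nonneg _)
    rw [← abs_mul, g, b0, abs_mul, abs_zpow, abs_neg, abs_one, one_zpow, one_mul] at this
    exact absurd (le_abs_self _) (not_le.2 this)

theorem SFd_star (h : q.Ok) {z : ℂ} (hz : z ∈ q.X) {τ : ℝ} (hτ : τ ∈ Icc (0 : ℝ) 1) :
    (⟨τ * z.re, z.im⟩ : ℂ) ∈ q.X := by
  have e : PP ⟨τ * z.re, z.im⟩ = τ * PP z := mul_assoc _ _ _
  have a := h.nm.pos (PP z)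
  have b := h.nm.pos (τ * PP z)
  refine ⟨hz.1, lt_of_le_of_lt ?_ hz.2.1, hz.2.2.imp_left (lt_of_le_of_lt ?_)⟩
  · rw [QQ, QQ, e, abs_div, abs_div, abs_of_pos a, abs_of_pos b, div_le_div_iff₀ b a, abs_mul,
      abs_of_nonneg hτ.1, mul_comm τ, mul_assoc]
    exact mul_le_mul_of_nonneg_left (h.nm.mono _ τ hτ) (abs_nonneg _)
  · rw [e, abs_mul, abs_of_nonneg hτ.1]
    exact mul_le_of_le_one_left (abs_nonneg _) hτ.2

theorem SFd_pre (h : q.Ok) : IsPreconnected q.X := by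
  refine isPreconnected_of_forall 0 fun z hz => ?_
  have c1 : Continuous fun τ : ℝ => (⟨τ * z.re, z.im⟩ : ℂ) := by
    simp only [Complex.mk_eq_add_mul_I]
    fun_prop
  have c2 : Continuous fun τ : ℝ => (⟨0, τ * z.im⟩ : ℂ) := by
    simp only [Complex.mk_eq_add_mul_I]
    fun_prop
  have z0 := left_mem_Icc.2 (zero_le_one' ℝ)
  have z1 := right_mem_Icc.2 (zero_le_one' ℝ)
  refine ⟨(fun τ : ℝ => (⟨τ * z.re, z.im⟩ : ℂ)) '' Icc 0 1 ∪
    (fun τ : ℝ => (⟨0, τ * z.im⟩ : ℂ)) '' Icc 0 1, union_subset ?_ ?_,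
    .inr ⟨0, z0, by simp [Complex.ext_iff]⟩, .inl ⟨1, z1, by simp⟩,
    .union ⟨0, z.im⟩ ⟨0, z0, by simp⟩ ⟨1, z1, by simp⟩ (isPreconnected_Icc.image _ c1.continuousOn)
      (isPreconnected_Icc.image _ c2.continuousOn)⟩
  · rintro _ ⟨τ, hτ, rfl⟩
    exact SFd_star h hz hτ
  · rintro _ ⟨τ, hτ, rfl⟩
    refine h.zero_mem (lt_of_le_of_lt ?_ hz.1)
    rw [abs_mul, abs_of_nonneg hτ.1]
    exact mul_le_of_le_one_left (abs_nonneg _) hτ.2

theorem Par.Ok.conn (h : q.Ok) : q.S.Conn := by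
  have m : (⟨0, √q.c1⟩ : ℂ) ∈ q.X := h.zero_mem (by
    rw [abs_of_nonneg (Real.sqrt_nonneg _)]
    exact (Real.sqrt_lt' h.W0).2 h.h2)
  refine conn_of h.good univ (i₀ := true) ⟨_, m⟩ (fun _ _ => SFd_pre h)
    (fun j z hz => ⟨j, trivial, z, h.good.refl hz⟩) fun i _ => ?_
  cases i
  · exact .single ⟨trivial, trivial, _, _, m, m, .inr ⟨by simp, .inl
      ⟨Real.mul_self_sqrt h.c0_pos.2.1.le, 0, by simp [PP]⟩⟩⟩
  · exact .refl

theorem SFd_rect {a : ℝ} (ha : 0 ≤ a) (c d : ℝ) :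
    volume {z : ℂ | |z.re| ≤ a ∧ z.im ∈ Icc c d} = ENNReal.ofReal (2 * a * (d - c)) := by
  have e : {z : ℂ | |z.re| ≤ a ∧ z.im ∈ Icc c d} =
      Complex.measurableEquivRealProd ⁻¹' (Icc (-a) a ×ˢ Icc c d) :=
    Set.ext fun z => and_congr_left' abs_le
  rw [e, Complex.volume_preserving_equiv_real_prod.measure_preimage
    (measurableSet_Icc.prod measurableSet_Icc).nullMeasurableSet, Measure.volume_eq_prod,
    Measure.prod_prod, Real.volume_Icc, Real.volume_Icc, ← ENNReal.ofReal_mul (by linarith)]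
  congr 1
  ring

theorem Par.Ok.area (h : q.Ok) (h1 : 1 ≤ √q.c0 * √q.c1) :
    (volume q.D).toReal ≤ 2 * q.p * (√q.c0 * √q.c1 - 1) + 8 * q.e * (√q.c0 * √q.c1) := by
  obtain ⟨c0, c1, p0⟩ := h.c0_pos
  have e0 := h.e0
  have s0 := Real.sqrt_pos.2 c0
  have s1 := Real.sqrt_pos.2 c1
  have sb : q.D ⊆ ({z : ℂ | |z.re| ≤ √q.c0 * (q.p / 2) ∧ z.im ∈ Icc (1 / √q.c0) √q.c1} ∪
      {z : ℂ | |z.re| ≤ √q.c0 * (q.p / 2) ∧ z.im ∈ Icc (-√q.c1) (-(1 / √q.c0))}) ∪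
      {z : ℂ | |z.re| ≤ √q.c0 * (2 * q.e) ∧ z.im ∈ Icc (-√q.c1) √q.c1} := by
    rintro z ⟨a1, a2, a3⟩
    have b : ∀ c, q.n (PP z) ≤ c → |z.re| ≤ √q.c0 * c := fun c hc => by
      rw [h.nm.re_eq z, abs_mul, abs_of_pos (h.nm.pos _)]
      exact mul_le_mul a2.le hc (h.nm.pos _).le s0.le
    rcases le_total q.e |PP z| with k | k
    · have b1 := b _ ((h.nm.eq_abs _ k).trans_le a3.le)
      have b2 : 1 / √q.c0 ≤ |z.im| := by
        rw [div_le_iff₀' s0, ← h.nm.Qw_eq k]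
        exact mul_le_mul_of_nonneg_right a2.le (abs_nonneg _)
      rcases le_abs.1 b2 with k' | k'
      · exact .inl (.inl ⟨b1, k', (abs_lt.1 a1).2.le⟩)
      · exact .inl (.inr ⟨b1, (abs_lt.1 a1).1.le, le_neg.1 k'⟩)
    · exact .inr ⟨b _ (h.nm.le _ k), abs_le.1 a1.le⟩
  have n1 : 0 ≤ q.p * (√q.c0 * √q.c1 - 1) := mul_nonneg p0.le (by linarith)
  have e1 : 2 * (√q.c0 * (q.p / 2)) * (√q.c1 - 1 / √q.c0) = q.p * (√q.c0 * √q.c1 - 1) := by
    field_simp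
  refine ENNReal.toReal_le_of_le_ofReal (by linarith [mul_pos e0 (mul_pos s0 s1)])
    ((measure_mono sb).trans ((measure_union_le _ _).trans
      ((add_le_add_left (measure_union_le _ _) _).trans_eq ?_)))
  rw [SFd_rect (by positivity), SFd_rect (by positivity), SFd_rect (by positivity), neg_sub_neg, e1,
    ← ENNReal.ofReal_add n1 n1, ← ENNReal.ofReal_add (by linarith) (by nlinarith [mul_pos s0 e0])]
  congr 1
  ring

end Pool.Agent.Work.MP_bf98aa_gt.Cp
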