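import Pool.Agent.Work.MP_bf98aa_gt.Cp.SFrm
import Pool.Agent.Work.MP_bf98aa_gt.Cp.SFd

/-!
Surfaces: frames, connection forms, the Chern form.
PLAN. `tame_of_det`: a real linear map `F` of the plane with `0 < ar (F 1, F i)` is invertible, `ar (F a, F b) = det * ar (a, b)`, and `ar (F v, i F v) = ‖F v‖²`.
`exists_conn`: `A z v = - (χ (‖z‖²) / ‖z‖²) Im (conj z v)` with `χ = 0` near `0`, `χ t = 1` for `t ≥ δ² / 4`; `x z = - χ' (‖z‖²) / π`; `∫ x = - 1` by `Complex.integral_comp_polarCoord_symm` or `integral_fun_norm_addHaar`.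
`sdata`: `F z = z⁻¹ N z` (the identity for `‖z‖ < δ / 2`). For a lift `γ` use `N_inv`: either `Cmp.refl` with `Cmp.congr_map`, or both points have norm `> δ`, and `Cmp` holds with `U = l • id`,
`l x = ± x / γ x`. The form `x • ar` vanishes near points of norm `> δ`, and every 2-form on the plane is closed (here it is `d A / 2 π`, `IsD.cl`).
-/

set_option autoImplicit false

open scoped ContDiff Topology
open Set Filter MeasureTheory

namespace Pool.Agent.Work.MP_bf98aa_gt.Cp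

open Pool.Agent.Work.MP_bf98aa_gt.Th

theorem SDat_ar (u v : ℂ) : ar ![u, v] = u.re * v.im - v.re * u.im := by
  rw [ar, wedge_apply]
  simp

theorem SDat_expand (F : ℂ →L[ℝ] ℂ) (v : ℂ) : F v = v.re • F 1 + v.im • F Complex.I := by
  rw [← map_smul, ← map_smul, ← map_add]
  congr 1
  apply Complex.ext <;> simp

theorem SDat_det (F : ℂ →L[ℝ] ℂ) (u v : ℂ) :
    ar ![F u, F v] = ar ![F 1, F Complex.I] * ar ![u, v] := by
  rw [SDat_expand F u, SDat_expand F v]
  simp only [SDat_ar, Complex.add_re, Complex.add_im, Complex.smul_re, Complex.smul_im,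
    smul_eq_mul]
  ring

theorem SDat_mul (c u v : ℂ) : ar ![c * u, c * v] = Complex.normSq c * ar ![u, v] := by
  simp only [SDat_ar, Complex.mul_re, Complex.mul_im, Complex.normSq_apply]
  ring

theorem tame_of_det {F : ℂ →L[ℝ] ℂ} (h : 0 < ar ![F 1, F Complex.I]) :
    F.IsInvertible ∧ ∀ v, v ≠ 0 → 0 < ar ![v, Jof F v] := by
  have hz : ∀ v, F v = 0 → v = 0 := by
    intro v hv
    have h1 := SDat_det F v 1
    have h2 := SDat_det F v Complex.I
    rw [hv, SDat_ar 0, SDat_ar v] at h1 h2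
    simp only [Complex.zero_re, Complex.zero_im, zero_mul, mul_zero, sub_zero, Complex.one_re,
      Complex.one_im, one_mul, zero_sub, Complex.I_re, Complex.I_im, mul_one] at h1 h2
    apply Complex.ext
    · exact (mul_eq_zero.1 h2.symm).resolve_left h.ne'
    · exact neg_eq_zero.1 ((mul_eq_zero.1 h1.symm).resolve_left h.ne')
  have hinj : Function.Injective (F : ℂ →ₗ[ℝ] ℂ) := (injective_iff_map_eq_zero _).2 hz
  have hF : F.IsInvertible :=
    ⟨(LinearEquiv.ofInjectiveEndo (F : ℂ →ₗ[ℝ] ℂ) hinj).toContinuousLinearEquiv, by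
      exact ContinuousLinearMap.ext fun _ => rfl⟩
  refine ⟨hF, fun v hv => ?_⟩
  have h1 := SDat_det F v (Jof F v)
  rw [Jof_spec hF, SDat_ar (F v)] at h1
  have h2 : 0 < Complex.normSq (F v) := Complex.normSq_pos.2 fun e => hv (hz v e)
  rw [Complex.normSq_apply] at h2
  simp only [smul_eq_mul, Complex.mul_re, Complex.mul_im, Complex.I_re, Complex.I_im, zero_mul,
    one_mul, zero_sub, zero_add] at h1
  exact (mul_pos_iff_of_pos_left h).1 (by linarith)

theorem ar_Jof {F : ℂ →L[ℝ] ℂ} (h : F.IsInvertible) (u v : ℂ) :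
    ar ![Jof F u, Jof F v] = ar ![u, v] := by
  have hd : ar ![F 1, F Complex.I] ≠ 0 := by
    intro e
    have h1 := SDat_det F (F.inverse 1) (F.inverse Complex.I)
    rw [h.self_apply_inverse, h.self_apply_inverse, e, SDat_ar] at h1
    simp at h1
  have h1 := SDat_det F (Jof F u) (Jof F v)
  rw [Jof_spec h, Jof_spec h, smul_eq_mul, smul_eq_mul, SDat_mul, Complex.normSq_I, one_mul,
    SDat_det] at h1
  exact (mul_left_cancel₀ hd h1).symm

theorem SDat_cut {c : ℝ} (hc : 0 < c) : ∃ ψ φ : ℝ → ℝ, ContDiff ℝ ∞ ψ ∧ ContDiff ℝ ∞ φ ∧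
    Monotone ψ ∧ (∀ t, t * φ t = ψ t) ∧ ∀ t, 2 * c ≤ t → ψ t = 1 := by
  set ψ : ℝ → ℝ := fun t => Real.smoothTransition ((t - c) / c) with hψ
  have h1 : ContDiff ℝ ∞ ψ :=
    Real.smoothTransition.contDiff.comp ((contDiff_id.sub contDiff_const).div_const c)
  have h0 : ∀ t, t ≤ c → ψ t = 0 := fun t ht =>
    Real.smoothTransition.zero_of_nonpos (div_nonpos_of_nonpos_of_nonneg (by linarith) hc.le)
  refine ⟨ψ, fun t => ψ t * t⁻¹, h1, contDiff_iff_contDiffAt.2 fun t => ?_, fun a b hab => ?_,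
    fun t => ?_, fun t ht => ?_⟩
  · by_cases ht : t = 0
    · refine (contDiffAt_const (c := (0 : ℝ))).congr_of_eventuallyEq ?_
      filter_upwards [Iio_mem_nhds (show t < c by rw [ht]; exact hc)] with s hs
      rw [h0 s (le_of_lt hs), zero_mul]
    · exact h1.contDiffAt.mul (contDiffAt_inv ℝ ht)
  · exact Real.smoothTransition.monotone (div_le_div_of_nonneg_right (by linarith) hc.le)
  · by_cases ht : t = 0
    · rw [ht, zero_mul, h0 0 hc.le]
    · field_simp
  · exact Real.smoothTransition.one_of_one_le (by rw [le_div_iff₀ hc]; linarith)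

theorem SDat_int {ψ : ℝ → ℝ} (h1 : ContDiff ℝ ∞ ψ) (h2 : Monotone ψ) (h3 : ψ 0 = 0) {c : ℝ}
    (h4 : ∀ t, c ≤ t → ψ t = 1) : ∫ z : ℂ, deriv ψ (‖z‖ ^ 2) = Real.pi := by
  have hd : Differentiable ℝ ψ := h1.differentiable (by simp)
  rw [integral_fun_norm_addHaar volume fun r : ℝ => deriv ψ (r ^ 2)]
  have key : ∫ y in Ioi (0 : ℝ), deriv ψ (y ^ 2) * (2 * y) = 1 - ψ ((0 : ℝ) ^ 2) := by
    refine integral_Ioi_of_hasDerivAt_of_nonneg' (g := fun y : ℝ => ψ (y ^ 2)) (fun y _ => ?_)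
      (fun y hy => mul_nonneg h2.deriv_nonneg (mul_nonneg zero_le_two (le_of_lt hy))) ?_
    · have := (hd (y ^ 2)).hasDerivAt.comp y (hasDerivAt_pow 2 y)
      simpa [Function.comp_def] using this
    · refine tendsto_const_nhds.congr' ?_
      filter_upwards [(tendsto_pow_atTop two_ne_zero).eventually (eventually_ge_atTop c)] with y hy
      exact (h4 _ hy).symm
  have e : ∫ y in Ioi (0 : ℝ), y ^ (Module.finrank ℝ ℂ - 1) • deriv ψ (y ^ 2) =
      (∫ y in Ioi (0 : ℝ), deriv ψ (y ^ 2) * (2 * y)) / 2 := by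
    rw [← integral_div]
    refine integral_congr_ae (Eventually.of_forall fun y => ?_)
    simp only [Complex.finrank_real_complex, smul_eq_mul]
    ring
  rw [e, key]
  simp [h3, Measure.real, Complex.volume_ball]
  ring

theorem exists_conn {δ : ℝ} (h0 : 0 < δ) : ∃ (A : Fm ℂ 1) (x : ℂ → ℝ), ContDiff ℝ ∞ A ∧
    ContDiff ℝ ∞ x ∧ (∀ z, extDeriv A z = (2 * Real.pi) • x z • ar) ∧
    (∀ z v : ℂ, δ / 2 < ‖z‖ → A z ![v] = -(v / z).im) ∧ (∀ z : ℂ, δ / 2 < ‖z‖ → x z = 0) ∧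
    ∫ z, x z = -1 := by
  obtain ⟨ψ, φ, hψ, hφ, hm, he, h1⟩ := SDat_cut (c := δ ^ 2 / 8) (by positivity)
  have hre : ContDiff ℝ ∞ fun z : ℂ => z.re := Complex.reCLM.contDiff
  have him : ContDiff ℝ ∞ fun z : ℂ => z.im := Complex.imCLM.contDiff
  set s : ℂ → ℝ := fun z => z.re * z.re + z.im * z.im with hs
  have hsn : ∀ z, s z = ‖z‖ ^ 2 := fun z => by
    rw [Complex.sq_norm, Complex.normSq_apply]
  have hsm : ContDiff ℝ ∞ s := (hre.mul hre).add (him.mul him)
  set A : Fm ℂ 1 := fun z => alt1 (φ (s z) • (z.im • Complex.reCLM - z.re • Complex.imCLM))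
    with hA
  have hAv : ∀ z v, A z ![v] = φ (s z) * (z.im * v.re - z.re * v.im) := fun z v => by
    simp [hA, alt1_apply]
  have hAs : ContDiff ℝ ∞ A := contDiff_alt1.comp ((hφ.comp hsm).smul
    ((him.smul contDiff_const).sub (hre.smul contDiff_const)))
  have hbig : ∀ z : ℂ, δ / 2 < ‖z‖ → 2 * (δ ^ 2 / 8) < s z := fun z hz => by
    rw [hsn]
    nlinarith
  have hder : ∀ t, deriv ψ t = φ t + t * deriv φ t := fun t => by
    have h2 := (hasDerivAt_id' t).mul (hφ.differentiable (by simp) t).hasDerivAt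
    have h3 : ((fun x : ℝ => x) * φ) = ψ := funext he
    rw [h3] at h2
    rw [h2.deriv, one_mul]
  refine ⟨A, fun z => -deriv ψ (s z) / Real.pi, hAs, ?_, fun z => ?_, fun z v hz => ?_,
    fun z hz => ?_, ?_⟩
  · exact (((contDiff_infty_iff_deriv.1 hψ).2.comp hsm).neg).div_const _
  · have hAd : DifferentiableAt ℝ A z := hAs.differentiable (by simp) z
    have hf : ∀ u v : ℂ, fderiv ℝ A z u ![v] =
        deriv φ (s z) * (2 * (z.re * u.re + z.im * u.im)) * (z.im * v.re - z.re * v.im) +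
          φ (s z) * (u.im * v.re - u.re * v.im) := by
      intro u v
      have k1 := ((ContinuousAlternatingMap.apply ℝ ℂ ℝ ![v]).hasFDerivAt.comp z
        hAd.hasFDerivAt).fderiv
      have k2 : (⇑(ContinuousAlternatingMap.apply ℝ ℂ ℝ ![v]) ∘ A) =
          fun z => φ (s z) * (z.im * v.re - z.re * v.im) := funext fun z => hAv z v
      have r1 : HasFDerivAt (fun z : ℂ => z.re) Complex.reCLM z := Complex.reCLM.hasFDerivAt
      have r2 : HasFDerivAt (fun z : ℂ => z.im) Complex.imCLM z := Complex.imCLM.hasFDerivAt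
      have k3 := ((hφ.differentiable (by simp) (s z)).hasDerivAt.comp_hasFDerivAt z
        ((r1.fun_mul r1).fun_add (r2.fun_mul r2))).fun_mul
        ((r2.mul_const v.re).fun_sub (r1.mul_const v.im))
      rw [k2] at k1
      have k4 := congrArg (fun L : ℂ →L[ℝ] ℝ => L u) (k1.symm.trans k3.fderiv)
      simp only [ContinuousLinearMap.comp_apply, ContinuousAlternatingMap.apply_apply] at k4
      rw [k4]
      simp
      ring
    refine alt_ext_two fun u v => ?_
    rw [extDeriv_one_apply hAd, hf, hf]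
    simp only [ContinuousAlternatingMap.smul_apply, SDat_ar, smul_eq_mul, hder]
    field_simp
    simp only [hs]
    ring
  · have hz0 : s z ≠ 0 := by
      have := hbig z hz
      nlinarith [sq_nonneg δ]
    have k1 : φ (s z) = 1 / s z := by
      rw [eq_div_iff hz0, mul_comm, he, h1 _ (hbig z hz).le]
    rw [hAv, k1, Complex.div_im, Complex.normSq_apply]
    change _ = -(v.im * z.re / s z - v.re * z.im / s z)
    field_simp
    ring
  · have : ψ =ᶠ[𝓝 (s z)] fun _ => 1 := by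
      filter_upwards [Ioi_mem_nhds (hbig z hz)] with t ht using h1 t (le_of_lt ht)
    simp [this.deriv_eq]
  · simp only [hsn]
    rw [integral_div, integral_neg, SDat_int hψ hm (by rw [← he, zero_mul]) h1]
    field_simp

theorem SDat_cmp {N F : ℂ → ℂ →L[ℝ] ℂ} {A : Fm ℂ 1} {r σ : ℝ} (hr : 0 ≤ r) (hσ : σ ≠ 0)
    (hF : ∀ z v, z ≠ 0 → F z v = z⁻¹ * N z v) (hA : ∀ z v : ℂ, r < ‖z‖ → A z ![v] = -(v / z).im)
    {γ : ℂ → ℂ} {y : ℂ} (hγ : ContDiffAt ℝ ∞ γ y) (h1 : r < ‖y‖) (h2 : r < ‖γ y‖)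
    (h3 : ∀ᶠ x in 𝓝 y, ∀ v, N (γ x) (fderiv ℝ γ x v) = (σ : ℝ) * N x v) : Cmp γ F A F A y := by
  have hne : ∀ z : ℂ, r < ‖z‖ → z ≠ 0 := fun z hz => norm_pos_iff.1 (hr.trans_lt hz)
  have hσ' : (σ : ℂ) ≠ 0 := by exact_mod_cast hσ
  refine ⟨fun x => σ * x * (γ x)⁻¹, (contDiffAt_const.mul contDiffAt_id).mul
    (hγ.inv (hne _ h2)), ?_⟩
  have o : IsOpen {z : ℂ | r < ‖z‖} := isOpen_lt continuous_const continuous_norm
  filter_upwards [h3, CCmp_ev_diff hγ, o.mem_nhds h1, hγ.continuousAt.eventually (o.mem_nhds h2)]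
    with x e dγ a b
  have a0 := hne _ a
  have b0 := hne _ b
  refine ⟨⟨(σ * x * (γ x)⁻¹ : ℂ) • ContinuousLinearMap.id ℂ ℂ, fun v => ?_, ?_⟩,
    mul_ne_zero (mul_ne_zero hσ' a0) (inv_ne_zero b0), fun v => ?_⟩
  · rw [hF _ _ b0, hF _ _ a0, e]
    simp only [smul_apply, ContinuousLinearMap.id_apply, smul_eq_mul]
    field_simp
  · change LinearMap.det ((σ * x * (γ x)⁻¹ : ℂ) • (LinearMap.id : ℂ →ₗ[ℂ] ℂ)) = _
    rw [LinearMap.det_smul, LinearMap.det_id, Module.finrank_self, pow_one, mul_one]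
  · have k1 : HasFDerivAt (fun x => (γ x)⁻¹) (-((γ x) ^ 2)⁻¹ • fderiv ℝ γ x) x :=
      (hasDerivAt_inv b0).comp_hasFDerivAt x dγ.hasFDerivAt
    have k2 := (((hasFDerivAt_id (𝕜 := ℝ) x).const_mul (σ : ℂ)).fun_mul k1).fderiv
    have k3 : fderiv ℝ (fun x => σ * x * (γ x)⁻¹) x v =
        σ * x * (-((γ x) ^ 2)⁻¹ * fderiv ℝ γ x v) + (γ x)⁻¹ * (σ * v) := by
      have := congrArg (fun L : ℂ →L[ℝ] ℂ => L v) k2
      simpa using this
    have k4 : fderiv ℝ (fun x => σ * x * (γ x)⁻¹) x v / (σ * x * (γ x)⁻¹) =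
        v / x - fderiv ℝ γ x v / γ x := by
      rw [k3]
      field_simp
      ring
    rw [k4, hA _ _ a, hA _ _ b, Complex.sub_im]
    ring

theorem Par.Ok.sdata {q : Par} (h : q.Ok) : ∃ (F : ℂ → ℂ →L[ℝ] ℂ) (A : Fm ℂ 1) (x : ℂ → ℝ),
    SData q.S (fun _ => q.K) (fun _ => q.D) (fun _ => F) (fun _ => A) (fun _ => x) ∧
      ∫ z in q.D, x z = -1 := by
  obtain ⟨δ, h0, hD, hW, hQ⟩ := h.exists_delta
  obtain ⟨N, hN, hN0, hNd, hN1, hN2, hN3⟩ := h.exists_N h0 hW hQ
  obtain ⟨A, x, hA, hx, hdA, hAv, hx0, hint⟩ := exists_conn h0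
  have hzone : ∀ z : ℂ, q.ZW z ∨ q.ZQ z → δ / 2 < ‖z‖ := by
    rintro z (hz | hz)
    · have : δ < ‖z‖ := lt_of_not_ge fun e => hW z e hz
      linarith
    · linarith [hQ z hz, Complex.abs_re_le_norm z]
  set F : ℂ → ℂ →L[ℝ] ℂ := fun z => if z = 0 then ContinuousLinearMap.id ℝ ℂ else z⁻¹ • N z
    with hF
  have hFv : ∀ z v, z ≠ 0 → F z v = z⁻¹ * N z v := fun z v hz => by
    simp only [hF, if_neg hz, smul_apply, smul_eq_mul]
  have hFs : ContDiff ℝ ∞ F := by
    refine contDiff_iff_contDiffAt.2 fun z => ?_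
    by_cases hz : z = 0
    · refine (contDiffAt_const (c := ContinuousLinearMap.id ℝ ℂ)).congr_of_eventuallyEq ?_
      have o : IsOpen {z : ℂ | ‖z‖ < δ / 2} := isOpen_lt continuous_norm continuous_const
      filter_upwards [o.mem_nhds (show ‖z‖ < δ / 2 by rw [hz, norm_zero]; linarith)] with y hy
      by_cases hy0 : y = 0
      · simp only [hF, if_pos hy0]
      · refine ContinuousLinearMap.ext fun v => ?_
        rw [hFv y v hy0, hN0 y v hy, ContinuousLinearMap.id_apply]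
        field_simp
    · have k : ContDiffAt ℝ ∞ (fun y : ℂ => y⁻¹ • N y) z :=
        (contDiffAt_id.inv hz).smul hN.contDiffAt
      refine k.congr_of_eventuallyEq ?_
      filter_upwards [isOpen_ne.mem_nhds hz] with y hy
      simp only [hF, if_neg hy]
  have hFd : ∀ z, 0 < ar ![F z 1, F z Complex.I] := fun z => by
    by_cases hz : z = 0
    · simp [hF, hz, SDat_ar]
    · rw [hFv _ _ hz, hFv _ _ hz, SDat_mul]
      exact mul_pos (Complex.normSq_pos.2 (inv_ne_zero hz)) (hNd z hz)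
  have hIs : IsD A (fun y => (2 * Real.pi) • x y • ar) q.X := ⟨hA.contDiffOn, fun y _ => hdA y⟩
  refine ⟨F, A, x, ⟨h.good, h.conn, h.fd, h.gc_ar, ⟨fun _ => ⟨?_, fun y hy => ?_⟩,
    fun i j y γ hγ => ?_⟩, fun _ => hx.continuous, ⟨h.good.opn, fun _ => Subset.rfl,
    fun j z hz => ⟨j, z, hz, h.good.refl hz⟩, fun _ => hFs.contDiffOn,
    fun _ y _ => (tame_of_det (hFd y)).1, fun _ => hIs, fun _ y _ => (tame_of_det (hFd y)).2,
    fun i j y _ γ _ hγ => ?_⟩⟩, ?_⟩
  · exact (hx.smul contDiff_const).contDiffOn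
  · have k := (hIs.cl h.isOpen_X).2 y hy
    have k2 := (extDeriv_smul (x := y) (2 * Real.pi) fun z => x z • ar).symm.trans k
    exact (smul_eq_zero.1 k2).resolve_left (by positivity)
  · rcases h.N_inv hN1 hN2 hN3 hγ with ⟨-, e⟩ | ⟨a, b, -⟩
    · rw [pb_congr _ e, pb_id]
    · change x y • ar = pb γ (fun z => x z • (fun _ => ar : Fm ℂ 2) z) y
      rw [pb_fun_smul, hx0 _ (hzone _ a), hx0 _ (hzone _ b), zero_smul, zero_smul]
  · rcases h.N_inv hN1 hN2 hN3 hγ with ⟨-, e⟩ | ⟨a, b, c⟩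
    · exact Cmp.refl.congr_map e.symm
    · refine SDat_cmp (σ := sg i * sg j) (by linarith) ?_ hFv hAv hγ.1 (hzone _ a) (hzone _ b) c
      intro e
      have := congrArg abs e
      rw [abs_mul, abs_sg, abs_sg] at this
      norm_num at this
  · rw [setIntegral_eq_integral_of_forall_compl_eq_zero, hint]
    intro z hz
    refine hx0 z ?_
    have : δ < ‖z‖ := lt_of_not_ge fun e => hz (hD (mem_closedBall_zero_iff.2 e))
    linarith

end Pool.Agent.Work.MP_bf98aa_gt.Cp
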