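import Pool.Agent.Work.MP_bf98aa_gt.Cp.PProd
import Pool.Agent.Work.MP_bf98aa_gt.Cp.PInt2

/-!
Working definitions: closed surfaces of genus two, presented by two charts in the plane
`z = u + i w`. See the team-store file `h8_bf98aa_c1pos.md`, section 1.
-/

set_option autoImplicit false

open scoped ContDiff Topology
open Set Filter MeasureTheory

namespace Pool.Agent.Work.MP_bf98aa_gt.Cp

open Pool.Agent.Work.MP_bf98aa_gt.Th

/-- A smooth positive version of the absolute value. -/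
structure Nm (e : ℝ) (n : ℝ → ℝ) : Prop where
  sm : ContDiff ℝ ∞ n
  even : ∀ x, n (-x) = n x
  abs_le : ∀ x, |x| ≤ n x
  eq_abs : ∀ x, e ≤ |x| → n x = |x|
  le : ∀ x, |x| ≤ e → n x ≤ 2 * e
  low : ∃ m, 0 < m ∧ ∀ x, m ≤ n x
  mono : ∀ x, ∀ τ ∈ Icc (0 : ℝ) 1, τ * n x ≤ n (τ * x)

/-- The parameters of a surface. -/
structure Par where
  p : ℝ
  e : ℝ
  n : ℝ → ℝ
  W : ℝ
  V : ℝ
  ws : ℝ
  c1 : ℝ
  c0 : ℝ

structure Par.Ok (q : Par) : Prop where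
  e0 : 0 < q.e
  ep : 2 * q.e < q.p
  nm : Nm q.e q.n
  W0 : 0 < q.W
  V0 : 0 < q.V
  ws0 : 0 < q.ws
  h1 : q.ws * q.W ≤ q.c1
  h2 : q.c1 < q.W ^ 2
  h3 : q.V < q.c0 * q.ws
  h4 : q.c0 < q.V ^ 2

/-- The sign of a chart. -/
def sg (ε : Bool) : ℝ := if ε then 1 else -1

/-- The function `P = u w`. -/
def PP (z : ℂ) : ℝ := z.re * z.im

/-- The function `Q = u / n (P)`. -/
noncomputable def QQ (n : ℝ → ℝ) (z : ℂ) : ℝ := z.re / n (PP z)

/-- The differential of `P`. -/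
noncomputable def dP (z : ℂ) : ℂ →L[ℝ] ℝ := z.im • Complex.reCLM + z.re • Complex.imCLM

/-- The form `d Q / Q`. -/
noncomputable def lq (n : ℝ → ℝ) (z : ℂ) : ℂ →L[ℝ] ℝ :=
  z.re⁻¹ • Complex.reCLM - (deriv n (PP z) / n (PP z)) • dP z

/-- The chart. -/
def Par.X (q : Par) : Set ℂ :=
  {z | |z.im| < q.W ∧ |QQ q.n z| < q.V ∧ (|PP z| < q.p - q.e ∨ q.ws < |z.im|)}

/-- The gluing of a chart with itself. -/
def Sh (p : ℝ) (z z' : ℂ) : Prop :=
  z'.im = z.im ∧ (∃ k : ℤ, PP z' = PP z + k * p) ∧ (z.im = 0 → z'.re = z.re)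

def Par.G1 (q : Par) (z z' : ℂ) : Prop := z.im * z'.im = q.c1 ∧ ∃ k : ℤ, PP z' + PP z = k * q.p

def Par.G0 (q : Par) (z z' : ℂ) : Prop :=
  ∃ k : ℤ, PP z' + PP z = k * q.p ∧ QQ q.n z * QQ q.n z' = (-1) ^ k * q.c0

/-- The surface. -/
def Par.S (q : Par) : Pres ℂ where
  ι := Bool
  W _ := q.X
  r ε z ε' z' := z ∈ q.X ∧ z' ∈ q.X ∧
    ((ε = ε' ∧ Sh q.p z z') ∨ (ε ≠ ε' ∧ (q.G1 z z' ∨ q.G0 z z')))

def Par.K (q : Par) : Set ℂ := {z | |z.im| ≤ √q.c1 ∧ |QQ q.n z| ≤ √q.c0 ∧ |PP z| ≤ q.p / 2}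

def Par.D (q : Par) : Set ℂ := {z | |z.im| < √q.c1 ∧ |QQ q.n z| < √q.c0 ∧ |PP z| < q.p / 2}

/-- The zone where the real part of the complex coframe is `- d w / w`. -/
def Par.ZW (q : Par) (z : ℂ) : Prop := q.ws < |z.im| ∨ q.e < |PP z|

/-- The zone where the real part of the complex coframe is `d Q / Q`. -/
def Par.ZQ (q : Par) (z : ℂ) : Prop := q.c0 < q.V * |QQ q.n z|

/-- A compact set meeting every class and an open fundamental domain in it. -/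
structure FD {V : Type} [NormedAddCommGroup V] [MeasureSpace V] (P : Pres V)
    (K D : P.ι → Set V) : Prop where
  cpt : P.CptBy K
  opn : ∀ i, IsOpen (D i)
  sub : ∀ i, D i ⊆ K i
  inj : ∀ i j, ∀ y ∈ D i, ∀ z ∈ D j, P.r i y j z → i = j ∧ y = z
  null : ∀ i, volume (K i \ D i) = 0

/-- The data of a surface which are used later: `x` is the density of the Chern form. -/
structure SData (S : Pres ℂ) (K D : S.ι → Set ℂ) (F : S.ι → ℂ → ℂ →L[ℝ] ℂ) (A : S.ι → Fm ℂ 1)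
    (x : S.ι → ℂ → ℝ) : Prop where
  good : S.Good
  conn : S.Conn
  fd : FD S K D
  gc : S.GC fun _ _ => ar
  gc' : S.GC fun i z => x i z • ar
  cont : ∀ i, Continuous (x i)
  ok : (Fam.whole S F A).Ok (fun _ _ => ar) fun i z => x i z • ar


end Pool.Agent.Work.MP_bf98aa_gt.Cp
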