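import Pool.Agent.Work.MP_bf98aa_gt.Cp.SLift

/-!
Surfaces: the complex coframe `N = α + i d P`.
PLAN. `exists_delta`: on a small disc `|w|, |Q|, |P|` are small (continuity at `0`). `exists_N`: with `a = V / c0 < ws` and `δ` from `exists_delta` put
`α = χ (u du - w dw) + (1 - χ) ((1 - ϑ) (- dw / w) + ϑ lq)`, `χ = 1` for `‖z‖ ≤ 3 δ / 4`, `0` for `‖z‖ ≥ δ`, `ϑ = ϑ₁ (w) ϑ₂ (u)`, `ϑ₁ = 1` for `|w| ≤ a`, `0` for `|w| ≥ ws`,
`ϑ₂ = 0` for `|u| ≤ δ / 4`, `1` for `|u| ≥ δ / 2`. Each of the three forms `α₀` has `α₀ ∧ d P = c du ∧ dw` with `c = ‖z‖², 1, 1` (`ar_eq_w`, `ar_eq_lq`). On `ZQ`: `|w| < a` and `|u| ≥ δ`; if `e < |P|` then `lq = - dw / w` (`lq_eq`).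
-/

set_option autoImplicit false

open scoped ContDiff Topology
open Set Filter MeasureTheory

namespace Pool.Agent.Work.MP_bf98aa_gt.Cp

open Pool.Agent.Work.MP_bf98aa_gt.Th

variable {q : Par}

theorem Par.Ok.exists_delta (h : q.Ok) : ∃ δ, 0 < δ ∧ Metric.closedBall (0 : ℂ) δ ⊆ q.D ∧
    (∀ z : ℂ, ‖z‖ ≤ δ → ¬ q.ZW z) ∧ ∀ z : ℂ, q.ZQ z → δ < |z.re| := by
  obtain ⟨hc0, hc1, hp⟩ := h.c0_pos
  obtain ⟨m, hm, hmn⟩ := h.nm.low
  have cI : Continuous fun z : ℂ => |z.im| := Complex.continuous_im.abs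
  have cQ : Continuous fun z : ℂ => |QQ q.n z| := h.nm.contDiff_QQ.continuous.abs
  have cP : Continuous fun z : ℂ => |PP z| := contDiff_PP.continuous.abs
  have ev : ∀ {f : ℂ → ℝ} {c : ℝ}, Continuous f → f 0 = 0 → 0 < c → ∀ᶠ z in 𝓝 (0 : ℂ), f z < c :=
    fun {f c} hf h0 hc => hf.continuousAt.eventually_lt continuousAt_const (by rwa [h0])
  have e1 := ev cI (by simp) (Real.sqrt_pos.2 hc1)
  have e2 := ev cQ (by simp [QQ]) (Real.sqrt_pos.2 hc0)
  have e3 := ev cP (by simp [PP]) (half_pos hp)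
  have e4 := ev cI (by simp) h.ws0
  have e5 := ev cP (by simp [PP]) h.e0
  obtain ⟨ε, hε, hb⟩ := Metric.nhds_basis_closedBall.eventually_iff.1
    (e1.and (e2.and (e3.and (e4.and e5))))
  have hV := h.V0
  refine ⟨min ε (q.c0 * m / q.V), lt_min hε (by positivity), fun z hz => ?_, fun z hz => ?_,
    fun z hz => ?_⟩
  · have := hb (Metric.closedBall_subset_closedBall (min_le_left _ _) hz)
    exact ⟨this.1, this.2.1, this.2.2.1⟩
  · have := hb (x := z) (by simpa using hz.trans (min_le_left _ _))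
    rintro (h' | h')
    · exact absurd h' (not_lt.2 this.2.2.2.1.le)
    · exact absurd h' (not_lt.2 this.2.2.2.2.le)
  · refine (min_le_right _ _).trans_lt ?_
    have h1 : |z.re| = |QQ q.n z| * q.n (PP z) := by
      conv_lhs => rw [h.nm.re_eq z]
      rw [abs_mul, abs_of_pos (h.nm.pos _)]
    have h2 : q.c0 < q.V * |QQ q.n z| := hz
    have h3 := hmn (PP z)
    have h4 : 0 ≤ |QQ q.n z| := abs_nonneg _
    rw [h1, div_lt_iff₀ hV]
    nlinarith [mul_le_mul_of_nonneg_left h3 (mul_nonneg hV.le h4)]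

theorem SFrm_cut {a b : ℝ} (hab : a < b) : ∃ f : ℝ → ℝ, ContDiff ℝ ∞ f ∧ (∀ x, 0 ≤ f x) ∧
    (∀ x, f x ≤ 1) ∧ (∀ x, x ≤ a → f x = 0) ∧ ∀ x, b ≤ x → f x = 1 := by
  have hd : 0 < b - a := sub_pos.2 hab
  refine ⟨fun x => Real.smoothTransition ((x - a) / (b - a)),
    Real.smoothTransition.contDiff.comp ((contDiff_id.sub contDiff_const).div_const _),
    fun x => Real.smoothTransition.nonneg _, fun x => Real.smoothTransition.le_one _,
    fun x hx => Real.smoothTransition.zero_of_nonpos ?_,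
    fun x hx => Real.smoothTransition.one_of_one_le ?_⟩
  · exact div_nonpos_of_nonpos_of_nonneg (sub_nonpos.2 hx) hd.le
  · rw [le_div_iff₀ hd]
    linarith

theorem SFrm_div {f g : ℂ → ℝ} (hf : ContDiff ℝ ∞ f) (hg : ContDiff ℝ ∞ g)
    (h : ∀ z, g z = 0 → ∀ᶠ x in 𝓝 z, f x = 0) : ContDiff ℝ ∞ fun z => f z / g z := by
  refine contDiff_iff_contDiffAt.2 fun z => ?_
  by_cases hz : g z = 0
  · refine (contDiffAt_const (c := (0 : ℝ))).congr_of_eventuallyEq ?_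
    filter_upwards [h z hz] with x hx
    rw [hx, zero_div]
  · exact hf.contDiffAt.div hg.contDiffAt hz

theorem SFrm_frame {A B : ℂ → ℝ} (hA : ContDiff ℝ ∞ A) (hB : ContDiff ℝ ∞ B) :
    ∃ N : ℂ → ℂ →L[ℝ] ℂ, ContDiff ℝ ∞ N ∧ (∀ z v, (N z v).re = A z * v.re + B z * v.im) ∧
      ∀ z v, (N z v).im = dP z v := by
  have cre : ContDiff ℝ ∞ fun z : ℂ => z.re := Complex.reCLM.contDiff
  have cim : ContDiff ℝ ∞ fun z : ℂ => z.im := Complex.imCLM.contDiff
  refine ⟨fun z => A z • Complex.reCLM.smulRight (1 : ℂ) + B z • Complex.imCLM.smulRight (1 : ℂ) +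
    (z.im • Complex.reCLM.smulRight Complex.I + z.re • Complex.imCLM.smulRight Complex.I),
    ((hA.smul contDiff_const).add (hB.smul contDiff_const)).add
      ((cim.smul contDiff_const).add (cre.smul contDiff_const)), fun z v => ?_, fun z v => ?_⟩
  · simp
  · rw [dP_apply]
    simp

theorem SFrm_sq (z : ℂ) : z.re ^ 2 + z.im ^ 2 = ‖z‖ ^ 2 := by
  rw [Complex.sq_norm, Complex.normSq_apply]
  ring

theorem Par.Ok.exists_N (h : q.Ok) {δ : ℝ} (h0 : 0 < δ) (h1 : ∀ z : ℂ, ‖z‖ ≤ δ → ¬ q.ZW z)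
    (h2 : ∀ z : ℂ, q.ZQ z → δ < |z.re|) :
    ∃ N : ℂ → ℂ →L[ℝ] ℂ, ContDiff ℝ ∞ N ∧ (∀ z v : ℂ, ‖z‖ < δ / 2 → N z v = z * v) ∧
      (∀ z, z ≠ 0 → 0 < ar ![N z 1, N z Complex.I]) ∧ (∀ z v, (N z v).im = dP z v) ∧
      (∀ z v, q.ZW z → (N z v).re = -(v.im / z.im)) ∧ ∀ z v, q.ZQ z → (N z v).re = lq q.n z v := by
  obtain ⟨hc0, hc1, hp⟩ := h.c0_pos
  have hV := h.V0
  have hws := h.ws0
  have cre : ContDiff ℝ ∞ fun z : ℂ => z.re := Complex.reCLM.contDiff
  have cim : ContDiff ℝ ∞ fun z : ℂ => z.im := Complex.imCLM.contDiff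
  have ha0 : 0 < q.V / q.c0 := by positivity
  have ha : q.V / q.c0 < q.ws := by
    rw [div_lt_iff₀ hc0]
    linarith [h.h3]
  obtain ⟨f1, s1, n1, l1, z1, o1⟩ := SFrm_cut (a := (3 * δ / 4) ^ 2) (b := δ ^ 2) (by nlinarith)
  obtain ⟨f2, s2, n2, l2, z2, o2⟩ := SFrm_cut (a := (q.V / q.c0) ^ 2) (b := q.ws ^ 2)
    (by nlinarith)
  obtain ⟨f3, s3, n3, l3, z3, o3⟩ := SFrm_cut (a := (δ / 4) ^ 2) (b := (δ / 2) ^ 2) (by nlinarith)
  obtain ⟨c, hc⟩ : ∃ c : ℂ → ℝ, c = fun z => f1 (z.re ^ 2 + z.im ^ 2) := ⟨_, rfl⟩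
  obtain ⟨t, ht⟩ : ∃ t : ℂ → ℝ, t = fun z => (1 - f2 (z.im ^ 2)) * f3 (z.re ^ 2) := ⟨_, rfl⟩
  obtain ⟨g, hg⟩ : ∃ g : ℂ → ℝ, g = fun z => deriv q.n (PP z) / q.n (PP z) := ⟨_, rfl⟩
  have sc : ContDiff ℝ ∞ c := by
    rw [hc]
    exact s1.comp ((cre.pow 2).add (cim.pow 2))
  have st : ContDiff ℝ ∞ t := by
    rw [ht]
    exact (contDiff_const.sub (s2.comp (cim.pow 2))).mul (s3.comp (cre.pow 2))
  have sg' : ContDiff ℝ ∞ g := by
    rw [hg]
    exact ((contDiff_infty_iff_deriv.1 h.nm.sm).2.comp contDiff_PP).div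
      (h.nm.sm.comp contDiff_PP) fun z => (h.nm.pos _).ne'
  have ev : ∀ {f : ℂ → ℝ} {z : ℂ} {a : ℝ}, ContDiff ℝ ∞ f → f z < a → ∀ᶠ x in 𝓝 z, f x < a :=
    fun {f z a} hf hz => hf.continuous.continuousAt.eventually_lt continuousAt_const hz
  have ev' : ∀ {f : ℂ → ℝ} {z : ℂ} {a : ℝ}, ContDiff ℝ ∞ f → a < f z → ∀ᶠ x in 𝓝 z, a < f x :=
    fun {f z a} hf hz => continuousAt_const.eventually_lt hf.continuous.continuousAt hz
  have v1 : ∀ z : ℂ, z.re = 0 → ∀ᶠ x in 𝓝 z, c x * t x = 0 := by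
    intro z hz
    have : z.re ^ 2 < (δ / 4) ^ 2 := by
      rw [hz]
      nlinarith
    filter_upwards [ev (cre.pow 2) this] with x hx
    simp only [ht, z3 _ hx.le, mul_zero]
  have v2 : ∀ z : ℂ, z.im = 0 → ∀ᶠ x in 𝓝 z, c x * (1 - t x) = 0 := by
    intro z hz
    by_cases hu : (δ / 2) ^ 2 < z.re ^ 2
    · have : z.im ^ 2 < (q.V / q.c0) ^ 2 := by
        rw [hz]
        nlinarith
      filter_upwards [ev (cim.pow 2) this, ev' (cre.pow 2) hu] with x hx hx'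
      simp only [ht, z2 _ hx.le, o3 _ hx'.le, sub_zero, mul_one, sub_self, mul_zero]
    · have : z.re ^ 2 + z.im ^ 2 < (3 * δ / 4) ^ 2 := by
        rw [hz]
        nlinarith
      filter_upwards [ev ((cre.pow 2).add (cim.pow 2)) this] with x hx
      simp only [hc, z1 _ hx.le, zero_mul]
  have d1 := SFrm_div (sc.mul st) cre v1
  have d2 := SFrm_div (sc.mul (contDiff_const.sub st)) cim v2
  obtain ⟨N, sN, hre, him⟩ := SFrm_frame
    (A := fun z => (1 - c z) * z.re + c z * t z / z.re - c z * t z * g z * z.im)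
    (B := fun z => -((1 - c z) * z.im) - c z * (1 - t z) / z.im - c z * t z * g z * z.re)
    ((((contDiff_const.sub sc).mul cre).add d1).sub (((sc.mul st).mul sg').mul cim))
    ((((contDiff_const.sub sc).mul cim).neg.sub d2).sub (((sc.mul st).mul sg').mul cre))
  have big : ∀ z : ℂ, δ < ‖z‖ → c z = 1 := by
    intro z hz
    simp only [hc]
    refine o1 _ ?_
    rw [SFrm_sq]
    nlinarith
  have mix : ∀ z v : ℂ, δ < ‖z‖ →
      (N z v).re = (1 - t z) * -(v.im / z.im) + t z * lq q.n z v := by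
    intro z v hz
    rw [hre, big z hz, lq_apply, dP_apply]
    simp only [hg]
    ring
  refine ⟨N, sN, fun z v hz => ?_, fun z hz => ?_, him, fun z v hz => ?_, fun z v hz => ?_⟩
  · have hc0' : c z = 0 := by
      simp only [hc]
      refine z1 _ ?_
      rw [SFrm_sq]
      nlinarith [norm_nonneg z]
    apply Complex.ext
    · rw [hre, hc0', Complex.mul_re]
      ring
    · rw [him, dP_apply, Complex.mul_im]
      ring
  · have e1 : c z * t z / z.re * z.re = c z * t z := by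
      by_cases hu : z.re = 0
      · rw [(v1 z hu).self_of_nhds]
        simp
      · field_simp
    have e2 : c z * (1 - t z) / z.im * z.im = c z * (1 - t z) := by
      by_cases hu : z.im = 0
      · rw [(v2 z hu).self_of_nhds]
        simp
      · field_simp
    have e3 : ar ![N z 1, N z Complex.I] = (1 - c z) * (z.re ^ 2 + z.im ^ 2) + c z := by
      rw [ar, wedge_apply]
      simp only [Matrix.cons_val_zero, Matrix.cons_val_one, Complex.reCLM_apply,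
        Complex.imCLM_apply, hre, him, dP_apply, Complex.one_re, Complex.one_im, Complex.I_re,
        Complex.I_im]
      linear_combination e1 + e2
    rw [e3, SFrm_sq]
    have p1 : 0 < ‖z‖ ^ 2 := pow_pos (norm_pos_iff.2 hz) 2
    have p2 : 0 ≤ c z := by
      simp only [hc]
      exact n1 _
    have p3 : c z ≤ 1 := by
      simp only [hc]
      exact l1 _
    rcases p3.eq_or_lt with p4 | p4
    · rw [p4]
      simp
    · have := mul_pos (sub_pos.2 p4) p1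
      linarith
  · have hb : δ < ‖z‖ := by
      by_contra hcon
      exact h1 z (not_lt.1 hcon) hz
    rw [mix z v hb]
    rcases hz with hz | hz
    · have : t z = 0 := by
        have h3 : q.ws ^ 2 ≤ z.im ^ 2 := by
          rw [← sq_abs z.im]
          nlinarith
        simp only [ht, o2 _ h3, sub_self, zero_mul]
      rw [this]
      ring
    · rw [h.nm.lq_eq h.e0 hz]
      ring
  · have hu := h2 z hz
    have hb : δ < ‖z‖ := hu.trans_le (Complex.abs_re_le_norm z)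
    have hw : |z.im| < q.V / q.c0 := by
      rw [lt_div_iff₀ hc0]
      linarith [(h.ZQ_small hz).2.1]
    have : t z = 1 := by
      have h3 : z.im ^ 2 ≤ (q.V / q.c0) ^ 2 := by
        rw [← sq_abs z.im]
        nlinarith [abs_nonneg z.im]
      have h4 : (δ / 2) ^ 2 ≤ z.re ^ 2 := by
        rw [← sq_abs z.re]
        nlinarith
      simp only [ht, z2 _ h3, o3 _ h4, sub_zero, mul_one]
    rw [mix z v hb, this]
    ring

/-- The gluing maps preserve the coframe up to sign. -/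
theorem Par.Ok.N_inv (h : q.Ok) {N : ℂ → ℂ →L[ℝ] ℂ} (h1 : ∀ z v, (N z v).im = dP z v)
    (h2 : ∀ z v, q.ZW z → (N z v).re = -(v.im / z.im))
    (h3 : ∀ z v, q.ZQ z → (N z v).re = lq q.n z v) {i j : Bool} {y : ℂ} {γ : ℂ → ℂ}
    (hγ : Lift (sl q.S.r i j) y γ) : (i = j ∧ γ =ᶠ[𝓝 y] fun x => x) ∨
      ((q.ZW y ∨ q.ZQ y) ∧ (q.ZW (γ y) ∨ q.ZQ (γ y)) ∧
        ∀ᶠ x in 𝓝 y, ∀ v, N (γ x) (fderiv ℝ γ x v) = (sg i * sg j : ℝ) * N x v) := by
  have key : ∀ᶠ x in 𝓝 y, ∀ v, N (γ x) (fderiv ℝ γ x v) = (sg i * sg j : ℝ) * N x v := by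
    filter_upwards [h.good.smap.lift_ev h.good hγ] with x hx v
    rcases h.lift_d hx with ⟨rfl, e⟩ | ⟨hP, hz⟩
    · have e1 : γ x = x := e.self_of_nhds
      have e2 : fderiv ℝ γ x v = v := by
        rw [e.fderiv_eq]
        simp
      rw [e1, e2, sg_mul_self]
      simp
    · apply Complex.ext
      · rw [Complex.re_ofReal_mul]
        rcases hz with ⟨a, b, -, -, c⟩ | ⟨a, b, -, c⟩
        · rw [h2 _ _ b, h2 _ _ a, c]
          ring
        · rw [h3 _ _ b, h3 _ _ a, c]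
      · rw [Complex.im_ofReal_mul, h1, h1, hP]
  rcases h.lift_d hγ with e | ⟨-, hz⟩
  · exact Or.inl e
  · rcases hz with ⟨a, b, -⟩ | ⟨a, b, -⟩
    · exact Or.inr ⟨Or.inl a, Or.inl b, key⟩
    · exact Or.inr ⟨Or.inr a, Or.inr b, key⟩

end Pool.Agent.Work.MP_bf98aa_gt.Cp
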