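import Pool.Agent.Work.MP_bf98aa_gt.Cp.SNm

/-!
Surfaces: the gluing relation is good.
PLAN (paper section 1). `trans`: `Sh, G0` by `Sh_Q`; `G0, G0` by `QP`; `G1, G0` is impossible (`G1_big`, `G0_big`, `ZQ_small`). `loc`: the lifts are `id`, `(u + k p / w, w)`,
`((k p - P) w / c1, c1 / w)`, and for `G0` the point `u' = (-1)^k c0 n (k p - P) / Q`, `w' = (k p - P) / u'`. `inj`: `Sh.eq_of_lt`. `clo`: the integer `k` is determined by `P, P'`
and locally constant (the set `p ℤ` is closed and discrete); at `w = 0` use `Sh.eq_of_lt`.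
-/

set_option autoImplicit false

open scoped ContDiff Topology
open Set Filter MeasureTheory

namespace Pool.Agent.Work.MP_bf98aa_gt.Cp

open Pool.Agent.Work.MP_bf98aa_gt.Th

variable {q : Par}

theorem SGood_neg (k : ℤ) : (-1 : ℝ) ^ k ≠ 0 := zpow_ne_zero k (by norm_num)

theorem SGood_symm {y z : ℂ} (h : q.G1 y z ∨ q.G0 y z) : q.G1 z y ∨ q.G0 z y :=
  h.imp Par.G1.symm Par.G0.symm

theorem SGood_Q (h : q.Ok) {y z : ℂ} {k : ℤ} (e : QQ q.n y * QQ q.n z = (-1) ^ k * q.c0) :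
    QQ q.n y ≠ 0 ∧ QQ q.n z ≠ 0 :=
  mul_ne_zero_iff.1 (e ▸ mul_ne_zero (SGood_neg k) h.c0_pos.1.ne')

theorem SGood_A (h : q.Ok) {y z x : ℂ} (hy : y ∈ q.X) (hz : z ∈ q.X) (hx : x ∈ q.X)
    (h1 : Sh q.p y z) (h2 : q.G1 z x ∨ q.G0 z x) : q.G1 y x ∨ q.G0 y x := by
  obtain ⟨a1, ⟨k, a2⟩, -⟩ := id h1
  rcases h2 with ⟨b1, m, b2⟩ | h2
  · refine Or.inl ⟨a1 ▸ b1, m - k, ?_⟩
    push_cast
    linarith
  · obtain ⟨-, -, c1, c2⟩ := h.ZQ_small (h.G0_big hx h2)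
    obtain ⟨m, b1, b2⟩ := h2
    have c3 : |PP y| < q.p - q.e := hy.2.2.resolve_right (by rw [← a1]; exact not_lt.2 c1.le)
    refine Or.inr ⟨m - k, ?_, ?_⟩
    · push_cast
      linarith
    · rw [h.nm.Sh_Q h.e0 c3 (c2 hz) h1 a2] at b2
      have := SGood_neg k
      rw [zpow_sub₀ (by norm_num)]
      field_simp
      linarith

theorem SGood_B (h : q.Ok) {y z x : ℂ} (hy : y ∈ q.X) (hz : z ∈ q.X) (hx : x ∈ q.X)
    (h1 : q.G1 y z ∨ q.G0 y z) (h2 : q.G1 z x ∨ q.G0 z x) : Sh q.p y x := by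
  rcases h1 with h1 | h1 <;> rcases h2 with h2 | h2
  · obtain ⟨a1, k, a2⟩ := h1
    obtain ⟨b1, m, b2⟩ := h2
    obtain ⟨c1, c2⟩ := mul_ne_zero_iff.1 (a1 ▸ h.c0_pos.2.1.ne' : y.im * z.im ≠ 0)
    refine ⟨mul_left_cancel₀ c2 (by linarith), ⟨m - k, ?_⟩, fun e => absurd e c1⟩
    push_cast
    linarith
  · exact absurd (h.G1_big hy h1.symm).2 (h.ZQ_small (h.G0_big hx h2)).2.2.1.not_gt
  · exact absurd (h.G1_big hx h2).2 (h.ZQ_small (h.G0_big hy h1.symm)).2.2.1.not_gt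
  · have c1 := (h.ZQ_small (h.G0_big hz h1)).2.2.2 hy
    have c2 := (h.ZQ_small (h.G0_big hz h2.symm)).2.2.2 hx
    obtain ⟨k, a1, a2⟩ := h1
    obtain ⟨m, b1, b2⟩ := h2
    obtain ⟨c3, c4⟩ := SGood_Q h a2
    refine h.nm.QP h.e0 c1 c2 c3 (k := m - k) ?_ (mul_left_cancel₀ c4 ?_)
    · push_cast
      linarith
    · have := SGood_neg k
      rw [b2, zpow_sub₀ (by norm_num), mul_left_comm, mul_comm (QQ q.n z), a2]
      field_simp

theorem Par.Ok.S_trans (h : q.Ok) {i j l : Bool} {y z x : ℂ} (h1 : q.S.r i y j z)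
    (h2 : q.S.r j z l x) : q.S.r i y l x := by
  obtain ⟨hy, hz, h1⟩ := h1
  obtain ⟨-, hx, h2⟩ := h2
  refine ⟨hy, hx, ?_⟩
  rcases h1 with ⟨rfl, h1⟩ | ⟨a, h1⟩ <;> rcases h2 with ⟨rfl, h2⟩ | ⟨b, h2⟩
  · exact Or.inl ⟨rfl, h1.trans h2⟩
  · exact Or.inr ⟨b, SGood_A h hy hz hx h1 h2⟩
  · exact Or.inr ⟨a, SGood_symm (SGood_A h hx hz hy h2.symm (SGood_symm h1))⟩
  · refine Or.inl ⟨?_, SGood_B h hy hz hx h1 h2⟩
    revert a b
    cases i <;> cases j <;> cases l <;> simp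

theorem SGood_mk {a b : ℂ → ℝ} {y : ℂ} (ha : ContDiffAt ℝ ∞ a y) (hb : ContDiffAt ℝ ∞ b y) :
    ContDiffAt ℝ ∞ (fun x => (⟨a x, b x⟩ : ℂ)) y :=
  Complex.equivRealProdCLM.symm.contDiff.contDiffAt.comp y (ha.prodMk hb)

theorem SGood_lift (h : q.Ok) {i j : Bool} {y z : ℂ} (hy : y ∈ q.X) (hz : z ∈ q.X) (γ : ℂ → ℂ)
    (hγ : ContDiffAt ℝ ∞ γ y) (e : γ y = z) (H : ∀ᶠ x in 𝓝 y,
      (i = j ∧ Sh q.p x (γ x)) ∨ (i ≠ j ∧ (q.G1 x (γ x) ∨ q.G0 x (γ x)))) :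
    ∃ γ, γ y = z ∧ Lift (sl q.S.r i j) y γ := by
  refine ⟨γ, e, hγ, ?_⟩
  filter_upwards [h.isOpen_X.mem_nhds hy,
    hγ.continuousAt.eventually_mem (h.isOpen_X.mem_nhds (e ▸ hz)), H] with x a b c using ⟨a, b, c⟩

theorem Par.Ok.S_loc (h : q.Ok) {i j : Bool} {y z : ℂ} (h1 : q.S.r i y j z) :
    ∃ γ, γ y = z ∧ Lift (sl q.S.r i j) y γ := by
  obtain ⟨hy, hz, h1⟩ := h1
  have dre : ContDiffAt ℝ ∞ (fun x : ℂ => x.re) y := Complex.reCLM.contDiff.contDiffAt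
  have dim : ContDiffAt ℝ ∞ (fun x : ℂ => x.im) y := Complex.imCLM.contDiff.contDiffAt
  have dP : ∀ c : ℝ, ContDiffAt ℝ ∞ (fun x : ℂ => c - PP x) y := fun c =>
    contDiffAt_const.sub contDiff_PP.contDiffAt
  rcases h1 with ⟨e, a1, ⟨k, a2⟩, a3⟩ | ⟨e, ⟨a1, k, a2⟩ | ⟨k, a1, a2⟩⟩
  · by_cases h0 : y.im = 0
    · exact SGood_lift h hy hz id contDiffAt_id (Complex.ext (a3 h0).symm a1.symm)
        (Eventually.of_forall fun x => Or.inl ⟨e, Sh.refl _ _⟩)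
    · refine SGood_lift h hy hz (fun x => ⟨x.re + k * q.p / x.im, x.im⟩)
        (SGood_mk (dre.add (contDiffAt_const.div dim h0)) dim) (Complex.ext ?_ a1.symm) ?_
      · rw [PP, PP, a1] at a2
        show y.re + k * q.p / y.im = z.re
        field_simp
        linarith
      · filter_upwards [dim.continuousAt.eventually_ne h0] with x hx
        refine Or.inl ⟨e, rfl, ⟨k, ?_⟩, fun e => absurd e hx⟩
        simp only [PP]
        field_simp
  · have hc := h.c0_pos.2.1.ne'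
    have h0 : y.im ≠ 0 := left_ne_zero_of_mul (a1 ▸ hc : y.im * z.im ≠ 0)
    refine SGood_lift h hy hz (fun x => ⟨(k * q.p - PP x) * x.im / q.c1, q.c1 / x.im⟩)
      (SGood_mk (((dP _).mul dim).div_const _) (contDiffAt_const.div dim h0))
      (Complex.ext ?_ ?_) ?_
    · show (k * q.p - PP y) * y.im / q.c1 = z.re
      rw [← a2, add_sub_cancel_right, div_eq_iff hc, ← a1, PP]
      ring
    · show q.c1 / y.im = z.im
      rw [div_eq_iff h0, ← a1, mul_comm]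
    · filter_upwards [dim.continuousAt.eventually_ne h0] with x hx
      refine Or.inr ⟨e, Or.inl ⟨mul_div_cancel₀ _ hx, k, ?_⟩⟩
      rw [PP]
      simp only
      field_simp
      ring
  · obtain ⟨c1, c2⟩ := SGood_Q h a2
    have dQ : ContDiffAt ℝ ∞ (QQ q.n) y := h.nm.contDiff_QQ.contDiffAt
    set u : ℂ → ℝ := fun x => (-1) ^ k * q.c0 * q.n (k * q.p - PP x) / QQ q.n x with hu
    have du : ContDiffAt ℝ ∞ u y :=
      (contDiffAt_const.mul (h.nm.sm.contDiffAt.comp y (dP _))).div dQ c1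
    have u0 : ∀ x, QQ q.n x ≠ 0 → u x ≠ 0 := fun x hx =>
      div_ne_zero (mul_ne_zero (mul_ne_zero (SGood_neg k) h.c0_pos.1.ne') (h.nm.pos _).ne') hx
    have u1 : ∀ x, QQ q.n x ≠ 0 → PP ⟨u x, (k * q.p - PP x) / u x⟩ = k * q.p - PP x :=
      fun x hx => mul_div_cancel₀ _ (u0 x hx)
    have u2 : ∀ x, QQ q.n x ≠ 0 →
        QQ q.n x * QQ q.n ⟨u x, (k * q.p - PP x) / u x⟩ = (-1) ^ k * q.c0 := fun x hx => by
      have := (h.nm.pos (k * q.p - PP x)).ne'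
      show QQ q.n x * (u x / q.n (PP ⟨u x, (k * q.p - PP x) / u x⟩)) = _
      rw [u1 x hx, hu]
      field_simp
    refine SGood_lift h hy hz (fun x => ⟨u x, (k * q.p - PP x) / u x⟩)
      (SGood_mk du ((dP _).div du (u0 y c1)))
      (h.nm.ext c2 (by rw [u1 y c1, ← a1, add_sub_cancel_right])
        (mul_left_cancel₀ c1 ((u2 y c1).trans a2.symm))) ?_
    filter_upwards [dQ.continuousAt.eventually_ne c1] with x hx
    exact Or.inr ⟨e, Or.inr ⟨k, by rw [u1 x hx, sub_add_cancel], u2 x hx⟩⟩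

theorem SGood_lat {p : ℝ} (hp : 0 < p) {f : ℂ × ℂ → ℝ} (hf : Continuous f) (a : ℂ × ℂ) :
    ∀ᶠ b in 𝓝 a, ∀ k : ℤ, f b = k * p → f a = k * p := by
  have h1 : ∀ᶠ b in 𝓝 a, f b / p ∈ Ioo ((⌈f a / p⌉ : ℝ) - 1) (⌊f a / p⌋ + 1) :=
    (hf.div_const p).continuousAt.eventually_mem (Ioo_mem_nhds
      (by linarith [Int.ceil_lt_add_one (f a / p)]) (Int.lt_floor_add_one _))
  filter_upwards [h1] with b hb k e
  rw [e, mul_div_cancel_right₀ _ hp.ne'] at hb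
  have h2 : ⌈f a / p⌉ - 1 < k := by exact_mod_cast hb.1
  have h3 : k < ⌊f a / p⌋ + 1 := by exact_mod_cast hb.2
  exact (div_eq_iff hp.ne').1 (le_antisymm (Int.ceil_le.1 (by omega)) (Int.le_floor.1 (by omega)))

theorem SGood_near (h : q.Ok) {y z : ℂ} (e : PP z = PP y) :
    ∀ᶠ p : ℂ × ℂ in 𝓝 (y, z), Sh q.p p.1 p.2 → p.1 = p.2 := by
  have hP := contDiff_PP.continuous
  have hc : Continuous fun p : ℂ × ℂ => |PP p.2 - PP p.1| := by fun_prop
  have := hc.continuousAt.eventually_lt (continuousAt_const (y := q.p)) (x₀ := (y, z))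
    (by simpa [e] using h.c0_pos.2.2)
  filter_upwards [this] with p hp hS using (hS.eq_of_lt hp).symm

theorem Par.Ok.S_clo (h : q.Ok) {i j : Bool} {y z : ℂ} (hy : y ∈ q.X) (hz : z ∈ q.X)
    (h1 : ¬ q.S.r i y j z) : ∀ᶠ p in 𝓝 (y, z), ¬ q.S.r i p.1 j p.2 := by
  have hp := h.c0_pos.2.2
  have hP := contDiff_PP.continuous
  have hQ := h.nm.contDiff_QQ.continuous
  have l1 := SGood_lat hp (f := fun p => PP p.2 - PP p.1) (by fun_prop) (y, z)
  have l2 := SGood_lat hp (f := fun p => PP p.2 + PP p.1) (by fun_prop) (y, z)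
  by_cases e : i = j
  · have h2 : ¬ Sh q.p y z := fun hS => h1 ⟨hy, hz, Or.inl ⟨e, hS⟩⟩
    suffices H : ∀ᶠ p : ℂ × ℂ in 𝓝 (y, z), ¬ Sh q.p p.1 p.2 from
      H.mono fun p hp hr => hr.2.2.elim (fun a => hp a.2) fun a => a.1 e
    by_cases a1 : z.im = y.im
    · by_cases a2 : y.im = 0
      · have a3 : y ≠ z := fun e => h2 (e ▸ Sh.refl _ _)
        filter_upwards [SGood_near h (y := y) (z := z) (by rw [PP, PP, a1, a2, mul_zero, mul_zero]),
          isClosed_diagonal.isOpen_compl.mem_nhds (show (y, z) ∈ (diagonal ℂ)ᶜ from a3)]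
          with p b1 b2 hS using b2 (b1 hS)
      · filter_upwards [l1] with p b1 hS
        obtain ⟨k, hk⟩ := hS.2.1
        have := b1 k (by linarith)
        exact h2 ⟨a1, ⟨k, by linarith⟩, fun e => absurd e a2⟩
    · have hc : Continuous fun p : ℂ × ℂ => p.2.im - p.1.im := by fun_prop
      filter_upwards [hc.continuousAt.eventually_ne (x := (y, z)) (sub_ne_zero.2 a1)]
        with p b1 hS using b1 (sub_eq_zero.2 hS.1)
  · have H1 : ∀ᶠ p : ℂ × ℂ in 𝓝 (y, z), ¬ q.G1 p.1 p.2 := by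
      by_cases a1 : y.im * z.im = q.c1
      · filter_upwards [l2] with p b1 ⟨_, k, hk⟩ using
          h1 ⟨hy, hz, Or.inr ⟨e, Or.inl ⟨a1, k, b1 k hk⟩⟩⟩
      · have hc : Continuous fun p : ℂ × ℂ => p.1.im * p.2.im := by fun_prop
        filter_upwards [hc.continuousAt.eventually_ne (x := (y, z)) a1] with p b1 hS using b1 hS.1
    have H0 : ∀ᶠ p : ℂ × ℂ in 𝓝 (y, z), ¬ q.G0 p.1 p.2 := by
      by_cases a1 : ∃ k : ℤ, PP z + PP y = k * q.p
      · obtain ⟨k, hk⟩ := a1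
        have hc : Continuous fun p : ℂ × ℂ => QQ q.n p.1 * QQ q.n p.2 := by fun_prop
        filter_upwards [l2, hc.continuousAt.eventually_ne (x := (y, z)) (y := (-1) ^ k * q.c0)
          fun a2 => h1 ⟨hy, hz, Or.inr ⟨e, Or.inr ⟨k, hk, a2⟩⟩⟩] with p b1 b2 ⟨m, c1, c2⟩
        obtain rfl : k = m := Int.cast_injective (mul_right_cancel₀ hp.ne' (hk.symm.trans (b1 m c1)))
        exact b2 c2
      · filter_upwards [l2] with p b1 ⟨m, c1, _⟩ using a1 ⟨m, b1 m c1⟩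
    filter_upwards [H1, H0] with p b1 b0 hr using
      hr.2.2.elim (fun a => e a.1) fun a => a.2.elim b1 b0

theorem Par.Ok.good (h : q.Ok) : q.S.Good := by
  refine ⟨inferInstanceAs (Finite Bool), fun _ => h.isOpen_X, fun a => a.1,
    fun a => ⟨a, a, Or.inl ⟨rfl, Sh.refl _ _⟩⟩, fun a => ⟨a.2.1, a.1, a.2.2.imp
      (fun b => ⟨b.1.symm, b.2.symm⟩) fun b => ⟨b.1.symm, SGood_symm b.2⟩⟩,
    h.S_trans, h.S_loc, fun {i y} _ => ?_, h.S_clo⟩
  filter_upwards [SGood_near h (y := y) (z := y) rfl] with p b hr using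
    hr.2.2.elim (fun a => b a.2) fun a => absurd rfl a.1

end Pool.Agent.Work.MP_bf98aa_gt.Cp
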