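import Pool.Agent.Work.MP_bf98aa_gt.Cp.SGood

/-!
Surfaces: derivatives of the gluing maps, invariant forms.
PLAN. `lift_d`: near `y` the relation holds with a constant integer `k` (continuity) and in the same case as at `y` (`G1` and `G0` exclude each other by `G1_big`, `ZQ_small`, which are open conditions).
If `i = j` and `γ y = y` then `γ = id` near `y` (`SMap.lift_eq`, `lift_id`). Otherwise differentiate `P (γ x) = ± P x + k p` and `(γ x).im = x.im`, or `x.im (γ x).im = c1`, or `Q x Q (γ x) = ± c0`.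
`gc_ar`: `ar_eq_w`, `ar_eq_lq`. `exists_beta`: `β i 0 = alt1 (sg i • dP z)`, `β true 1 = h (w) d w`, `β false 1 = 0` with a bump `h ≥ 0` supported in `[ws, c1 / W]`, positive at a point `w₀`
of the open interval; points related to the other chart have `|w| < ws` or `c1 < W |w|`.
-/

set_option autoImplicit false

open scoped ContDiff Topology
open Set Filter MeasureTheory

namespace Pool.Agent.Work.MP_bf98aa_gt.Cp

open Pool.Agent.Work.MP_bf98aa_gt.Th

variable {q : Par}

theorem SLift_k {φ : ℂ → ℝ} {φ' : ℂ →L[ℝ] ℝ} {y : ℂ} {p : ℝ} (hp : 0 < p) (hφ : HasFDerivAt φ φ' y)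
    (h : ∀ᶠ x in 𝓝 y, ∃ k : ℤ, φ x = k * p) (v : ℂ) : φ' v = 0 := by
  obtain ⟨l, hl⟩ := h.self_of_nhds
  have e : φ =ᶠ[𝓝 y] fun _ => φ y := by
    filter_upwards [h, hφ.continuousAt.eventually (Metric.ball_mem_nhds _ hp)] with x ⟨k, hk⟩ hx
    rw [Real.dist_eq, hk, hl, ← sub_mul, abs_mul, abs_of_pos hp,
      mul_lt_iff_lt_one_left hp, ← Int.cast_sub, ← Int.cast_abs, ← Int.cast_one, Int.cast_lt,
      Int.abs_lt_one_iff, sub_eq_zero] at hx
    rw [hk, hl, hx]
  rw [hφ.unique ((hasFDerivAt_const _ _).congr_of_eventuallyEq e)]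
  rfl

theorem SLift_im (h : q.Ok) {z : ℂ} (hz : q.ZW z) : z.im ≠ 0 := fun e => by
  rcases hz with k | k
  · rw [e, abs_zero] at k
    exact h.ws0.not_gt k
  · rw [PP, e, mul_zero, abs_zero] at k
    exact h.e0.not_gt k

theorem SLift_sg (i j : Bool) : sg i * sg j * (sg i * sg j) = 1 := by
  cases i <;> cases j <;> simp [sg]

theorem SLift_far (h : q.Ok) {i j : Bool} {z z' : ℂ} (hr : q.S.r i z j z') (hne : i ≠ j) :
    |z.im| < q.ws ∨ q.c1 < q.W * |z.im| := by
  rcases (hr.2.2.resolve_left fun k => hne k.1).2 with k | k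
  exacts [Or.inr (h.G1_big hr.2.1 k).1, Or.inl (h.ZQ_small (h.G0_big hr.2.1 k)).2.2.1]

theorem SLift_one (γ : ℂ → ℂ) (a : Fm ℂ 1) (x v : ℂ) :
    pb γ a x ![v] = a (γ x) ![fderiv ℝ γ x v] := by
  rw [pb, ContinuousAlternatingMap.compContinuousLinearMap_apply]
  congr 1
  funext s
  fin_cases s
  rfl

/-- The differential of a function. -/
noncomputable def SLift_d (f : ℂ → ℝ) : Fm ℂ 1 :=
  pb f fun _ => alt1 (ContinuousLinearMap.id ℝ ℝ)

theorem SLift_d_apply {f : ℂ → ℝ} {f' : ℂ →L[ℝ] ℝ} {x : ℂ} (h : HasFDerivAt f f' x) (v : ℂ) :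
    SLift_d f x ![v] = f' v := by
  rw [SLift_d, pb, ContinuousAlternatingMap.compContinuousLinearMap_apply, alt1_apply, h.fderiv]
  rfl

theorem SLift_cl {f : ℂ → ℝ} (hf : ContDiff ℝ ∞ f) {U : Set ℂ} (hU : IsOpen U) :
    Cl (SLift_d f) U :=
  Cl.pb (W := univ) ⟨contDiffOn_const, fun x _ => extDeriv_const _ x⟩ hU isOpen_univ
    hf.contDiffOn (mapsTo_univ _ _)

theorem SLift_step {a b : ℝ} (hab : a < b) : ∃ H : ℝ → ℝ, ContDiff ℝ ∞ H ∧ (∀ w, 0 ≤ deriv H w) ∧
    (∀ w, w < a ∨ b < w → deriv H w = 0) ∧ ∃ w ∈ Ioo a b, 0 < deriv H w := by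
  have h0 := sub_pos.2 hab
  have sm : ContDiff ℝ ∞ fun w : ℝ => Real.smoothTransition ((w - a) / (b - a)) :=
    Real.smoothTransition.contDiff.comp ((contDiff_id.sub contDiff_const).div_const _)
  refine ⟨_, sm, fun w => Monotone.deriv_nonneg fun x y hxy =>
    Real.smoothTransition.monotone (by gcongr), fun w hw => ?_, ?_⟩
  · rcases hw with hw | hw
    · rw [EventuallyEq.deriv_eq (f := fun _ => 0), deriv_const]
      filter_upwards [Iio_mem_nhds hw] with x hx
      exact Real.smoothTransition.zero_of_nonpos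
        (div_nonpos_of_nonpos_of_nonneg (sub_nonpos.2 (le_of_lt hx)) h0.le)
    · rw [EventuallyEq.deriv_eq (f := fun _ => 1), deriv_const]
      filter_upwards [Ioi_mem_nhds hw] with x hx
      exact Real.smoothTransition.one_of_one_le
        ((one_le_div h0).2 (sub_le_sub_right (le_of_lt hx) a))
  · obtain ⟨w, hw, e⟩ := exists_deriv_eq_slope _ hab sm.continuous.continuousOn
      (sm.differentiable (by simp)).differentiableOn
    refine ⟨w, hw, ?_⟩
    rw [e, div_self h0.ne', sub_self, zero_div]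
    simpa using hab

theorem Par.Ok.lift_d (h : q.Ok) {i j : Bool} {y : ℂ} {γ : ℂ → ℂ} (h1 : Lift (sl q.S.r i j) y γ) :
    (i = j ∧ γ =ᶠ[𝓝 y] fun x => x) ∨
      ((∀ v, dP (γ y) (fderiv ℝ γ y v) = sg i * sg j * dP y v) ∧
        ((q.ZW y ∧ q.ZW (γ y) ∧ (i = j → (γ y).im = y.im) ∧ (i ≠ j → q.c1 < q.W * |y.im|) ∧
            ∀ v, (fderiv ℝ γ y v).im / (γ y).im = sg i * sg j * (v.im / y.im)) ∨
          (q.ZQ y ∧ q.ZQ (γ y) ∧ i ≠ j ∧
            ∀ v, lq q.n (γ y) (fderiv ℝ γ y v) = sg i * sg j * lq q.n y v))) := by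
  have hd := (h1.1.differentiableAt (by simp)).hasFDerivAt
  have hP := (hasFDerivAt_PP (γ y)).comp y hd
  have hI := Complex.imCLM.hasFDerivAt.comp y hd
  have hI0 := Complex.imCLM.hasFDerivAt (x := y)
  have r0 : q.S.r i y j (γ y) := h1.self
  have r1 : ∀ᶠ x in 𝓝 y, q.S.r i x j (γ x) := h1.2
  obtain ⟨c0, c1, p0⟩ := h.c0_pos
  by_cases e : i = j
  · subst e
    by_cases e : γ y = y
    · exact Or.inl ⟨rfl, h.good.smap.lift_eq h.good h1 (h.good.lift_id r0.1) e⟩
    have sh : ∀ᶠ x in 𝓝 y, Sh q.p x (γ x) :=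
      r1.mono fun x k => (k.2.2.resolve_right fun k => k.1 rfl).2
    obtain ⟨z1, z2, -⟩ := h.Sh_zone r0.1 r0.2.1 sh.self_of_nhds e
    refine Or.inr ⟨fun v => ?_, Or.inl ⟨z1, z2, fun _ => sh.self_of_nhds.1, fun k => absurd rfl k,
      fun v => ?_⟩⟩
    · have := SLift_k p0 (hP.sub (hasFDerivAt_PP y))
        (sh.mono fun x k => k.2.1.imp fun k hk => sub_eq_iff_eq_add'.2 hk) v
      rw [sg_mul_self, one_mul]
      exact sub_eq_zero.1 this
    · have := SLift_k p0 (hI.sub hI0)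
        (sh.mono fun x k => ⟨0, by simpa using sub_eq_zero.2 k.1⟩) v
      rw [sg_mul_self, one_mul, sh.self_of_nhds.1]
      exact congrArg (· / y.im) (sub_eq_zero.1 this)
  have s : sg i * sg j = -1 := by rw [sg_ne e, mul_neg, sg_mul_self]
  have g : ∀ᶠ x in 𝓝 y, γ x ∈ q.X ∧ (q.G1 x (γ x) ∨ q.G0 x (γ x)) :=
    r1.mono fun x k => ⟨k.2.1, (k.2.2.resolve_left fun k => e k.1).2⟩
  have ca : ContinuousAt (fun x : ℂ => |x.im|) y := Complex.continuous_im.abs.continuousAt
  rw [s]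
  refine Or.inr ⟨fun v => ?_, g.self_of_nhds.2.imp (fun k => ?_) fun k => ?_⟩
  · have := SLift_k p0 (hP.add (hasFDerivAt_PP y))
      (g.mono fun x k => k.2.elim And.right fun k => k.imp fun _ => And.left) v
    rw [neg_one_mul]
    exact eq_neg_of_add_eq_zero_left this
  · have b := h.G1_big r0.2.1 k
    have b' := h.G1_big r0.1 k.symm
    refine ⟨Or.inl b.2, Or.inl b'.2, fun k => absurd k e, fun _ => b.1, fun v => ?_⟩
    have := SLift_k c1 (hI0.mul hI) (by
      filter_upwards [g, continuousAt_const.eventually_lt ca b.2] with x k k'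
      refine ⟨1, ?_⟩
      rw [Int.cast_one, one_mul]
      exact (k.2.resolve_right fun k2 => k'.not_gt (h.ZQ_small (h.G0_big k.1 k2)).2.2.1).1) v
    have n1 := SLift_im h (Or.inl b.2)
    have n2 := SLift_im h (Or.inl b'.2)
    simp only [add_apply, smul_apply,
      ContinuousLinearMap.comp_apply, Complex.imCLM_apply, Function.comp_apply, smul_eq_mul] at this
    field_simp
    linarith
  · have b := h.G0_big r0.2.1 k
    have b' := h.G0_big r0.1 k.symm
    have n1 := (h.ZQ_small b).1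
    have n2 := (h.ZQ_small b').1
    refine ⟨b, b', e, fun v => ?_⟩
    have := SLift_k c0 ((h.nm.hasFDerivAt_QQ n1).mul ((h.nm.hasFDerivAt_QQ n2).comp y hd)) (by
      filter_upwards [g, ca.eventually_lt continuousAt_const (h.ZQ_small b).2.2.1] with x k k'
      obtain ⟨l, -, hl⟩ := k.2.resolve_left fun k2 => k'.not_gt (h.G1_big k.1 k2).2
      rcases l.even_or_odd with o | o
      · exact ⟨1, hl.trans (by rw [o.neg_one_zpow, Int.cast_one])⟩
      · exact ⟨-1, hl.trans (by rw [o.neg_one_zpow, Int.cast_neg, Int.cast_one])⟩) v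
    simp only [add_apply, smul_apply,
      ContinuousLinearMap.comp_apply, Function.comp_apply, smul_eq_mul] at this
    refine mul_left_cancel₀ (mul_ne_zero (h.nm.QQ_ne.2 n1) (h.nm.QQ_ne.2 n2)) ?_
    linarith

theorem Par.Ok.gc_ar (h : q.Ok) : q.S.GC fun _ _ => ar := by
  refine ⟨fun _ => ⟨contDiffOn_const, fun x _ => extDeriv_const _ x⟩, fun i j y γ h1 => ?_⟩
  rcases h.lift_d h1 with ⟨-, e⟩ | ⟨e, k⟩
  · rw [pb_congr _ e, pb_id]
  refine alt_ext_two fun u v => ?_
  have e0 : pb γ (fun _ => ar) y ![u, v] = ar ![fderiv ℝ γ y u, fderiv ℝ γ y v] := by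
    rw [pb, ContinuousAlternatingMap.compContinuousLinearMap_apply]
    congr 1
    funext s
    fin_cases s <;> rfl
  have s := SLift_sg i j
  rw [e0]
  rcases k with ⟨z1, z2, -, -, k⟩ | ⟨z1, z2, -, k⟩
  · rw [ar_eq_w (SLift_im h z1), ar_eq_w (SLift_im h z2), e, e, k, k]
    linear_combination (u.im / y.im * dP y v - v.im / y.im * dP y u) * s
  · rw [ar_eq_lq q.n (h.ZQ_small z1).1, ar_eq_lq q.n (h.ZQ_small z2).1, e, e, k, k]
    linear_combination (lq q.n y v * dP y u - lq q.n y u * dP y v) * s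

theorem Par.Ok.exists_beta (h : q.Ok) (h1 : q.ws * q.W < q.c1) :
    ∃ β : Fin 2 → Bool → Fm ℂ 1, (∀ s, q.S.GC (β s)) ∧
      (∀ i z, 0 ≤ β 0 i z ![1] * β 1 i z ![Complex.I] - β 0 i z ![Complex.I] * β 1 i z ![1]) ∧
      ∃ i, ∃ z ∈ q.X, 0 < β 0 i z ![1] * β 1 i z ![Complex.I] - β 0 i z ![Complex.I] * β 1 i z ![1] := by
  have ab : q.ws < q.c1 / q.W := (lt_div_iff₀ h.W0).2 h1
  obtain ⟨H, sm, H0, H1, w, hw, H2⟩ := SLift_step ab
  have d0 : ∀ (i : Bool) z v, SLift_d (fun z => sg i * PP z) z ![v] = sg i * dP z v :=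
    fun i z v => SLift_d_apply ((hasFDerivAt_PP z).const_mul _) v
  have d1 : ∀ (i : Bool) z v, SLift_d (fun z => (if i then 1 else 0) * H z.im) z ![v] =
      (if i then 1 else 0) * (deriv H z.im * v.im) := fun i z v =>
    (SLift_d_apply (((sm.differentiable (by simp) z.im).hasDerivAt.comp_hasFDerivAt z
      Complex.imCLM.hasFDerivAt).const_mul _) v).trans rfl
  have far : ∀ {i j : Bool} {z z' : ℂ}, q.S.r i z j z' → i ≠ j → deriv H z.im = 0 :=
    fun {i j z z'} hr hne => H1 _ (by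
      rcases SLift_far h hr hne with k | k
      · exact Or.inl ((le_abs_self _).trans_lt k)
      · rw [mul_comm, ← div_lt_iff₀ h.W0, lt_abs] at k
        exact k.symm.imp_left fun k => by linarith [h.ws0])
  have val : ∀ (i : Bool) (z : ℂ), SLift_d (fun z => sg i * PP z) z ![1] *
      SLift_d (fun z => (if i then 1 else 0) * H z.im) z ![Complex.I] -
      SLift_d (fun z => sg i * PP z) z ![Complex.I] *
      SLift_d (fun z => (if i then 1 else 0) * H z.im) z ![1] =
      (if i then 1 else 0) * (z.im * deriv H z.im) := fun i z => by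
    rw [d0, d0, d1, d1, dP_apply]
    cases i <;> simp [sg]
  refine ⟨![fun i => SLift_d fun z => sg i * PP z,
    fun i => SLift_d fun z => (if i then 1 else 0) * H z.im], Fin.forall_fin_two.2
    ⟨⟨fun i => SLift_cl (contDiff_const.mul contDiff_PP) h.isOpen_X, fun i j y γ k => ?_⟩,
      fun i => SLift_cl (contDiff_const.mul (sm.comp Complex.imCLM.contDiff)) h.isOpen_X,
      fun i j y γ k => ?_⟩, fun i z => le_of_le_of_eq ?_ (val i z).symm, true, ⟨0, w⟩, h.zero_mem ?_,
      lt_of_lt_of_eq ?_ (val true _).symm⟩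
  · rcases h.lift_d k with ⟨rfl, e⟩ | ⟨e, -⟩
    · rw [pb_congr _ e, pb_id]
    · refine alt_ext_one fun v => ((d0 i y v).trans ?_).trans
        ((SLift_one γ _ y v).trans (d0 j _ _)).symm
      rw [e]
      linear_combination -sg i * dP y v * sg_mul_self j
  · by_cases ij : i = j
    · subst ij
      rcases h.lift_d k with ⟨-, e⟩ | ⟨-, ⟨z1, -, e, -, e'⟩ | ⟨-, -, e, -⟩⟩
      · rw [pb_congr _ e, pb_id]
      · refine alt_ext_one fun v => ((d1 i y v).trans ?_).trans
          ((SLift_one γ _ y v).trans (d1 i _ _)).symm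
        have := e' v
        rw [e rfl, sg_mul_self, one_mul, div_left_inj' (SLift_im h z1)] at this
        rw [e rfl, this]
      · exact absurd rfl e
    · refine alt_ext_one fun v => ((d1 i y v).trans ?_).trans
        ((SLift_one γ _ y v).trans (d1 j _ _)).symm
      rw [far k.self ij, far (h.good.symm k.self) (Ne.symm ij)]
      simp
  · refine mul_nonneg (by split_ifs <;> norm_num) ?_
    rcases lt_or_ge z.im q.ws with k | k
    · rw [H1 _ (Or.inl k), mul_zero]
    · exact mul_nonneg (h.ws0.le.trans k) (H0 _)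
  · rw [abs_of_pos (h.ws0.trans hw.1)]
    exact hw.2.trans ((div_lt_iff₀ h.W0).2 (by linarith [h.h2]))
  · simpa using mul_pos (h.ws0.trans hw.1) H2

end Pool.Agent.Work.MP_bf98aa_gt.Cp
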