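import Pool.Agent.Work.MP_bf98aa_gt.Cp.SDef

/-!
Surfaces: elementary facts on the functions `P`, `Q` and the gluing relations.
PLAN. `exists_nm`: `n x = √(x² + e² b (x²))` with `b t = smoothTransition ((e² - t) / (3 e² / 4))` (antitone, `1` for `t ≤ e²/4`, `0` for `e² ≤ t`).
`QP`, `Sh_Q`: `|k| p < 2 p` so `k ∈ {-1, 0, 1}`; for `k = ± 1` both `|P|, |P'|` exceed `e` and have opposite signs, `Q = sgn P / w`.
-/

set_option autoImplicit false

open scoped ContDiff Topology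
open Set Filter MeasureTheory

namespace Pool.Agent.Work.MP_bf98aa_gt.Cp

open Pool.Agent.Work.MP_bf98aa_gt.Th

theorem exists_nm {e : ℝ} (he : 0 < e) : ∃ n, Nm e n := by
  have e2 : 0 < e ^ 2 := by positivity
  set b : ℝ → ℝ := fun x => Real.smoothTransition (2 - 2 * x ^ 2 / e ^ 2) with hb
  have b0 : ∀ x, 0 ≤ b x := fun x => Real.smoothTransition.nonneg _
  have b1 : ∀ x, b x ≤ 1 := fun x => Real.smoothTransition.le_one _
  have lo : ∀ x, (e / 2) ^ 2 ≤ x ^ 2 + e ^ 2 * b x := fun x => by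
    rcases le_total (x ^ 2) (e ^ 2 / 2) with k | k
    · have : b x = 1 := Real.smoothTransition.one_of_one_le (by
        have : 2 * x ^ 2 / e ^ 2 ≤ 1 := (div_le_one e2).2 (by linarith)
        linarith)
      rw [this]
      nlinarith [sq_nonneg x]
    · nlinarith [mul_nonneg e2.le (b0 x)]
  refine ⟨fun x => √(x ^ 2 + e ^ 2 * b x), ContDiff.sqrt ((contDiff_id.pow 2).add
    (contDiff_const.mul (Real.smoothTransition.contDiff.comp (by fun_prop))))
    fun x => (lt_of_lt_of_le (by positivity) (lo x)).ne', fun x => by simp [hb],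
    fun x => Real.abs_le_sqrt (by linarith [mul_nonneg e2.le (b0 x)]), fun x hx => ?_,
    fun x hx => Real.sqrt_le_iff.2 ⟨by positivity, ?_⟩,
    ⟨e / 2, by positivity, fun x => Real.le_sqrt_of_sq_le (lo x)⟩,
    fun x τ hτ => Real.le_sqrt_of_sq_le ?_⟩
  · have : b x = 0 := Real.smoothTransition.zero_of_nonpos (by
      have : e ^ 2 ≤ x ^ 2 := sq_abs x ▸ pow_le_pow_left₀ he.le hx 2
      have : 2 ≤ 2 * x ^ 2 / e ^ 2 := (le_div_iff₀ e2).2 (by linarith)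
      linarith)
    rw [this, mul_zero, add_zero, Real.sqrt_sq_eq_abs]
  · have : x ^ 2 ≤ e ^ 2 := sq_abs x ▸ pow_le_pow_left₀ (abs_nonneg x) hx 2
    nlinarith [mul_le_mul_of_nonneg_left (b1 x) e2.le]
  · have t1 : τ ^ 2 ≤ 1 := pow_le_one₀ hτ.1 hτ.2
    have t2 : b x ≤ b (τ * x) := Real.smoothTransition.monotone (by
      have : 2 * (τ * x) ^ 2 / e ^ 2 ≤ 2 * x ^ 2 / e ^ 2 :=
        div_le_div_of_nonneg_right (by nlinarith [sq_nonneg x]) e2.le
      linarith)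
    rw [mul_pow, Real.sq_sqrt (le_trans (by positivity) (lo x)), mul_pow]
    nlinarith [mul_le_mul_of_nonneg_left t2 e2.le, mul_nonneg e2.le (b0 x)]

theorem sg_mul_self (ε : Bool) : sg ε * sg ε = 1 := by
  cases ε <;> simp [sg]

theorem sg_ne {ε ε' : Bool} (h : ε ≠ ε') : sg ε' = -sg ε := by
  cases ε <;> cases ε' <;> simp_all [sg]

theorem abs_sg (ε : Bool) : |sg ε| = 1 := by
  cases ε <;> simp [sg]

theorem contDiff_PP : ContDiff ℝ ∞ PP :=
  Complex.reCLM.contDiff.mul Complex.imCLM.contDiff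

theorem dP_apply (z v : ℂ) : dP z v = z.im * v.re + z.re * v.im := by
  simp [dP]

theorem hasFDerivAt_PP (z : ℂ) : HasFDerivAt PP (dP z) z :=
  (Complex.reCLM.hasFDerivAt.mul Complex.imCLM.hasFDerivAt).congr_fderiv (add_comm _ _)

theorem Sh.refl (p : ℝ) (z : ℂ) : Sh p z z :=
  ⟨rfl, ⟨0, by simp⟩, fun _ => rfl⟩

theorem Sh.symm {p : ℝ} {z z' : ℂ} (h : Sh p z z') : Sh p z' z := by
  obtain ⟨h1, ⟨k, h2⟩, h3⟩ := h
  exact ⟨h1.symm, ⟨-k, by push_cast; linarith⟩, fun e => (h3 (h1 ▸ e)).symm⟩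

theorem Sh.trans {p : ℝ} {z z' z'' : ℂ} (h : Sh p z z') (h' : Sh p z' z'') : Sh p z z'' := by
  obtain ⟨h1, ⟨k, h2⟩, h3⟩ := h
  obtain ⟨g1, ⟨l, g2⟩, g3⟩ := h'
  exact ⟨g1.trans h1, ⟨k + l, by push_cast; linarith⟩, fun e => (g3 (h1.trans e)).trans (h3 e)⟩

theorem Sh.eq_of {p : ℝ} {z z' : ℂ} (h : Sh p z z') (hP : PP z' = PP z) : z' = z := by
  refine Complex.ext ?_ h.1
  by_cases e : z.im = 0
  · exact h.2.2 e
  · rw [PP, PP, h.1] at hP
    exact mul_right_cancel₀ e hP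

theorem Sh.eq_of_lt {p : ℝ} {z z' : ℂ} (h : Sh p z z') (hP : |PP z' - PP z| < p) : z' = z := by
  obtain ⟨k, hk⟩ := h.2.1
  have p0 := (abs_nonneg _).trans_lt hP
  rw [hk, add_sub_cancel_left, abs_mul, abs_of_pos p0, mul_lt_iff_lt_one_left p0] at hP
  have : k = 0 := Int.abs_lt_one_iff.1 (by exact_mod_cast hP)
  exact h.eq_of (by simpa [this] using hk)

section
variable {e p : ℝ} {n : ℝ → ℝ} {z z' : ℂ}

theorem Nm.pos (h : Nm e n) (x : ℝ) : 0 < n x :=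
  h.low.elim fun _ k => k.1.trans_le (k.2 x)

theorem Nm.contDiff_QQ (h : Nm e n) : ContDiff ℝ ∞ (QQ n) :=
  Complex.reCLM.contDiff.div (h.sm.comp contDiff_PP) fun _ => (h.pos _).ne'

theorem lq_apply (n : ℝ → ℝ) (z v : ℂ) :
    lq n z v = v.re / z.re - deriv n (PP z) / n (PP z) * dP z v := by
  simp [lq, div_eq_inv_mul]

theorem Nm.hasFDerivAt_QQ (h : Nm e n) (hz : z.re ≠ 0) :
    HasFDerivAt (QQ n) (QQ n z • lq n z) z := by
  have n0 := (h.pos (PP z)).ne'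
  have d := ((h.sm.differentiable (by simp) (PP z)).hasDerivAt.inv n0).comp_hasFDerivAt z
    (hasFDerivAt_PP z)
  refine ((Complex.reCLM.hasFDerivAt.mul d).congr_fderiv
    (ContinuousLinearMap.ext fun v => ?_)).congr_of_eventuallyEq
      (.of_forall fun x => div_eq_mul_inv _ _)
  rw [smul_apply, lq_apply]
  simp [QQ]
  field_simp
  ring

theorem Nm.re_eq (h : Nm e n) (z : ℂ) : z.re = QQ n z * n (PP z) :=
  (div_mul_cancel₀ _ (h.pos _).ne').symm

theorem Nm.QQ_ne (h : Nm e n) : QQ n z ≠ 0 ↔ z.re ≠ 0 :=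
  div_ne_zero_iff.trans (and_iff_left (h.pos _).ne')

theorem SNm_Qw (n : ℝ → ℝ) (z : ℂ) : QQ n z * z.im = PP z / n (PP z) :=
  div_mul_eq_mul_div _ _ _

theorem Nm.Qw_le (h : Nm e n) (z : ℂ) : |QQ n z| * |z.im| ≤ 1 := by
  rw [← abs_mul, SNm_Qw, abs_div, abs_of_pos (h.pos _), div_le_one (h.pos _)]
  exact h.abs_le _

theorem Nm.Qw_eq (h : Nm e n) (hz : e ≤ |PP z|) : |QQ n z| * |z.im| = 1 := by
  rw [← abs_mul, SNm_Qw, abs_div, abs_of_pos (h.pos _), ← h.eq_abs _ hz, div_self (h.pos _).ne']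

theorem Nm.ext (h : Nm e n) (hQ : QQ n z ≠ 0) (h1 : PP z' = PP z) (h2 : QQ n z' = QQ n z) :
    z' = z := by
  have e : z'.re = z.re := by rw [h.re_eq z', h1, h2, ← h.re_eq]
  rw [PP, PP, e] at h1
  exact Complex.ext e (mul_left_cancel₀ (h.QQ_ne.1 hQ) h1)

theorem Nm.exists_PQ (h : Nm e n) (P : ℝ) {Q : ℝ} (hQ : Q ≠ 0) : ∃ z, PP z = P ∧ QQ n z = Q := by
  have n0 := (h.pos P).ne'
  have e : PP ⟨Q * n P, P / (Q * n P)⟩ = P := mul_div_cancel₀ _ (mul_ne_zero hQ n0)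
  exact ⟨_, e, by rw [QQ, e, mul_div_cancel_right₀ _ n0]⟩

theorem SNm_opp (h : Nm e n) (he : 0 < e) (h1 : |PP z| < p - e) (h2 : |PP z'| < p - e) {k : ℤ}
    (hP : PP z' = PP z + k * p) : k = 0 ∨ ((-1 : ℝ) ^ k = -1 ∧
      QQ n z' * z'.im = -(QQ n z * z.im) ∧ z.im ≠ 0 ∧ e < |PP z| ∧ e < |PP z'|) := by
  have p0 : 0 < p := by linarith [abs_nonneg (PP z)]
  rw [abs_lt] at h1 h2
  have k1 : k < 2 := by
    have : (k : ℝ) < 2 := lt_of_mul_lt_mul_right (by linarith) p0.le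
    exact_mod_cast this
  have k2 : -2 < k := by
    have : (-2 : ℝ) < k := lt_of_mul_lt_mul_right (by linarith) p0.le
    exact_mod_cast this
  have f : ∀ a b : ℝ, e < a → b < -e → a / n a = -(b / n b) ∧ e < |a| ∧ e < |b| := fun a b ha hb => by
    have a1 := abs_of_pos (he.trans ha)
    have b1 : |b| = -b := abs_of_neg (by linarith)
    rw [h.eq_abs a (by linarith), h.eq_abs b (by linarith), a1, b1, div_neg, neg_neg,
      div_self (he.trans ha).ne', div_self (by linarith : b < 0).ne]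
    exact ⟨rfl, ha, by linarith⟩
  have g : e < |PP z| → z.im ≠ 0 := fun k e0 => by
    rw [PP, e0, mul_zero, abs_zero] at k
    exact lt_asymm k he
  rw [SNm_Qw, SNm_Qw]
  obtain rfl | rfl | rfl : k = -1 ∨ k = 0 ∨ k = 1 := by omega
  · push_cast at hP
    obtain ⟨f1, f2, f3⟩ := f (PP z) (PP z') (by linarith) (by linarith)
    exact Or.inr ⟨by norm_num, by rw [f1, neg_neg], g f2, f2, f3⟩
  · exact Or.inl rfl
  · push_cast at hP
    obtain ⟨f1, f2, f3⟩ := f (PP z') (PP z) (by linarith) (by linarith)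
    exact Or.inr ⟨zpow_one _, f1, g f3, f3, f2⟩

theorem Nm.QP (h : Nm e n) (he : 0 < e) (h1 : |PP z| < p - e) (h2 : |PP z'| < p - e)
    (hQ : QQ n z ≠ 0) {k : ℤ} (hP : PP z' = PP z + k * p) (hQ' : QQ n z' = (-1) ^ k * QQ n z) :
    Sh p z z' := by
  rcases SNm_opp h he h1 h2 hP with rfl | ⟨a, b, c, -⟩
  · rw [h.ext (z' := z') hQ (by simpa using hP) (by simpa using hQ')]
    exact Sh.refl p z
  · rw [hQ', a] at b
    exact ⟨mul_left_cancel₀ hQ (by linarith), ⟨k, hP⟩, fun e => (c e).elim⟩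

theorem Nm.Sh_Q (h : Nm e n) (he : 0 < e) (h1 : |PP z| < p - e) (h2 : |PP z'| < p - e)
    (hS : Sh p z z') {k : ℤ} (hP : PP z' = PP z + k * p) : QQ n z' = (-1) ^ k * QQ n z := by
  rcases SNm_opp h he h1 h2 hP with rfl | ⟨a, b, c, -⟩
  · rw [hS.eq_of (by simpa using hP), zpow_zero, one_mul]
  · rw [hS.1] at b
    exact mul_right_cancel₀ c (by rw [a]; linarith)

theorem SNm_ar (v v' : ℂ) : ar ![v, v'] = v.re * v'.im - v'.re * v.im := by
  rw [ar, wedge_apply]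
  rfl

theorem ar_eq_lq (n : ℝ → ℝ) (hz : z.re ≠ 0) (v v' : ℂ) :
    ar ![v, v'] = lq n z v * dP z v' - lq n z v' * dP z v := by
  rw [SNm_ar, lq_apply, lq_apply, dP_apply, dP_apply]
  field_simp
  ring

theorem ar_eq_w (hz : z.im ≠ 0) (v v' : ℂ) :
    ar ![v, v'] = -(v.im / z.im) * dP z v' + v'.im / z.im * dP z v := by
  rw [SNm_ar, dP_apply, dP_apply]
  field_simp
  ring

theorem Nm.lq_eq (h : Nm e n) (he : 0 < e) (hz : e < |PP z|) (v : ℂ) :
    lq n z v = -(v.im / z.im) := by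
  have ev : n =ᶠ[𝓝 (PP z)] fun x => |x| :=
    ((continuous_abs.tendsto _).eventually (lt_mem_nhds hz)).mono fun x hx => h.eq_abs x hx.le
  have P0 : PP z ≠ 0 := abs_pos.1 (he.trans hz)
  have d : deriv n (PP z) / n (PP z) = (PP z)⁻¹ := by
    rw [ev.deriv_eq, ev.eq_of_nhds]
    rcases P0.lt_or_gt with k | k
    · rw [deriv_abs_neg k, abs_of_neg k, neg_div_neg_eq, one_div]
    · rw [deriv_abs_pos k, abs_of_pos k, one_div]
  have a := left_ne_zero_of_mul P0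
  have b := right_ne_zero_of_mul P0
  rw [lq_apply, d, dP_apply, PP]
  field_simp
  ring

end

variable {q : Par} {z z' : ℂ}

theorem Par.Ok.c0_pos (h : q.Ok) : 0 < q.c0 ∧ 0 < q.c1 ∧ 0 < q.p :=
  ⟨(mul_pos_iff_of_pos_right h.ws0).1 (h.V0.trans h.h3), (mul_pos h.ws0 h.W0).trans_le h.h1,
    by linarith [h.e0, h.ep]⟩

theorem Par.Ok.isOpen_X (h : q.Ok) : IsOpen q.X :=
  (isOpen_lt Complex.continuous_im.abs continuous_const).inter
    ((isOpen_lt h.nm.contDiff_QQ.continuous.abs continuous_const).inter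
      ((isOpen_lt contDiff_PP.continuous.abs continuous_const).union
        (isOpen_lt continuous_const Complex.continuous_im.abs)))

theorem Par.Ok.zero_mem (h : q.Ok) {w : ℝ} (hw : |w| < q.W) : (⟨0, w⟩ : ℂ) ∈ q.X :=
  ⟨hw, by simpa [QQ] using h.V0, Or.inl (by
    rw [PP, zero_mul, abs_zero]
    linarith [h.e0, h.ep])⟩

theorem Par.G1.symm (h : q.G1 z z') : q.G1 z' z :=
  ⟨(mul_comm _ _).trans h.1, h.2.imp fun _ e => (add_comm _ _).trans e⟩

theorem Par.G0.symm (h : q.G0 z z') : q.G0 z' z :=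
  h.imp fun _ e => ⟨(add_comm _ _).trans e.1, (mul_comm _ _).trans e.2⟩

theorem Par.Ok.G1_big (h : q.Ok) (hz' : z' ∈ q.X) (hG : q.G1 z z') :
    q.c1 < q.W * |z.im| ∧ q.ws < |z.im| := by
  have c := h.c0_pos.2.1
  have e := congrArg abs hG.1
  rw [abs_mul, abs_of_pos c] at e
  have p : 0 < |z.im| := abs_pos.2 (left_ne_zero_of_mul (hG.1 ▸ c.ne'))
  have : q.c1 < q.W * |z.im| := by linarith [mul_lt_mul_of_pos_left hz'.1 p]
  exact ⟨this, lt_of_mul_lt_mul_left (by linarith [h.h1]) h.W0.le⟩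

theorem Par.Ok.G0_big (h : q.Ok) (hz' : z' ∈ q.X) (hG : q.G0 z z') : q.ZQ z := by
  obtain ⟨k, -, hk⟩ := hG
  have c := h.c0_pos.1
  have e := congrArg abs hk
  rw [abs_mul, abs_mul, abs_zpow, abs_neg, abs_one, one_zpow, one_mul, abs_of_pos c] at e
  have p : 0 < |QQ q.n z| := (abs_nonneg _).lt_of_ne' (left_ne_zero_of_mul (e ▸ c.ne'))
  unfold Par.ZQ
  linarith [mul_lt_mul_of_pos_left hz'.2.1 p]

theorem Par.Ok.ZQ_small (h : q.Ok) (hz : q.ZQ z) :
    z.re ≠ 0 ∧ q.c0 * |z.im| < q.V ∧ |z.im| < q.ws ∧ (z ∈ q.X → |PP z| < q.p - q.e) := by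
  have c := h.c0_pos.1
  unfold Par.ZQ at hz
  have a : q.c0 * |z.im| < q.V := by
    rcases (abs_nonneg z.im).eq_or_lt with e | e
    · rw [← e, mul_zero]
      exact h.V0
    · linarith [mul_lt_mul_of_pos_right hz e, mul_le_mul_of_nonneg_left (h.nm.Qw_le z) h.V0.le]
  have b : |z.im| < q.ws := lt_of_mul_lt_mul_left (a.trans h.h3) c.le
  exact ⟨h.nm.QQ_ne.1 (abs_ne_zero.1 (right_ne_zero_of_mul (c.trans hz).ne')), a, b,
    fun m => m.2.2.resolve_right b.not_gt⟩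

/-- Different related points of one chart lie in the zone `ZW`. -/
theorem Par.Ok.Sh_zone (h : q.Ok) (hz : z ∈ q.X) (hz' : z' ∈ q.X) (hS : Sh q.p z z')
    (hne : z' ≠ z) : q.ZW z ∧ q.ZW z' ∧ z.im ≠ 0 := by
  have w : z.im ≠ 0 := fun e => hne (Complex.ext (hS.2.2 e) hS.1)
  by_cases c : q.ws < |z.im|
  · exact ⟨Or.inl c, Or.inl (hS.1 ▸ c), w⟩
  · obtain ⟨k, hk⟩ := hS.2.1
    rcases SNm_opp h.nm h.e0 (hz.2.2.resolve_right c) (hz'.2.2.resolve_right (hS.1 ▸ c)) hk with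
      rfl | ⟨-, -, -, a, b⟩
    · exact (hne (hS.eq_of (by simpa using hk))).elim
    · exact ⟨Or.inr a, Or.inr b, w⟩

/-- Related points of one chart have the same `|Q|` unless both lie in the rolled up part. -/
theorem Par.Ok.Sh_absQ (h : q.Ok) (hz : z ∈ q.X) (hz' : z' ∈ q.X) (hS : Sh q.p z z')
    (hw : |z.im| ≤ q.ws) : |QQ q.n z'| = |QQ q.n z| := by
  obtain ⟨k, hk⟩ := hS.2.1
  rw [h.nm.Sh_Q h.e0 (hz.2.2.resolve_right hw.not_gt) (hz'.2.2.resolve_right (hS.1 ▸ hw.not_gt)) hS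
    hk, abs_mul, abs_zpow, abs_neg, abs_one, one_zpow, one_mul]

end Pool.Agent.Work.MP_bf98aa_gt.Cp
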