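import Pool.Agent.Work.MP_bf98aa_gt.Th.Stmt

/-!
Tamed almost complex structures, representatives of the first Chern class, integrals of top degree
coefficients.
-/

set_option autoImplicit false

open scoped Manifold ContDiff

namespace Pool.Agent.Work.MP_bf98aa_gt.Cp

open Pool.Agent.Work.MP_bf98aa_gt.Th

section
variable (E : Type) [NormedAddCommGroup E] [NormedSpace ℝ E] (M : Type) [TopologicalSpace M]
  [ChartedSpace E M]

/-- Fields of complex valued alternating `k`-forms on the tangent spaces. -/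
def CForm (k : ℕ) : Type := (x : M) → TangentSpace 𝓘(ℝ, E) x [⋀^Fin k]→L[ℝ] ℂ

/-- Fields of endomorphisms of the tangent spaces. -/
def Endo : Type := (x : M) → TangentSpace 𝓘(ℝ, E) x →L[ℝ] TangentSpace 𝓘(ℝ, E) x

variable {M} {k : ℕ}

/-- The part of `U` seen in the chart at `p`. -/
def seen (U : Set M) (p : M) : Set E := (chartAt E p).target ∩ (chartAt E p).symm ⁻¹' U

variable {E}

/-- A complex form read in the chart at `p`. -/
noncomputable def CForm.loc (w : CForm E M k) (p : M) (y : E) : E [⋀^Fin k]→L[ℝ] ℂ :=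
  (w ((chartAt E p).symm y)).compContinuousLinearMap
    (mfderiv 𝓘(ℝ, E) 𝓘(ℝ, E) (chartAt E p).symm y)

/-- A field of endomorphisms read in the chart at `p`. -/
noncomputable def Endo.loc (J : Endo E M) (p : M) (y : E) : E →L[ℝ] E :=
  (mfderiv 𝓘(ℝ, E) 𝓘(ℝ, E) (chartAt E p) ((chartAt E p).symm y)).comp
    ((J ((chartAt E p).symm y)).comp (mfderiv 𝓘(ℝ, E) 𝓘(ℝ, E) (chartAt E p).symm y))

/-- `J` is a smooth almost complex structure tamed by `w`. -/
def Tamed (w : Form E M 2) (J : Endo E M) : Prop :=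
  (∀ p, ContDiffOn ℝ ∞ (J.loc p) (chartAt E p).target) ∧ (∀ x v, J x (J x v) = -v) ∧
    ∀ x v, v ≠ 0 → 0 < w x ![v, J x v]

/-- On `U`: `Ω` is a smooth nowhere vanishing form which is complex linear for `J`, and `A` is a
smooth real 1-form with `d A = 2 π ρ`. -/
def Frame (J : Endo E M) (ρ : Form E M 2) (U : Set M) (Ω : CForm E M (k + 1)) (A : Form E M 1) :
    Prop :=
  IsOpen U ∧ (∀ p, ContDiffOn ℝ ∞ (Ω.loc p) (seen E U p)) ∧
    (∀ p, ContDiffOn ℝ ∞ (A.loc p) (seen E U p)) ∧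
    (∀ x ∈ U, Ω x ≠ 0 ∧ ∀ v, Ω x (Function.update v 0 (J x (v 0))) = Complex.I * Ω x v) ∧
    ∀ p, ∀ y ∈ seen E U p, extDeriv (A.loc p) y = (2 * Real.pi) • ρ.loc p y

/-- The derivative of a complex function along a tangent vector. -/
noncomputable def cdiff (l : M → ℂ) (x : M) (v : TangentSpace 𝓘(ℝ, E) x) : ℂ :=
  mfderiv 𝓘(ℝ, E) 𝓘(ℝ, ℂ) l x v

/-- On `U`: `Ω' = l Ω` and `A' - A = Im (d l / l)` for a smooth complex function `l`. -/
def Gauge (U : Set M) (Ω Ω' : CForm E M k) (A A' : Form E M 1) : Prop :=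
  ∃ l : M → ℂ, ContMDiffOn 𝓘(ℝ, E) 𝓘(ℝ, ℂ) ∞ l U ∧ ∀ x ∈ U, (∀ v, Ω' x v = l x * Ω x v) ∧
    ∀ v, A' x ![v] - A x ![v] = (cdiff l x v / l x).im

end

variable {n : ℕ} {M : Type} [TopologicalSpace M]

/-- The closed form `ρ` represents the first Chern class of `(T M, J)`: the forms `i A` are the
local forms of a unitary connection on the canonical bundle, whose curvature is `2 π i ρ`. -/
def RepC1 [ChartedSpace (Sp (Fin (n + 1))) M] (J : Endo (Sp (Fin (n + 1))) M)
    (ρ : Form (Sp (Fin (n + 1))) M 2) : Prop :=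
  ρ.Closed ∧ ∃ (ι : Type) (U : ι → Set M) (Ω : ι → CForm (Sp (Fin (n + 1))) M (n + 1))
    (A : ι → Form (Sp (Fin (n + 1))) M 1), (∀ x, ∃ i, x ∈ U i) ∧
      (∀ i, Frame J ρ (U i) (Ω i) (A i)) ∧ ∀ i j, Gauge (U i ∩ U j) (Ω i) (Ω j) (A i) (A j)

variable [ChartedSpace (Sp (Fin n)) M]

/-- The coefficient of the product of `n` 2-forms in the chart at `p`. -/
noncomputable def coef2 (w : Fin n → Form (Sp (Fin n)) M 2) (p : M) (y : Sp (Fin n)) : ℝ :=
  pf (fun s => (w s).loc p y) / 2 ^ n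

/-- The coefficient of the product of `2 n` 1-forms in the chart at `p`. -/
noncomputable def coef1 (a : Fin n × Fin 2 → Form (Sp (Fin n)) M 1) (p : M) (y : Sp (Fin n)) : ℝ :=
  Matrix.det (Matrix.of fun i j => (a i).loc p y ![Pi.single j 1])

/-- The top degree form with coefficient `f p` in the chart at `p` has integral `c` for the
orientation given by `o ^ n`: it is computed with any finite continuous partition of unity
subordinate to the charts. -/
def Integral (o : Form (Sp (Fin n)) M 2) (f : M → Sp (Fin n) → ℝ) (c : ℝ) : Prop :=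
  ∀ (s : Finset M) (ρ : M → M → ℝ), (∀ p, Continuous (ρ p)) →
    (∀ p, tsupport (ρ p) ⊆ (chartAt (Sp (Fin n)) p).source) → (∀ x, ∑ p ∈ s, ρ p x = 1) →
    ∑ p ∈ s, ∫ y in (chartAt (Sp (Fin n)) p).target, ρ p ((chartAt (Sp (Fin n)) p).symm y) *
      (((SignType.sign (top (o.loc p y)) : SignType) : ℝ) * f p y) = c

/-- The statement of the theorem. -/
def Goal : Prop :=
  ∃ (M : Type) (_ : TopologicalSpace M) (_ : T2Space M) (_ : CompactSpace M)
    (_ : ConnectedSpace M) (_ : ChartedSpace (Sp (Fin 3)) M) (_ : IsManifold 𝓘(ℝ, Sp (Fin 3)) ∞ M)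
    (w ρ : Form (Sp (Fin 3)) M 2) (J : Endo (Sp (Fin 3)) M)
    (a : Fin 3 × Fin 2 → Form (Sp (Fin 3)) M 1) (c v : ℝ),
    w.Closed ∧ w.Nondeg ∧ Tamed w J ∧ RepC1 J ρ ∧ Integral w (coef2 ![ρ, w, w]) c ∧ 0 < c ∧
      (∀ i, (a i).Closed) ∧ Integral w (coef1 a) v ∧ v ≠ 0

end Pool.Agent.Work.MP_bf98aa_gt.Cp
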